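import Mathlib

/-! Closure rules for primitive recursive functions and predicates, for `fun_prop`. -/

namespace Pool.Agent.P.MP_e7c2f2_al

attribute [fun_prop] Primrec PrimrecPred

variable {α β γ σ : Type} [Primcodable α] [Primcodable β] [Primcodable γ] [Primcodable σ]

@[fun_prop] theorem p_id : Primrec (fun x : α => x) := Primrec.id
@[fun_prop] theorem p_const (c : σ) : Primrec (fun _ : α => c) := Primrec.const c
@[fun_prop] theorem p_comp {f : β → σ} {g : α → β} (hf : Primrec f) (hg : Primrec g) :
    Primrec (fun a => f (g a)) := hf.comp hg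
@[fun_prop] theorem p_pair {f : α → β} {g : α → γ} (hf : Primrec f) (hg : Primrec g) :
    Primrec (fun a => (f a, g a)) := hf.pair hg
@[fun_prop] theorem p_fst {f : α → β × γ} (hf : Primrec f) : Primrec (fun a => (f a).1) :=
  Primrec.fst.comp hf
@[fun_prop] theorem p_snd {f : α → β × γ} (hf : Primrec f) : Primrec (fun a => (f a).2) :=
  Primrec.snd.comp hf
@[fun_prop] theorem p_add {f g : α → ℕ} (hf : Primrec f) (hg : Primrec g) :
    Primrec (fun a => f a + g a) := Primrec.nat_add.comp hf hg
@[fun_prop] theorem p_mul {f g : α → ℕ} (hf : Primrec f) (hg : Primrec g) :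
    Primrec (fun a => f a * g a) := Primrec.nat_mul.comp hf hg
@[fun_prop] theorem p_sub {f g : α → ℕ} (hf : Primrec f) (hg : Primrec g) :
    Primrec (fun a => f a - g a) := Primrec.nat_sub.comp hf hg
@[fun_prop] theorem p_mod {f g : α → ℕ} (hf : Primrec f) (hg : Primrec g) :
    Primrec (fun a => f a % g a) := Primrec.nat_mod.comp hf hg
@[fun_prop] theorem p_cons {f : α → β} {g : α → List β} (hf : Primrec f) (hg : Primrec g) :
    Primrec (fun a => f a :: g a) := Primrec.list_cons.comp hf hg
@[fun_prop] theorem p_append {f g : α → List β} (hf : Primrec f) (hg : Primrec g) :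
    Primrec (fun a => f a ++ g a) := Primrec.list_append.comp hf hg
@[fun_prop] theorem p_length {g : α → List β} (hg : Primrec g) :
    Primrec (fun a => (g a).length) := Primrec.list_length.comp hg
@[fun_prop] theorem p_take {f : α → ℕ} {g : α → List β} (hf : Primrec f) (hg : Primrec g) :
    Primrec (fun a => (g a).take (f a)) := Primrec.list_take.comp hf hg
@[fun_prop] theorem p_getD {f : α → ℕ} {g : α → List β} (d : β) (hf : Primrec f) (hg : Primrec g) :
    Primrec (fun a => (g a).getD (f a) d) := (Primrec.list_getD d).comp hg hf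
@[fun_prop] theorem p_range {f : α → ℕ} (hf : Primrec f) : Primrec (fun a => List.range (f a)) :=
  Primrec.list_range.comp hf
@[fun_prop] theorem p_map {f : α → List β} {g : α → β → σ} (hf : Primrec f)
    (hg : Primrec fun x : α × β => g x.1 x.2) : Primrec (fun a => (f a).map (g a)) :=
  Primrec.list_map hf hg
@[fun_prop] theorem p_flatMap {f : α → List β} {g : α → β → List σ} (hf : Primrec f)
    (hg : Primrec fun x : α × β => g x.1 x.2) : Primrec (fun a => (f a).flatMap (g a)) :=
  Primrec.list_flatMap hf hg
@[fun_prop] theorem p_idxOf [DecidableEq β] {f : α → β} {g : α → List β} (hf : Primrec f)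
    (hg : Primrec g) : Primrec (fun a => (g a).idxOf (f a)) := Primrec.list_idxOf.comp hf hg
@[fun_prop] theorem p_iterate {f : α → ℕ} {g : α → β} {h : α → β → β} (hf : Primrec f)
    (hg : Primrec g) (hh : Primrec fun x : α × β => h x.1 x.2) :
    Primrec (fun a => (h a)^[f a] (g a)) := Primrec.nat_iterate hf hg hh
@[fun_prop] theorem p_ite {c : α → Prop} [∀ a, Decidable (c a)] {f g : α → σ} (hc : PrimrecPred c)
    (hf : Primrec f) (hg : Primrec g) : Primrec (fun a => if c a then f a else g a) :=
  Primrec.ite hc hf hg

@[fun_prop] theorem r_comp {p : β → Prop} {g : α → β} (hp : PrimrecPred p) (hg : Primrec g) :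
    PrimrecPred (fun a => p (g a)) := hp.comp hg
@[fun_prop] theorem r_const (c : Prop) : PrimrecPred (fun _ : α => c) := by
  classical
  exact ⟨inferInstance, Primrec.const (decide c)⟩
@[fun_prop] theorem r_and {p q : α → Prop} (hp : PrimrecPred p) (hq : PrimrecPred q) :
    PrimrecPred (fun a => p a ∧ q a) := hp.and hq
@[fun_prop] theorem r_or {p q : α → Prop} (hp : PrimrecPred p) (hq : PrimrecPred q) :
    PrimrecPred (fun a => p a ∨ q a) := hp.or hq
@[fun_prop] theorem r_not {p : α → Prop} (hp : PrimrecPred p) :
    PrimrecPred (fun a => ¬ p a) := hp.not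
@[fun_prop] theorem r_eq {f g : α → β} (hf : Primrec f) (hg : Primrec g) :
    PrimrecPred (fun a => f a = g a) := Primrec.eq.comp hf hg
@[fun_prop] theorem r_lt {f g : α → ℕ} (hf : Primrec f) (hg : Primrec g) :
    PrimrecPred (fun a => f a < g a) := Primrec.nat_lt.comp hf hg
@[fun_prop] theorem r_le {f g : α → ℕ} (hf : Primrec f) (hg : Primrec g) :
    PrimrecPred (fun a => f a ≤ g a) := Primrec.nat_le.comp hf hg
@[fun_prop] theorem r_mem {f : α → β} {g : α → List β} (hf : Primrec f) (hg : Primrec g) :
    PrimrecPred (fun a => f a ∈ g a) := by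
  have h : PrimrecRel fun (L : List β) (b : β) => ∃ a ∈ L, a = b :=
    PrimrecRel.exists_mem_list Primrec.eq
  exact (h.comp hg hf).of_eq fun a => by simp

/-- some member of the list satisfies `p` -/
def Ex {β : Type} (l : List β) (p : β → Prop) : Prop := ∃ x ∈ l, p x

/-- every member of the list satisfies `p` -/
def Al {β : Type} (l : List β) (p : β → Prop) : Prop := ∀ x ∈ l, p x

open Classical in
/-- the members of the list that satisfy `p` -/
noncomputable def flt {β : Type} (l : List β) (p : β → Prop) : List β :=
  l.flatMap fun x => if p x then [x] else []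

@[fun_prop] theorem r_Ex {f : α → List β} {p : α → β → Prop} (hf : Primrec f)
    (hp : PrimrecPred fun x : α × β => p x.1 x.2) : PrimrecPred (fun a => Ex (f a) (p a)) := by
  have h1 : PrimrecRel fun (b : β) (a : α) => p a b := hp.comp (Primrec.snd.pair Primrec.fst)
  exact (PrimrecRel.exists_mem_list h1).comp hf Primrec.id

@[fun_prop] theorem r_Al {f : α → List β} {p : α → β → Prop} (hf : Primrec f)
    (hp : PrimrecPred fun x : α × β => p x.1 x.2) : PrimrecPred (fun a => Al (f a) (p a)) := by
  have h1 : PrimrecRel fun (b : β) (a : α) => p a b := hp.comp (Primrec.snd.pair Primrec.fst)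
  exact (PrimrecRel.forall_mem_list h1).comp hf Primrec.id

@[fun_prop] theorem p_flt {f : α → List β} {p : α → β → Prop} (hf : Primrec f)
    (hp : PrimrecPred fun x : α × β => p x.1 x.2) : Primrec (fun a => flt (f a) (p a)) := by
  classical
  unfold flt
  exact Primrec.list_flatMap hf (Primrec.ite hp (Primrec.list_cons.comp Primrec.snd
    (Primrec.const [])) (Primrec.const []))

theorem flt_eq {β : Type} (l : List β) (p : β → Prop) [DecidablePred p] :
    flt l p = l.filter fun x => decide (p x) := by
  induction l with
  | nil => rfl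
  | cons a l ih =>
    unfold flt at ih ⊢
    rw [List.flatMap_cons, ih]
    by_cases h : p a <;> simp [h]

theorem mem_flt {β : Type} {l : List β} {p : β → Prop} {x : β} : x ∈ flt l p ↔ x ∈ l ∧ p x := by
  classical
  simp [flt_eq]

@[fun_prop] theorem p_count {f : α → ℕ} {g : α → List ℕ} (hf : Primrec f) (hg : Primrec g) :
    Primrec (fun a => (g a).count (f a)) := by
  have : Primrec fun a => (flt (g a) fun x => x = f a).length := by fun_prop
  refine this.of_eq fun a => ?_
  rw [flt_eq, List.count_eq_countP, List.countP_eq_length_filter]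
  rfl

end Pool.Agent.P.MP_e7c2f2_al
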