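import Pool.Agent.P.MP_e7c2f2_al.Basic
import Pool.Agent.P.MP_e7c2f2_al.FP

/-! The elements of the semigroup as lists of numbers, and their computable enumeration. -/

namespace Pool.Agent.P.MP_e7c2f2_al

variable {α : Type} [Primcodable α]

/-- all lists of length at most `n` with entries below `b` -/
def allL (b n : ℕ) : List (List ℕ) :=
  (fun L : List (List ℕ) => [] :: L.flatMap fun l => (List.range b).map fun x => x :: l)^[n] [[]]

theorem mem_allL {b n : ℕ} {l : List ℕ} : l ∈ allL b n ↔ l.length ≤ n ∧ ∀ x ∈ l, x < b := by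
  induction n generalizing l with
  | zero => simp only [allL, Function.iterate_zero, id, List.mem_singleton, Nat.le_zero,
      List.length_eq_zero_iff]; exact ⟨fun h => by simp [h], fun h => h.1⟩
  | succ n ih =>
    unfold allL at ih ⊢
    rw [Function.iterate_succ_apply']
    cases l with
    | nil => simp
    | cons a l => simp [ih]; tauto

@[fun_prop] theorem p_allL {f g : α → ℕ} (hf : Primrec f) (hg : Primrec g) :
    Primrec fun a => allL (f a) (g a) := by
  unfold allL; fun_prop

@[fun_prop] theorem p_lt {u : α → List ℕ} {p : α → ℕ} (hu : Primrec u) (hp : Primrec p) :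
    Primrec fun a => lt (u a) (p a) := by
  unfold lt; fun_prop

@[fun_prop] theorem p_idx {u : α → List ℕ} {p : α → ℕ} (hu : Primrec u) (hp : Primrec p) :
    Primrec fun a => idx (u a) (p a) := by
  unfold idx cb; fun_prop

@[fun_prop] theorem r_Node {K p : α → ℕ} {u : α → List ℕ} (hK : Primrec K) (hu : Primrec u)
    (hp : Primrec p) : PrimrecPred fun a => Node (K a) (u a) (p a) := by
  unfold Node; fun_prop

def WPtC (K : ℕ) (u A : List ℕ) (b p p' : ℕ) : Prop := WPt K u (· ∈ A) b p p'

@[fun_prop] theorem r_WPtC {K b p p' : α → ℕ} {u A : α → List ℕ} (hK : Primrec K) (hu : Primrec u)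
    (hA : Primrec A) (hb : Primrec b) (hp : Primrec p) (hp' : Primrec p') :
    PrimrecPred fun a => WPtC (K a) (u a) (A a) (b a) (p a) (p' a) := by
  have : PrimrecPred fun a => Node (K a) (u a) (p a) ∧ Node (K a) (u a) (p' a) ∧
      Ex (List.range (u a).length) fun i => i + 1 < (u a).length ∧ lt (u a) i = lt (u a) (p a) ∧
        idx (u a) i = 2 * b a + 1 ∧ lt (u a) (i + 1) = lt (u a) (p' a) ∧
        idx (u a) (i + 1) = 2 * b a + 2 ∧ i + 1 ∈ A a := by fun_prop
  refine this.of_eq fun a => ?_
  simp only [WPtC, WPt, Ex, List.mem_range]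
  refine and_congr_right fun _ => and_congr_right fun _ => exists_congr fun i => ?_
  exact ⟨fun h => h.2, fun h => ⟨by omega, h⟩⟩

@[fun_prop] theorem r_JA {K y : α → ℕ} {w A : α → List ℕ} (hK : Primrec K) (hw : Primrec w)
    (hA : Primrec A) (hy : Primrec y) : PrimrecPred fun a => JA (K a) (w a) (A a) (y a) := by
  have : PrimrecPred fun a => Ex (List.range (w a).length) fun i => lt (w a) i = y a ∧
      ((i ∈ A a ∧ (i = 0 ∨ (w a).count (lt (w a) (i - 1)) < K a)) ∨
      (i + 1 ∈ A a ∧ (i + 1 = (w a).length ∨ (w a).count (lt (w a) (i + 1)) < K a))) := by fun_prop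
  exact this.of_eq fun a => by simp only [JA, Ex, List.mem_range]

def OKC (K B R N : ℕ) (T : List Tpl) (w A : List ℕ) (p : ℕ) : Prop :=
  Ex T fun t => Ex (allL N N) fun l => lt l 0 = p ∧ lt l 1 = p + 1 ∧
    ((Al (List.range R) fun r => WPtC K w A 0 (lt l r) (lt l r)) ∧
    (Al t.1 fun x => ¬ x.2.1 < R ∨ ¬ x.2.2 < R ∨ WPtC K w A x.1 (lt l x.2.1) (lt l x.2.2)) ∧
    (Al t.2 fun x => ¬ x.1 < R ∨ ¬ x.2 < R ∨ lt l x.1 < lt l x.2)) ∧
    Al (List.range R) fun r => r = 0 ∨ r = 1 ∨ Ex (List.range B) fun b =>
      WPtC K w A b (lt l 0) (lt l r) ∨ WPtC K w A b (lt l r) (lt l 0)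

@[fun_prop] theorem r_OKC {K B R N p : α → ℕ} {T : α → List Tpl} {w A : α → List ℕ}
    (hK : Primrec K) (hB : Primrec B) (hR : Primrec R) (hN : Primrec N) (hT : Primrec T)
    (hw : Primrec w) (hA : Primrec A) (hp : Primrec p) :
    PrimrecPred fun a => OKC (K a) (B a) (R a) (N a) (T a) (w a) (A a) (p a) := by
  unfold OKC; fun_prop

theorem okc_iff {K B R N : ℕ} {T : List Tpl} {w A : List ℕ} {p : ℕ} (h2 : 2 ≤ R) (hR : R ≤ N)
    (hw : w.length ≤ N) : OKC K B R N T w A p ↔ OKs B R T (WPt K w (· ∈ A)) p := by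
  have key : OKC K B R N T w A p ↔ ∃ t ∈ T, ∃ l ∈ allL N N, lt l 0 = p ∧ lt l 1 = p + 1 ∧
      Sat R (WPt K w (· ∈ A)) t (lt l) ∧ Star B R (WPt K w (· ∈ A)) (lt l) := by
    simp only [OKC, Ex, Al, List.mem_range, WPtC, Sat, Star, ← imp_iff_not_or]
  rw [key]
  constructor
  · rintro ⟨t, ht, l, -, h⟩
    exact ⟨t, ht, lt l, h⟩
  · rintro ⟨t, ht, ρ, r0, r1, hs, hst⟩
    have e : ∀ r < R, lt ((List.range R).map ρ) r = ρ r := by
      intro r hr
      rw [lt_eq (by simpa using hr)]; simp
    refine ⟨t, ht, (List.range R).map ρ, mem_allL.mpr ⟨by simpa using hR, fun x hx => ?_⟩,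
      by rw [e 0 (by omega), r0], by rw [e 1 (by omega), r1], ⟨fun r hr => ?_, fun x hx a b => ?_,
        fun x hx a b => ?_⟩, fun r hr => ?_⟩
    · obtain ⟨r, hr, rfl⟩ := List.mem_map.mp hx
      exact (hs.1 r (List.mem_range.mp hr)).1.1.trans_le hw
    · rw [e r hr]; exact hs.1 r hr
    · rw [e _ a, e _ b]; exact hs.2.1 x hx a b
    · rw [e _ a, e _ b]; exact hs.2.2 x hx a b
    · rw [e r hr, e 0 (by omega)]; exact hst r hr

def GoodC (K B R N : ℕ) (T : List Tpl) (w A : List ℕ) (c : ℕ) : Prop :=
  w.length + 2 ≤ N ∧ (Al w fun a => w.count a ≤ K) ∧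
  (Al A fun q => ¬ 0 < q ∨ ¬ Node K w (q - 1) ∨ ¬ Node K w q ∨
    JA K w A (lt w (q - 1)) ∨ OKC K B R N T w A (q - 1)) ∧
  (¬ Node K w c ∨ JA K w A (lt w c))

@[fun_prop] theorem r_GoodC {K B R N c : α → ℕ} {T : α → List Tpl} {w A : α → List ℕ}
    (hK : Primrec K) (hB : Primrec B) (hR : Primrec R) (hN : Primrec N) (hT : Primrec T)
    (hw : Primrec w) (hA : Primrec A) (hc : Primrec c) :
    PrimrecPred fun a => GoodC (K a) (B a) (R a) (N a) (T a) (w a) (A a) (c a) := by
  unfold GoodC; fun_prop

theorem good_iff {P : Par} (h2 : 2 ≤ P.R) (hR : P.R ≤ P.N) {w A : List ℕ} {c : ℕ} :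
    Good P w A c ↔ w ∈ allL P.N P.N ∧ A ∈ allL P.N P.N ∧ c < P.N ∧
      GoodC P.K P.B P.R P.N P.T w A c := by
  simp only [Good, GoodC, mem_allL, Al, ← imp_iff_not_or]
  constructor
  · rintro ⟨⟨a1, a2, a3, a4, a5⟩, b, c, d⟩
    refine ⟨⟨by omega, a2⟩, ⟨a3, a4⟩, a5, a1, b, fun q hq e f g => ?_, d⟩
    rw [okc_iff h2 hR (by omega)]
    exact c q hq e f g
  · rintro ⟨⟨-, a2⟩, ⟨a3, a4⟩, a5, a1, b, c, d⟩
    refine ⟨⟨a1, a2, a3, a4, a5⟩, b, fun q hq e f g => ?_, d⟩
    rw [← okc_iff h2 hR (by omega)]
    exact c q hq e f g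

/-- the partial map coded by a list -/
def app (s : List ℕ) (q : ℕ) : Option ℕ := if lt s q = 0 then none else some (lt s q - 1)

theorem app_some {s : List ℕ} {q r : ℕ} : app s q = some r ↔ lt s q = r + 1 := by
  unfold app
  split_ifs with h
  · simp [h]
  · simp only [Option.some.injEq]; omega

theorem app_isSome {s : List ℕ} {q : ℕ} : (app s q).isSome ↔ lt s q ≠ 0 := by
  unfold app
  split_ifs with h <;> simp [h]

theorem lt_ge {s : List ℕ} {q : ℕ} (h : s.length ≤ q) : lt s q = 0 := by
  simp [lt, List.getD_eq_getElem?_getD, List.getElem?_eq_none h]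

theorem app_inj {s s' : List ℕ} (h : s.length = s'.length) (h' : app s = app s') : s = s' := by
  refine List.ext_getElem h fun i a b => ?_
  rw [← lt_eq a, ← lt_eq b]
  have := congrFun h' i
  unfold app at this
  split_ifs at this with c d
  · omega
  · simp only [Option.some.injEq] at this; omega

def EltC (K : ℕ) (w A : List ℕ) (c : ℕ) (s : List ℕ) : Prop :=
  s.length = w.length + 1 ∧
  ((Al (List.range (w.length + 1)) fun q => lt s q = if q ∈ A then 0 else q + 1) ∨
  (Al (List.range (w.length + 1)) fun q => lt s q = if q ∈ A ∨ c < q then 0 else q + 1) ∨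
  ((Al (List.range (w.length + 1)) fun q => lt s q = 0 ∨ (q + 1 < lt s q ∧ lt s q ≤ w.length + 1)) ∧
    ((flt (List.range w.length) fun q => ¬ lt s q = 0).length < K ∨
      Ex (List.range (w.length + 1)) fun k =>
        (Al (List.range (w.length + 1)) fun q => lt s q = 0 ∨ lt s q = q + k + 1) ∧
        Al (List.range (w.length + 1)) fun q => Al (List.range (w.length + 1)) fun q' =>
          Al (List.range k) fun d => lt s q = 0 ∨ lt s q' = 0 ∨ lt w (q + d) = lt w (q' + d))))

@[fun_prop] theorem r_EltC {K c : α → ℕ} {w A s : α → List ℕ} (hK : Primrec K) (hw : Primrec w)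
    (hA : Primrec A) (hc : Primrec c) (hs : Primrec s) :
    PrimrecPred fun a => EltC (K a) (w a) (A a) (c a) (s a) := by
  unfold EltC; fun_prop

theorem eltC_iff {K : ℕ} {w A : List ℕ} {c : ℕ} {s : List ℕ} :
    EltC K w A c s ↔ s.length = w.length + 1 ∧ IsElt K w A c (app s) := by
  unfold EltC IsElt
  refine and_congr_right fun hl => ?_
  have hz : ∀ q, lt s q ≠ 0 → q < w.length + 1 := fun q h => by
    by_contra hh
    exact h (lt_ge (by omega))
  simp only [Al, Ex, List.mem_range]
  refine or_congr ?_ (or_congr ?_ (Iff.trans (b := Incr w (app s) ∧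
    (Small K w (app s) ∨ ∃ k < w.length + 1, Coh w (app s) k)) (and_congr ?_ ?_) ?_))
  · constructor
    · intro h
      funext q
      unfold app eMap
      by_cases hq : q < w.length + 1
      · rw [h q hq]
        by_cases hA : q ∈ A <;> simp [hA]; omega
      · rw [lt_ge (by omega), if_pos rfl, if_neg (by omega)]
    · intro h q hq
      have := congrFun h q
      unfold eMap at this
      by_cases b : q ∈ A
      · rw [if_neg (fun a => a.2 b)] at this
        rw [if_pos b]
        by_contra hh
        have := app_isSome.mpr hh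
        simp_all
      · rw [if_pos ⟨by omega, b⟩] at this
        rw [if_neg b]
        exact app_some.mp this
  · constructor
    · intro h
      funext q
      unfold app fMap
      by_cases hq : q < w.length + 1
      · rw [h q hq]
        by_cases hA : q ∈ A ∨ c < q
        · rw [if_pos hA, if_pos rfl, if_neg (by rcases hA with h | h <;> [tauto; omega])]
        · push Not at hA
          simp [hA, not_lt.mpr hA.2]; omega
      · rw [lt_ge (by omega), if_pos rfl, if_neg (by omega)]
    · intro h q hq
      have := congrFun h q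
      unfold fMap at this
      by_cases b : q ∈ A ∨ c < q
      · rw [if_neg (fun a => b.elim a.2.1 (by omega))] at this
        rw [if_pos b]
        by_contra hh
        have h2 := app_isSome.mpr hh
        rw [this] at h2
        cases h2
      · rw [if_neg b]
        push Not at b
        rw [if_pos ⟨by omega, b⟩] at this
        exact app_some.mp this
  · constructor
    · intro h q r e
      rw [app_some] at e
      have := h q (hz q (by omega))
      omega
    · intro h q _
      by_cases e : lt s q = 0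
      · exact .inl e
      · have := h q (lt s q - 1) (app_some.mpr (by omega))
        omega
  · refine or_congr ?_ (exists_congr fun k => and_congr_right fun _ => and_congr ?_ ?_)
    · unfold Small
      rw [flt_eq, ← List.toFinset_card_of_nodup (List.nodup_range.filter _)]
      refine iff_of_eq (congrArg (fun x : Finset ℕ => x.card < K) ?_)
      ext q; simp [app_isSome]
    · constructor
      · intro h q r e
        rw [app_some] at e
        have := h q (hz q (by omega))
        omega
      · intro h q _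
        by_cases e : lt s q = 0
        · exact .inl e
        · have := h q (lt s q - 1) (app_some.mpr (by omega))
          omega
    · simp only [app_isSome]
      constructor
      · intro h q q' d a b c
        exact ((h q (hz q a) q' (hz q' b) d c).resolve_left a).resolve_left b
      · intro h q _ q' _ d c
        by_contra hh
        push Not at hh
        exact hh.2.2 (h q q' d hh.1 hh.2.1 c)
  · refine and_congr_right fun hi => or_congr Iff.rfl ⟨fun ⟨k, _, h⟩ => ⟨k, h⟩, fun ⟨k, h⟩ => ?_⟩
    by_cases hk : k < w.length + 1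
    · exact ⟨k, hk, h⟩
    · refine ⟨0, by omega, fun q r e => ?_, fun _ _ _ _ _ c => by omega⟩
      have := h.1 q r e
      have := hi q r e
      omega

/-- a pattern with the code of a partial map -/
abbrev El := (List ℕ × List ℕ × ℕ) × List ℕ

def zer : El := (([], [], 0), [])

def cmp (s s' : List ℕ) : List ℕ := s.map fun x => if x = 0 then 0 else lt s' (x - 1)

def mul (a b : El) : El :=
  if a.1 = b.1 ∧ ¬ a.2 = [] ∧ ¬ b.2 = [] then (a.1, cmp a.2 b.2) else zer

noncomputable def els (K B R N : ℕ) (T : List Tpl) : List El :=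
  zer :: flt ((allL N N).flatMap fun w => (allL N N).flatMap fun A => (List.range N).flatMap
    fun c => (allL N N).map fun s => ((w, A, c), s))
    fun a => GoodC K B R N T a.1.1 a.1.2.1 a.1.2.2 ∧ EltC K a.1.1 a.1.2.1 a.1.2.2 a.2

/-- the position of an element in a list -/
def ix (L : List El) (a : El) : ℕ := @List.idxOf El instBEqOfDecidableEq a L

/-- the multiplication table -/
noncomputable def table (K B R N : ℕ) (T : List Tpl) : List (List ℕ) :=
  (els K B R N T).map fun a => (els K B R N T).map fun b => ix (els K B R N T) (mul a b)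

@[fun_prop] theorem p_mulE {a b : α → El} (ha : Primrec a) (hb : Primrec b) :
    Primrec fun x => mul (a x) (b x) := by
  unfold mul cmp; fun_prop

@[fun_prop] theorem p_ix {L : α → List El} {a : α → El} (hL : Primrec L) (ha : Primrec a) :
    Primrec fun x => ix (L x) (a x) := p_idxOf ha hL

@[fun_prop] theorem p_els {K B R N : α → ℕ} {T : α → List Tpl} (hK : Primrec K) (hB : Primrec B)
    (hR : Primrec R) (hN : Primrec N) (hT : Primrec T) :
    Primrec fun a => els (K a) (B a) (R a) (N a) (T a) := by
  unfold els; fun_prop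

theorem p_table {K B R N : α → ℕ} {T : α → List Tpl} (hK : Primrec K) (hB : Primrec B)
    (hR : Primrec R) (hN : Primrec N) (hT : Primrec T) :
    Primrec fun a => table (K a) (B a) (R a) (N a) (T a) := by
  unfold table; fun_prop

end Pool.Agent.P.MP_e7c2f2_al
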