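import Pool.Agent.P.MP_e7c2f2_al.Basic

/-! What a run through a good pattern says about a word. -/

namespace Pool.Agent.P.MP_e7c2f2_al

open Finset

section

variable {P : Par} {w A : List ℕ} {c : ℕ} {θ : ℕ → ℕ → Option ℕ} {u : List ℕ} {σ : ℕ → ℕ}

theorem run_step (hθ : ∀ a, IsElt P.K w A c (θ a)) (hr : IsRun θ u σ) {p : ℕ}
    (hp : p < u.length) :
    (σ (p + 1) = σ p ∧ σ p ∉ A) ∨ (Mover P.K w (θ (lt u p)) ∧ σ p < σ (p + 1)) := by
  rcases (hθ (lt u p)).cases with h | h
  · have := h _ _ (hr p hp)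
    exact .inl ⟨this.1, this.2.2⟩
  · exact .inr ⟨h, (h.1 _ _ (hr p hp)).1⟩

theorem run_mono (hθ : ∀ a, IsElt P.K w A c (θ a)) (hr : IsRun θ u σ) {p q : ℕ} (h : p ≤ q)
    (hq : q ≤ u.length) : σ p ≤ σ q := by
  induction h with
  | refl => exact le_rfl
  | @step m _ ih =>
    have h1 := ih (by omega)
    rcases run_step hθ hr (show m < u.length from hq) with h | h
    · show σ p ≤ σ (m + 1); omega
    · show σ p ≤ σ (m + 1); omega

theorem run_le (hθ : ∀ a, IsElt P.K w A c (θ a)) (hr : IsRun θ u σ) {p : ℕ}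
    (hp : p < u.length) : σ (p + 1) ≤ w.length := by
  rcases (hθ (lt u p)).cases with h | h
  · have := h _ _ (hr p hp); omega
  · exact (h.1 _ _ (hr p hp)).2

theorem mover_out (hθ : ∀ a, IsElt P.K w A c (θ a)) (hr : IsRun θ u σ) {p : ℕ}
    (hp : p < u.length) (h : σ p ∈ A) : Mover P.K w (θ (lt u p)) := by
  rcases run_step hθ hr hp with h1 | h1
  · exact absurd h h1.2
  · exact h1.1

theorem mover_in (hθ : ∀ a, IsElt P.K w A c (θ a)) (hr : IsRun θ u σ) {p : ℕ}
    (hp : p < u.length) (h : σ (p + 1) ∈ A) : Mover P.K w (θ (lt u p)) := by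
  rcases run_step hθ hr hp with h1 | h1
  · rw [h1.1] at h; exact absurd h h1.2
  · exact h1.1

/-- the letter `x` moves by `k` steps through blocks of letters of the pattern -/
structure Blk (K : ℕ) (w u : List ℕ) (σ : ℕ → ℕ) (x k : ℕ) : Prop where
  pos : 0 < k
  cnt : u.count x = K
  step : ∀ p < u.length, lt u p = x → σ (p + 1) = σ p + k ∧ σ p + k ≤ w.length
  same : ∀ p < u.length, lt u p = x → ∀ p' < u.length, lt u p' = x → ∀ d < k,
    lt w (σ p + d) = lt w (σ p' + d)
  role : ∀ p < u.length, lt u p = x → ∀ d < k,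
    w.count (lt w (σ p + d)) = K ∧ idx w (σ p + d) = idx u p
  surj : ∀ p < u.length, lt u p = x → ∀ d < k, ∀ i < w.length, lt w i = lt w (σ p + d) →
    ∃ p' < u.length, lt u p' = x ∧ σ p' + d = i

theorem exists_blk (hg : Good P w A c) (hθ : ∀ a, IsElt P.K w A c (θ a)) (hr : IsRun θ u σ)
    {p : ℕ} (hp : p < u.length) (hm : Mover P.K w (θ (lt u p)))
    (hK : P.K ≤ u.count (lt u p)) : ∃ k, Blk P.K w u σ (lt u p) k := by
  classical
  set x := lt u p with hx
  have hocc : ∀ p' < u.length, lt u p' = x → θ x (σ p') = some (σ (p' + 1)) := by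
    intro p' h1 h2
    rw [← h2]; exact hr p' h1
  have hmono : ∀ p1 p2, p1 < p2 → p2 < u.length → lt u p1 = x → σ p1 < σ p2 := by
    intro p1 p2 h1 h2 h3
    have a := (hm.1 _ _ (hocc p1 (by omega) h3)).1
    have b := run_mono hθ hr (show p1 + 1 ≤ p2 from h1) h2.le
    omega
  rcases hm.2 with hs | ⟨k, hk⟩
  · exfalso
    have : u.count x ≤ ((range w.length).filter fun q => (θ x q).isSome).card := by
      rw [count_card]
      apply card_le_card_of_injOn σ
      · intro p' hp'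
        simp only [coe_filter, mem_range, Set.mem_ofPred_eq] at hp' ⊢
        have h1 := hocc p' hp'.1 hp'.2
        have := hm.1 _ _ h1
        exact ⟨by omega, by simp [h1]⟩
      · intro p1 h1 p2 h2 he
        simp only [coe_filter, mem_range, Set.mem_ofPred_eq] at h1 h2
        rcases lt_trichotomy p1 p2 with h | h | h
        · have := hmono p1 p2 h h2.1 h1.2; omega
        · exact h
        · have := hmono p2 p1 h h1.1 h2.2; omega
    unfold Small at hs
    omega
  have hstep : ∀ p' < u.length, lt u p' = x → σ (p' + 1) = σ p' + k ∧ σ p' + k ≤ w.length := by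
    intro p' h1 h2
    have a := hk.1 _ _ (hocc p' h1 h2)
    have b := hm.1 _ _ (hocc p' h1 h2)
    omega
  have hpos : 0 < k := by
    have a := hstep p hp rfl
    have b := hm.1 _ _ (hocc p hp rfl)
    omega
  have hsame : ∀ p1 < u.length, lt u p1 = x → ∀ p2 < u.length, lt u p2 = x → ∀ d < k,
      lt w (σ p1 + d) = lt w (σ p2 + d) := by
    intro p1 h1 h2 p2 h3 h4 d hd
    exact hk.2 _ _ d (by simp [hocc p1 h1 h2]) (by simp [hocc p2 h3 h4]) hd
  have key : ∀ p1 < u.length, lt u p1 = x → ∀ d < k,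
      (∀ i < w.length, lt w i = lt w (σ p1 + d) → ∃ p' < u.length, lt u p' = x ∧ σ p' + d = i) ∧
      w.count (lt w (σ p1 + d)) = u.count x ∧ idx w (σ p1 + d) = idx u p1 := by
    intro p1 h1 h2 d hd
    have g1 : ∀ p' < u.length, lt u p' = x →
        σ p' + d < w.length ∧ lt w (σ p' + d) = lt w (σ p1 + d) := by
      intro p' a b
      have := hstep p' a b
      exact ⟨by omega, hsame p' a b p1 h1 h2 d hd⟩
    have g2 : ∀ p p', p < p' → p' < u.length → lt u p = x → lt u p' = x →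
        σ p + d < σ p' + d := by
      intro a b h3 h4 h5 _
      have := hmono a b h3 h4 h5
      omega
    have g3 := occ_surj (g := fun p' => σ p' + d) g1 g2 ((hg.count_le _).trans hK)
    have g4 := occ_bij (g := fun p' => σ p' + d) g1 g2 g3
    exact ⟨g3, g4.1, g4.2 p1 h1 h2⟩
  have hcnt : u.count x = P.K := by
    have := (key p hp rfl 0 hpos).2.1
    have := hg.count_le (lt w (σ p + 0))
    omega
  exact ⟨k, hpos, hcnt, hstep, hsame,
    fun p1 h1 h2 d hd => ⟨by rw [(key p1 h1 h2 d hd).2.1, hcnt], (key p1 h1 h2 d hd).2.2⟩,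
    fun p1 h1 h2 d hd => (key p1 h1 h2 d hd).1⟩

/-- letters with more than `K` occurrences act as partial identities -/
theorem inert_ef (hg : Good P w A c) (hθ : ∀ a, IsElt P.K w A c (θ a)) (hr : IsRun θ u σ)
    {z : ℕ} (hz : P.K < u.count z) : θ z = eMap w A ∨ θ z = fMap w A c := by
  rcases hθ z with h | h | h
  · exact .inl h
  · exact .inr h
  · exfalso
    obtain ⟨p, hp, rfl, -⟩ := exists_idx (show 0 < u.count z by omega)
    obtain ⟨k, hk⟩ := exists_blk hg hθ hr hp h hz.le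
    have := hk.cnt
    omega

theorem inert_pid (hg : Good P w A c) (hθ : ∀ a, IsElt P.K w A c (θ a)) (hr : IsRun θ u σ)
    {z : ℕ} (hz : P.K < u.count z) : PId w A (θ z) := by
  rcases inert_ef hg hθ hr hz with h | h <;> rw [h]
  · exact pId_e _ _
  · exact pId_f _ _ _

/-- a locked contact with a rare letter in the pattern shows up in the word -/
theorem not_JF (hg : Good P w A c) (hθ : ∀ a, IsElt P.K w A c (θ a)) (hr : IsRun θ u σ)
    {x k p d : ℕ} (hb : Blk P.K w u σ x k) (hp : p < u.length) (hx : lt u p = x) (hd : d < k)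
    (hJ : JA P.K w A (lt w (σ p + d))) : ¬ JF P.K u x := by
  intro hF
  obtain ⟨i, hi, h1, h2⟩ := hJ
  obtain ⟨p', hp', hx', rfl⟩ := hb.surj p hp hx d hd i hi h1
  obtain ⟨⟨f1, f2⟩, f3, f4⟩ := hF p' hp' hx'
  rcases h2 with ⟨hA, h2⟩ | ⟨hA, h2⟩
  · by_cases hd0 : d = 0
    · subst hd0
      obtain ⟨p'', rfl⟩ : ∃ p'', p' = p'' + 1 := ⟨p' - 1, by omega⟩
      simp only [Nat.add_sub_cancel, add_zero] at f2 hA h2
      obtain ⟨k', hb'⟩ := exists_blk hg hθ hr (by omega) (mover_in hθ hr (by omega) hA) f2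
      have a := hb'.step p'' (by omega) rfl
      have b := (hb'.role p'' (by omega) rfl (k' - 1) (by have := hb'.pos; omega)).1
      have := hb'.pos
      rw [show σ p'' + (k' - 1) = σ (p'' + 1) - 1 by omega] at b
      omega
    · have b := (hb.role p' hp' hx' (d - 1) (by omega)).1
      rw [show σ p' + (d - 1) = σ p' + d - 1 by omega] at b
      omega
  · have a := hb.step p' hp' hx'
    by_cases hd0 : d + 1 = k
    · rw [show σ p' + d + 1 = σ (p' + 1) by omega] at hA h2
      obtain ⟨k', hb'⟩ := exists_blk hg hθ hr f3 (mover_out hθ hr f3 hA) f4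
      have a' := hb'.step _ f3 rfl
      have b := (hb'.role _ f3 rfl 0 hb'.pos).1
      have := hb'.pos
      rw [add_zero] at b
      omega
    · have b := (hb.role p' hp' hx' (d + 1) (by omega)).1
      rw [← add_assoc] at b
      omega

/-- a letter of the pattern with two consecutive occurrences is played alone -/
theorem blk_one (hθ : ∀ a, IsElt P.K w A c (θ a)) (hr : IsRun θ u σ)
    {x k p d i : ℕ} (hb : Blk P.K w u σ x k) (hp : p < u.length) (hx : lt u p = x) (hd : d < k)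
    (hi : i + 1 < w.length) (h1 : lt w i = lt w (σ p + d)) (h2 : lt w (i + 1) = lt w (σ p + d)) :
    k = 1 := by
  obtain ⟨p1, a1, a2, a3⟩ := hb.surj p hp hx d hd i (by omega) h1
  obtain ⟨p2, b1, b2, b3⟩ := hb.surj p hp hx d hd (i + 1) hi h2
  have hlt : p1 < p2 := by
    by_contra h
    have := run_mono hθ hr (not_lt.mp h) a1.le
    omega
  have := run_mono hθ hr (show p1 + 1 ≤ p2 from hlt) b1.le
  have := hb.step p1 a1 a2
  have := hb.pos
  omega

/-- the node `p` of the word plays the node `j` of the pattern -/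
def Plays (K : ℕ) (w u : List ℕ) (σ : ℕ → ℕ) (p j : ℕ) : Prop :=
  Node K u p ∧ Blk K w u σ (lt u p) 1 ∧ σ p = j

theorem exists_plays (hθ : ∀ a, IsElt P.K w A c (θ a)) (hr : IsRun θ u σ) {A' : ℕ → Prop}
    {k p d j : ℕ} (hp : p < u.length) (hb : Blk P.K w u σ (lt u p) k) (hd : d < k)
    (hj : WPt P.K w A' 0 j j) (he : lt w (σ p + d) = lt w j) :
    ∃ p', Plays P.K w u σ p' j ∧ lt u p' = lt u p := by
  obtain ⟨hn, -, i, a1, a2, -, a4, -⟩ := hj
  have hk := blk_one hθ hr hb hp rfl hd a1 (a2.trans he.symm) (a4.trans he.symm)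
  subst hk
  obtain rfl : d = 0 := by omega
  obtain ⟨p', b1, b2, b3⟩ := hb.surj p hp rfl 0 hd j hn.1 he.symm
  have c1 := (hb.role p' b1 b2 0 hd).2
  rw [b3, hn.2.2] at c1
  exact ⟨p', ⟨⟨b1, by rw [b2]; exact hb.cnt, c1.symm⟩, by rw [b2]; exact hb, b3⟩, b2⟩

theorem Plays.occ {K w u σ p j i} (h : Plays K w u σ p j) (hi : i < w.length)
    (he : lt w i = lt w j) :
    ∃ p1 < u.length, lt u p1 = lt u p ∧ σ p1 = i ∧ σ (p1 + 1) = i + 1 ∧ idx u p1 = idx w i := by
  obtain ⟨hn, hb, rfl⟩ := h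
  obtain ⟨p1, a1, a2, a3⟩ := hb.surj p hn.1 rfl 0 one_pos i hi he
  have b := hb.step p1 a1 a2
  have c := (hb.role p1 a1 a2 0 one_pos).2
  rw [add_zero] at a3
  rw [add_zero, a3] at c
  exact ⟨p1, a1, a2, a3, by omega, c.symm⟩

theorem Plays.ptr (hθ : ∀ a, IsElt P.K w A c (θ a)) (hr : IsRun θ u σ) {p j p' j' b : ℕ}
    (h : Plays P.K w u σ p j) (h' : Plays P.K w u σ p' j') (hP : WPt P.K w (· ∈ A) b j j') :
    WPt P.K u (fun _ => True) b p p' := by
  obtain ⟨-, -, i, a1, a2, a3, a4, a5, a6⟩ := hP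
  obtain ⟨p1, b1, b2, b3, b4, b5⟩ := h.occ (show i < w.length by omega) a2
  obtain ⟨p2, c1, c2, c3, c4, c5⟩ := h'.occ a1 a4
  have hlt : p1 < p2 := by
    by_contra hh
    have := run_mono hθ hr (not_lt.mp hh) b1.le
    omega
  have he : p2 = p1 + 1 := by
    by_contra hh
    have h1 : p1 + 1 < u.length := by omega
    rcases run_step hθ hr h1 with h2 | h2
    · exact h2.2 (by rw [b4]; exact a6)
    · have := run_mono hθ hr (show p1 + 1 + 1 ≤ p2 by omega) c1.le
      omega
  subst he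
  exact ⟨h.1, h'.1, p1, c1, b2, by omega, c2, by omega, trivial⟩

theorem Plays.lt (hθ : ∀ a, IsElt P.K w A c (θ a)) (hr : IsRun θ u σ) {p j p' j' : ℕ}
    (h : Plays P.K w u σ p j) (h' : Plays P.K w u σ p' j') (hlt : j < j') : p < p' := by
  by_contra hh
  have := run_mono hθ hr (not_lt.mp hh) h.1.1.le
  have := h.2.2
  have := h'.2.2
  omega

/-- a genuine lock of the pattern is a verification in the frame of the word -/
theorem oks_of_run (hR : 2 ≤ P.R) (hg : Good P w A c) (hθ : ∀ a, IsElt P.K w A c (θ a))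
    (hr : IsRun θ u σ) {g : ℕ} (h1 : Node P.K u g) (h2 : Node P.K u (g + 1))
    (hA : σ (g + 1) ∈ A) (hF : JF P.K u (lt u g))
    (hO : OKs P.B P.R P.T (WPt P.K w (· ∈ A)) (σ (g + 1) - 1)) :
    OKs P.B P.R P.T (WPt P.K u fun _ => True) g := by
  classical
  obtain ⟨t, ht, ρ, r0, r1, hs, hst⟩ := hO
  obtain ⟨kx, bx⟩ := exists_blk hg hθ hr h1.1 (mover_in hθ hr h1.1 hA) h1.2.1.ge
  obtain ⟨ky, bY⟩ := exists_blk hg hθ hr h2.1 (mover_out hθ hr h2.1 hA) h2.2.1.ge
  have sx := bx.step g h1.1 rfl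
  have px := bx.pos
  have hx : Plays P.K w u σ g (ρ 0) := by
    obtain ⟨p', a, b⟩ := exists_plays hθ hr h1.1 bx (show kx - 1 < kx by omega)
      (hs.1 0 (by omega)) (by rw [r0]; congr 1; omega)
    rwa [pos_unique a.1.1 h1.1 b (a.1.2.2.trans h1.2.2.symm)] at a
  have hy : Plays P.K w u σ (g + 1) (ρ 1) := by
    obtain ⟨p', a, b⟩ := exists_plays hθ hr h2.1 bY bY.pos
      (hs.1 1 (by omega)) (by rw [r1]; congr 1; omega)
    rwa [pos_unique a.1.1 h2.1 b (a.1.2.2.trans h2.2.2.symm)] at a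
  have hall : ∀ r, ∃ p, r < P.R → Plays P.K w u σ p (ρ r) ∧ (r = 0 → p = g) ∧
      (r = 1 → p = g + 1) := by
    intro r
    by_cases hr0 : r = 0
    · exact ⟨g, fun _ => ⟨hr0 ▸ hx, fun _ => rfl, fun h => by omega⟩⟩
    by_cases hr1 : r = 1
    · exact ⟨g + 1, fun _ => ⟨hr1 ▸ hy, fun h => by omega, fun _ => rfl⟩⟩
    by_cases hrR : r < P.R
    swap
    · exact ⟨0, fun h => absurd h hrR⟩
    suffices h : ∃ p, Plays P.K w u σ p (ρ r) by
      obtain ⟨p, hp⟩ := h
      exact ⟨p, fun _ => ⟨hp, fun h => absurd h hr0, fun h => absurd h hr1⟩⟩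
    rcases hst r hrR with h | h | ⟨b, -, h | h⟩
    · exact absurd h hr0
    · exact absurd h hr1
    · obtain ⟨-, -, i, a1, a2, -, a4, -, a6⟩ := h
      obtain ⟨p1, b1, b2, b3, b4, -⟩ := hx.occ (show i < w.length by omega) a2
      obtain ⟨-, f3, f4⟩ := hF p1 b1 b2
      obtain ⟨k', hb'⟩ := exists_blk hg hθ hr f3 (mover_out hθ hr f3 (by rw [b4]; exact a6)) f4
      obtain ⟨p', a, -⟩ := exists_plays hθ hr f3 hb' hb'.pos (hs.1 r hrR)
        (by rw [add_zero, b4]; exact a4)
      exact ⟨p', a⟩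
    · obtain ⟨-, -, i, a1, a2, -, a4, -, a6⟩ := h
      obtain ⟨p1, b1, b2, b3, b4, -⟩ := hx.occ a1 a4
      obtain ⟨⟨f1, f2⟩, -⟩ := hF p1 b1 b2
      obtain ⟨p2, rfl⟩ : ∃ p2, p1 = p2 + 1 := ⟨p1 - 1, by omega⟩
      rw [Nat.add_sub_cancel] at f2
      have f3 : p2 < u.length := by omega
      obtain ⟨k', hb'⟩ := exists_blk hg hθ hr f3 (mover_in hθ hr f3 (by rw [b3]; exact a6)) f2
      have s' := hb'.step p2 f3 rfl
      have p' := hb'.pos
      obtain ⟨p', a, -⟩ := exists_plays hθ hr f3 hb' (show k' - 1 < k' by omega) (hs.1 r hrR)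
        (by rw [← a2]; congr 1; omega)
      exact ⟨p', a⟩
  choose ρ' hρ' using hall
  exact OKs.map ht ρ' hs hst ((hρ' 0 (by omega)).2.1 rfl) ((hρ' 1 (by omega)).2.2 rfl)
    (by omega) r0
    (fun b r r' a a' h => (hρ' r a).1.ptr hθ hr (hρ' r' a').1 h)
    (fun r r' a a' h => (hρ' r a).1.lt hθ hr (hρ' r' a').1 h)

theorem unlocked (hR : 2 ≤ P.R) (hg : Good P w A c) (hθ : ∀ a, IsElt P.K w A c (θ a))
    (hr : IsRun θ u σ) {g : ℕ} (h1 : Node P.K u g) (h2 : Node P.K u (g + 1))
    (hF : JF P.K u (lt u g)) (hO : ¬ OKs P.B P.R P.T (WPt P.K u fun _ => True) g) :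
    σ (g + 1) ∉ A := by
  intro hA
  obtain ⟨kx, bx⟩ := exists_blk hg hθ hr h1.1 (mover_in hθ hr h1.1 hA) h1.2.1.ge
  obtain ⟨ky, bY⟩ := exists_blk hg hθ hr h2.1 (mover_out hθ hr h2.1 hA) h2.2.1.ge
  have sx := bx.step g h1.1 rfl
  have px := bx.pos
  have sy := bY.step _ h2.1 rfl
  have py := bY.pos
  have e : σ (g + 1) - 1 = σ g + (kx - 1) := by omega
  have rx := bx.role g h1.1 rfl (kx - 1) (by omega)
  have ry := bY.role _ h2.1 rfl 0 py
  rw [add_zero] at ry
  rcases hg.2.2.1 _ hA (by omega) ⟨by omega, by rw [e]; exact rx.1, by rw [e, rx.2]; exact h1.2.2⟩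
    ⟨by omega, ry.1, by rw [ry.2]; exact h2.2.2⟩ with h | h
  · rw [e] at h
    exact not_JF hg hθ hr bx h1.1 rfl (by omega) h hF
  · exact hO (oks_of_run hR hg hθ hr h1 h2 hA hF h)

theorem passable (hg : Good P w A c) (hθ : ∀ a, IsElt P.K w A c (θ a))
    (hr : IsRun θ u σ) {p : ℕ} (h1 : Node P.K u p) (hF : JF P.K u (lt u p)) (hc : σ p ≤ c) :
    σ (p + 1) ≤ c := by
  by_contra hh
  rcases run_step hθ hr h1.1 with h | h
  · omega
  obtain ⟨k, bx⟩ := exists_blk hg hθ hr h1.1 h.1 h1.2.1.ge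
  have sx := bx.step p h1.1 rfl
  have rx := bx.role p h1.1 rfl (c - σ p) (by omega)
  have e : σ p + (c - σ p) = c := by omega
  have := hg.2.2.2 ⟨by omega, by rw [e] at rx; exact rx.1, by rw [e] at rx; rw [rx.2]; exact h1.2.2⟩
  rw [← e] at this
  exact not_JF hg hθ hr bx h1.1 rfl (by omega) this hF

end

/-! ### insertion of an inert letter -/

/-- insertion of `z` in front of position `g` -/
def ins (u : List ℕ) (g z : ℕ) : List ℕ := u.take g ++ z :: u.drop g

/-- every run lets `z` fix the state at the gap `g` -/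
def Fix (P : Par) (u : List ℕ) (g z : ℕ) : Prop :=
  ∀ w A c, Good P w A c → ∀ θ : ℕ → ℕ → Option ℕ, (∀ a, IsElt P.K w A c (θ a)) →
    ∀ σ, IsRun θ u σ → θ z (σ g) = some (σ g)

theorem count_ins (u : List ℕ) (g z a : ℕ) :
    (ins u g z).count a = u.count a + if z = a then 1 else 0 := by
  conv_rhs => rw [← List.take_append_drop g u]
  simp only [ins, List.count_append, List.count_cons, beq_iff_eq]
  omega

theorem length_ins (u : List ℕ) (g z : ℕ) : (ins u g z).length = u.length + 1 := by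
  conv_rhs => rw [← List.take_append_drop g u]
  simp only [ins, List.length_append, List.length_cons]
  omega

theorem run_split (θ : ℕ → ℕ → Option ℕ) (u : List ℕ) (g q : ℕ) :
    run θ u q = (run θ (u.take g) q).bind (run θ (u.drop g)) := by
  rw [← run_append, List.take_append_drop]

theorem run_ins (θ : ℕ → ℕ → Option ℕ) (u : List ℕ) (g z q : ℕ) :
    run θ (ins u g z) q = (run θ (u.take g) q).bind fun t => (θ z t).bind (run θ (u.drop g)) := by
  rw [ins, run_append]; rfl

theorem valid_ins {P : Par} {u : List ℕ} {g z : ℕ} (hg : g ≤ u.length) (hz : P.K < u.count z)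
    (h : Fix P u g z) : Valid P u (ins u g z) := by
  intro w A c hG θ hθ q
  cases h1 : run θ u q with
  | some r =>
    obtain ⟨σ, rfl, rfl, hr⟩ := exists_isRun h1
    have h2 := h w A c hG θ hθ σ hr
    rw [run_ins, hr.take hg]
    rw [run_split θ u g, hr.take hg] at h1
    simpa [h2] using h1.symm
  | none =>
    cases h2 : run θ (ins u g z) q with
    | none => rfl
    | some r =>
      exfalso
      obtain ⟨σ, -, -, hr⟩ := exists_isRun h2
      have h3 := inert_pid hG hθ hr (z := z) (by rw [count_ins]; omega)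
      rw [run_ins] at h2
      rw [run_split θ u g] at h1
      obtain ⟨t, a, b⟩ := Option.bind_eq_some_iff.mp h2
      obtain ⟨t', a', b'⟩ := Option.bind_eq_some_iff.mp b
      rw [(h3 _ _ a').1] at b'
      simp [a, b'] at h1

theorem fix_of_valid {P : Par} {u : List ℕ} {g z : ℕ} (hg : g ≤ u.length) (hz : P.K < u.count z)
    (h : Valid P u (ins u g z)) : Fix P u g z := by
  intro w A c hG θ hθ σ hr
  have h1 := hr.run
  rw [h w A c hG θ hθ, run_ins, hr.take hg, Option.bind_some] at h1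
  obtain ⟨t', a', -⟩ := Option.bind_eq_some_iff.mp h1
  have := (inert_pid hG hθ hr hz _ _ a').1
  rw [a', this]

/-- the gap `g` is visibly unlocked -/
def Gap (P : Par) (u : List ℕ) (g : ℕ) : Prop :=
  (0 < g ∧ P.K < u.count (lt u (g - 1))) ∨ (g < u.length ∧ P.K < u.count (lt u g)) ∨
    (0 < g ∧ Node P.K u (g - 1) ∧ Node P.K u g ∧ JF P.K u (lt u (g - 1)) ∧
      ¬ OKs P.B P.R P.T (WPt P.K u fun _ => True) (g - 1))

/-- the occurrence at `p` can be crossed -/
def Pass (P : Par) (u : List ℕ) (p : ℕ) : Prop :=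
  P.K < u.count (lt u p) ∨ (Node P.K u p ∧ JF P.K u (lt u p))

theorem fix_of_gap {P : Par} (hR : 2 ≤ P.R) {u : List ℕ} {g z p₀ : ℕ} (hg : g ≤ u.length)
    (hz : P.K < u.count z) (hp : p₀ < u.length) (hpz : lt u p₀ = z) (h1 : Gap P u g)
    (h2 : ∀ p, p₀ < p → p < g → Pass P u p) : Fix P u g z := by
  intro w A c hG θ hθ σ hr
  have hn : 0 < u.length := by omega
  have hle : σ g ≤ w.length := by
    have a := run_le hθ hr (show u.length - 1 < u.length by omega)
    have b := run_mono hθ hr (show g ≤ u.length - 1 + 1 by omega) (by omega)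
    omega
  have hfree : σ g ∉ A := by
    rcases h1 with ⟨a, b⟩ | ⟨a, b⟩ | ⟨a, b, c, d, e⟩
    · obtain ⟨g', rfl⟩ : ∃ g', g = g' + 1 := ⟨g - 1, by omega⟩
      rw [Nat.add_sub_cancel] at b
      have := inert_pid hG hθ hr b _ _ (hr g' (by omega))
      rw [this.1]; exact this.2.2
    · exact (inert_pid hG hθ hr b _ _ (hr g a)).2.2
    · obtain ⟨g', rfl⟩ : ∃ g', g = g' + 1 := ⟨g - 1, by omega⟩
      rw [Nat.add_sub_cancel] at b d e
      exact unlocked hR hG hθ hr b c d e
  rcases inert_ef hG hθ hr hz with h | h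
  · rw [h]; simp [eMap, hle, hfree]
  · have h3 := hr p₀ hp
    rw [hpz, h] at h3
    have h4 : σ p₀ ≤ c ∧ σ (p₀ + 1) = σ p₀ := by
      unfold fMap at h3
      split_ifs at h3 with h5
      exact ⟨h5.2.2, (Option.some.inj h3).symm⟩
    have h5 : σ g ≤ c := by
      by_cases h6 : g ≤ p₀
      · exact (run_mono hθ hr h6 hp.le).trans h4.1
      · have key : ∀ p, p₀ + 1 ≤ p → p ≤ g → σ p ≤ c := by
          intro p a
          induction a with
          | refl => intro _; omega
          | @step m hm ih =>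
            intro b
            have ih := ih (by omega)
            have hm' : m < u.length := by omega
            rcases h2 m hm (by omega) with d | d
            · have := inert_pid hG hθ hr d _ _ (hr m hm')
              show σ (m + 1) ≤ c
              omega
            · exact passable hG hθ hr d.1 d.2 ih
        exact key g (by omega) le_rfl
    rw [h]; simp [fMap, hle, hfree, h5]

end Pool.Agent.P.MP_e7c2f2_al
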