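import Mathlib

/-! Words, runs of partial maps along words, pattern semigroups and valid identities. -/

namespace Pool.Agent.P.MP_e7c2f2_al

open Finset

/-- the letter at position `p` -/
def lt (u : List ℕ) (p : ℕ) : ℕ := u.getD p 0

/-- the number of occurrences of `a` strictly before position `p` -/
def cb (u : List ℕ) (a p : ℕ) : ℕ := (u.take p).count a

/-- the index of the occurrence at position `p` -/
def idx (u : List ℕ) (p : ℕ) : ℕ := cb u (lt u p) p

theorem lt_eq {u : List ℕ} {p : ℕ} (h : p < u.length) : lt u p = u[p] := by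
  simp [lt, List.getD_eq_getElem?_getD, h]

theorem lt_mem {u : List ℕ} {p : ℕ} (h : p < u.length) : lt u p ∈ u := by
  rw [lt_eq h]; exact List.getElem_mem h

theorem exists_lt_of_mem {u : List ℕ} {a : ℕ} (h : a ∈ u) : ∃ p < u.length, lt u p = a := by
  obtain ⟨p, hp, rfl⟩ := List.getElem_of_mem h
  exact ⟨p, hp, lt_eq hp⟩

theorem take_succ_lt {u : List ℕ} {p : ℕ} (h : p < u.length) :
    u.take (p + 1) = u.take p ++ [lt u p] := by
  rw [lt_eq h, List.take_succ_eq_append_getElem h]

@[simp] theorem cb_zero (u : List ℕ) (a : ℕ) : cb u a 0 = 0 := by simp [cb]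

theorem cb_succ (u : List ℕ) (a p : ℕ) :
    cb u a (p + 1) = cb u a p + if p < u.length ∧ lt u p = a then 1 else 0 := by
  by_cases h : p < u.length
  · simp only [cb, take_succ_lt h, List.count_append, List.count_singleton, h, true_and]
    by_cases h2 : lt u p = a <;> simp [h2]
  · have h1 : u.take (p + 1) = u := List.take_of_length_le (by omega)
    have h2 : u.take p = u := List.take_of_length_le (by omega)
    simp [cb, h1, h2, h]

theorem cb_ge {u : List ℕ} {p : ℕ} (a : ℕ) (h : u.length ≤ p) : cb u a p = u.count a := by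
  simp [cb, List.take_of_length_le h]

theorem cb_mono (u : List ℕ) (a : ℕ) {p q : ℕ} (h : p ≤ q) : cb u a p ≤ cb u a q := by
  induction h with
  | refl => exact le_rfl
  | step _ ih => rw [cb_succ]; omega

theorem cb_le (u : List ℕ) (a p : ℕ) : cb u a p ≤ u.count a := by
  rw [← cb_ge a (le_max_left u.length p)]
  exact cb_mono u a (le_max_right _ _)

theorem cb_lt {u : List ℕ} {p q : ℕ} (h : p < q) (hp : p < u.length) :
    cb u (lt u p) p < cb u (lt u p) q := by
  have h1 := cb_mono u (lt u p) (show p + 1 ≤ q from h)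
  rw [cb_succ] at h1
  simp only [hp, true_and, if_true] at h1
  omega

theorem idx_lt {u : List ℕ} {p : ℕ} (hp : p < u.length) : idx u p < u.count (lt u p) := by
  rw [← cb_ge (lt u p) le_rfl]
  exact cb_lt hp hp

/-- an occurrence is determined by its letter and its index -/
theorem pos_unique {u : List ℕ} {p q : ℕ} (hp : p < u.length) (hq : q < u.length)
    (h1 : lt u p = lt u q) (h2 : idx u p = idx u q) : p = q := by
  rcases lt_trichotomy p q with h | h | h
  · have := cb_lt h hp
    unfold idx at h2; rw [← h1] at h2; omega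
  · exact h
  · have := cb_lt h hq
    unfold idx at h2; rw [h1] at h2; omega

theorem exists_idx {u : List ℕ} {a j : ℕ} (h : j < u.count a) :
    ∃ p < u.length, lt u p = a ∧ idx u p = j := by
  have key : ∀ q, j < cb u a q → ∃ p < u.length, lt u p = a ∧ idx u p = j := by
    intro q
    induction q with
    | zero => simp
    | succ q ih =>
      intro hq
      rw [cb_succ] at hq
      by_cases h1 : j < cb u a q
      · exact ih h1
      · split_ifs at hq with h2
        · exact ⟨q, h2.1, h2.2, by unfold idx; rw [h2.2]; omega⟩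
        · omega
  exact key u.length (by rwa [cb_ge a le_rfl])

theorem cb_card (u : List ℕ) (a p : ℕ) :
    cb u a p = ((range p).filter fun i => i < u.length ∧ lt u i = a).card := by
  induction p with
  | zero => simp
  | succ p ih =>
    rw [cb_succ, range_add_one, filter_insert, ih]
    split_ifs with h
    · rw [card_insert_of_notMem (by simp)]
    · rfl

theorem count_card (u : List ℕ) (a : ℕ) :
    u.count a = ((range u.length).filter fun i => lt u i = a).card := by
  rw [← cb_ge a le_rfl, cb_card]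
  congr 1
  ext i; simp

/-- an order preserving map between occurrences is onto if there are not more targets -/
theorem occ_surj {u w : List ℕ} {x y : ℕ} {g : ℕ → ℕ}
    (hg : ∀ p < u.length, lt u p = x → g p < w.length ∧ lt w (g p) = y)
    (hm : ∀ p p', p < p' → p' < u.length → lt u p = x → lt u p' = x → g p < g p')
    (hc : w.count y ≤ u.count x) :
    ∀ i < w.length, lt w i = y → ∃ p < u.length, lt u p = x ∧ g p = i := by
  classical
  intro i hi hy
  set A := (range u.length).filter fun i => lt u i = x with hA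
  set B := (range w.length).filter fun i => lt w i = y with hB
  have hinj : Set.InjOn g A := by
    intro p hp p' hp' he
    simp only [hA, coe_filter, mem_range, Set.mem_ofPred_eq] at hp hp'
    rcases lt_trichotomy p p' with h | h | h
    · have := hm p p' h hp'.1 hp.2 hp'.2; omega
    · exact h
    · have := hm p' p h hp.1 hp'.2 hp.2; omega
  have hsub : A.image g ⊆ B := by
    intro j hj
    obtain ⟨p, hp, rfl⟩ := mem_image.mp hj
    simp only [hA, mem_filter, mem_range] at hp
    simp only [hB, mem_filter, mem_range]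
    exact hg p hp.1 hp.2
  have heq : A.image g = B := by
    apply eq_of_subset_of_card_le hsub
    rw [card_image_of_injOn hinj, hA, hB, ← count_card, ← count_card]
    exact hc
  have : i ∈ A.image g := by rw [heq]; simp [hB, hi, hy]
  obtain ⟨p, hp, rfl⟩ := mem_image.mp this
  simp only [hA, mem_filter, mem_range] at hp
  exact ⟨p, hp.1, hp.2, rfl⟩

/-- an order isomorphism between occurrences keeps indices and counts -/
theorem occ_bij {u w : List ℕ} {x y : ℕ} {g : ℕ → ℕ}
    (hg : ∀ p < u.length, lt u p = x → g p < w.length ∧ lt w (g p) = y)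
    (hm : ∀ p p', p < p' → p' < u.length → lt u p = x → lt u p' = x → g p < g p')
    (hs : ∀ i < w.length, lt w i = y → ∃ p < u.length, lt u p = x ∧ g p = i) :
    w.count y = u.count x ∧ ∀ p < u.length, lt u p = x → idx w (g p) = idx u p := by
  classical
  have hinj : ∀ p p', p < u.length → p' < u.length → lt u p = x → lt u p' = x → g p = g p' →
      p = p' := by
    intro p p' h1 h2 h3 h4 he
    rcases lt_trichotomy p p' with h | h | h
    · have := hm p p' h h2 h3 h4; omega
    · exact h
    · have := hm p' p h h1 h4 h3; omega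
  constructor
  · rw [count_card, count_card]
    symm
    apply card_bij (fun p _ => g p)
    · intro p hp
      simp only [mem_filter, mem_range] at hp ⊢
      exact hg p hp.1 hp.2
    · intro p hp p' hp' he
      simp only [mem_filter, mem_range] at hp hp'
      exact hinj p p' hp.1 hp'.1 hp.2 hp'.2 he
    · intro i hi
      simp only [mem_filter, mem_range] at hi
      obtain ⟨p, h1, h2, h3⟩ := hs i hi.1 hi.2
      exact ⟨p, by simp [h1, h2], h3⟩
  · intro p hp hx
    unfold idx
    rw [(hg p hp hx).2, hx, cb_card, cb_card]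
    symm
    apply card_bij (fun p _ => g p)
    · intro p' hp'
      simp only [mem_filter, mem_range] at hp' ⊢
      exact ⟨hm p' p hp'.1 hp hp'.2.2 hx, hg p' hp'.2.1 hp'.2.2⟩
    · intro p1 h1 p2 h2 he
      simp only [mem_filter, mem_range] at h1 h2
      exact hinj p1 p2 h1.2.1 h2.2.1 h1.2.2 h2.2.2 he
    · intro i hi
      simp only [mem_filter, mem_range] at hi
      obtain ⟨p', h1, h2, h3⟩ := hs i hi.2.1 hi.2.2
      refine ⟨p', ?_, h3⟩
      simp only [mem_filter, mem_range]
      refine ⟨?_, h1, h2⟩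
      by_contra hle
      rcases (not_lt.mp hle).eq_or_lt with h | h
      · subst h; omega
      · have := hm p p' h h1 hx h2; omega

/-! ### runs -/

/-- the composite of the maps attached to the letters of a word -/
def run (θ : ℕ → ℕ → Option ℕ) : List ℕ → ℕ → Option ℕ
  | [], q => some q
  | a :: u, q => (θ a q).bind (run θ u)

theorem run_append (θ : ℕ → ℕ → Option ℕ) (u v : List ℕ) (q : ℕ) :
    run θ (u ++ v) q = (run θ u q).bind (run θ v) := by
  induction u generalizing q with
  | nil => simp [run]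
  | cons a u ih =>
    simp only [List.cons_append, run]
    cases θ a q with
    | none => rfl
    | some r => simp [ih]

theorem run_single (θ : ℕ → ℕ → Option ℕ) (a q : ℕ) : run θ [a] q = θ a q := by
  simp only [run]
  cases θ a q <;> rfl

theorem run_flatMap (θ : ℕ → ℕ → Option ℕ) (φ : ℕ → List ℕ) (s : List ℕ) (q : ℕ) :
    run θ (s.flatMap φ) q = run (fun a => run θ (φ a)) s q := by
  induction s generalizing q with
  | nil => rfl
  | cons a s ih =>
    rw [List.flatMap_cons, run_append]
    simp only [run]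
    congr 1
    funext r
    exact ih r

/-- `σ` lists the states visited while reading `u` -/
def IsRun (θ : ℕ → ℕ → Option ℕ) (u : List ℕ) (σ : ℕ → ℕ) : Prop :=
  ∀ p < u.length, θ (lt u p) (σ p) = some (σ (p + 1))

theorem IsRun.take {θ u σ} (h : IsRun θ u σ) {p : ℕ} (hp : p ≤ u.length) :
    run θ (u.take p) (σ 0) = some (σ p) := by
  induction p with
  | zero => rfl
  | succ p ih =>
    rw [take_succ_lt hp, run_append, ih (by omega)]
    simp only [Option.bind_some, run_single]
    exact h p hp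

theorem IsRun.run {θ u σ} (h : IsRun θ u σ) : run θ u (σ 0) = some (σ u.length) := by
  have := h.take le_rfl
  rwa [List.take_length] at this

theorem exists_isRun {θ u q r} (h : run θ u q = some r) :
    ∃ σ, σ 0 = q ∧ σ u.length = r ∧ IsRun θ u σ := by
  refine ⟨fun p => (run θ (u.take p) q).getD 0, rfl, by simp [h], fun p hp => ?_⟩
  have h1 : run θ u q = (run θ (u.take (p + 1)) q).bind (run θ (u.drop (p + 1))) := by
    rw [← run_append, List.take_append_drop]
  simp only [take_succ_lt hp, run_append] at h1 ⊢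
  cases h2 : run θ (u.take p) q with
  | none => simp [h2, h] at h1
  | some t =>
    simp only [h2, Option.bind_some, run_single, Option.getD_some] at h1 ⊢
    cases h3 : θ (lt u p) t with
    | none => simp [h3, h] at h1
    | some t' => rfl

/-! ### patterns -/

/-- the identity on the free states -/
def eMap (w A : List ℕ) (q : ℕ) : Option ℕ := if q ≤ w.length ∧ q ∉ A then some q else none

/-- the identity on the free states up to the cut -/
def fMap (w A : List ℕ) (c q : ℕ) : Option ℕ :=
  if q ≤ w.length ∧ q ∉ A ∧ q ≤ c then some q else none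

def Incr (w : List ℕ) (s : ℕ → Option ℕ) : Prop := ∀ q r, s q = some r → q < r ∧ r ≤ w.length

def Small (K : ℕ) (w : List ℕ) (s : ℕ → Option ℕ) : Prop :=
  ((range w.length).filter fun q => (s q).isSome).card < K

def Coh (w : List ℕ) (s : ℕ → Option ℕ) (k : ℕ) : Prop :=
  (∀ q r, s q = some r → r = q + k) ∧
    ∀ q q' d, (s q).isSome → (s q').isSome → d < k → lt w (q + d) = lt w (q' + d)

def Mover (K : ℕ) (w : List ℕ) (s : ℕ → Option ℕ) : Prop :=
  Incr w s ∧ (Small K w s ∨ ∃ k, Coh w s k)

/-- the elements of the semigroup of a pattern -/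
def IsElt (K : ℕ) (w A : List ℕ) (c : ℕ) (s : ℕ → Option ℕ) : Prop :=
  s = eMap w A ∨ s = fMap w A c ∨ Mover K w s

/-- a restriction of the identity to free states -/
def PId (w A : List ℕ) (s : ℕ → Option ℕ) : Prop :=
  ∀ q r, s q = some r → r = q ∧ q ≤ w.length ∧ q ∉ A

theorem pId_e (w A : List ℕ) : PId w A (eMap w A) := by
  intro q r h
  unfold eMap at h
  split_ifs at h with h1
  exact ⟨(Option.some.inj h).symm, h1⟩

theorem pId_f (w A : List ℕ) (c : ℕ) : PId w A (fMap w A c) := by
  intro q r h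
  unfold fMap at h
  split_ifs at h with h1
  exact ⟨(Option.some.inj h).symm, h1.1, h1.2.1⟩

theorem Mover.restrict {K w s s'} (h : Mover K w s) (hs : ∀ q r, s' q = some r → s q = some r) :
    Mover K w s' := by
  have hs' : ∀ q, (s' q).isSome → (s q).isSome := by
    intro q hq
    obtain ⟨r, hr⟩ := Option.isSome_iff_exists.mp hq
    simp [hs q r hr]
  refine ⟨fun q r h1 => h.1 q r (hs q r h1), ?_⟩
  rcases h.2 with h2 | ⟨k, h2⟩
  · left
    refine lt_of_le_of_lt (card_le_card fun q hq => ?_) h2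
    simp only [mem_filter] at hq ⊢
    exact ⟨hq.1, hs' q hq.2⟩
  · exact .inr ⟨k, fun q r h1 => h2.1 q r (hs q r h1),
      fun q q' d a b c => h2.2 q q' d (hs' q a) (hs' q' b) c⟩

theorem Mover.comp {K w s s'} (h : Mover K w s) (h' : Mover K w s') :
    Mover K w fun q => (s q).bind s' := by
  have hd : ∀ q r, (s q).bind s' = some r → ∃ t, s q = some t ∧ s' t = some r := by
    intro q r h1
    exact Option.bind_eq_some_iff.mp h1
  refine ⟨fun q r h1 => ?_, ?_⟩
  · obtain ⟨t, a, b⟩ := hd q r h1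
    have := h.1 q t a
    have := h'.1 t r b
    omega
  rcases h.2 with h2 | ⟨k, h2⟩
  · left
    refine lt_of_le_of_lt (card_le_card fun q hq => ?_) h2
    simp only [mem_filter] at hq ⊢
    obtain ⟨r, hr⟩ := Option.isSome_iff_exists.mp hq.2
    obtain ⟨t, a, -⟩ := hd q r hr
    exact ⟨hq.1, by simp [a]⟩
  rcases h'.2 with h3 | ⟨k', h3⟩
  · left
    refine lt_of_le_of_lt ?_ h3
    apply card_le_card_of_injOn (fun q => q + k)
    · intro q hq
      simp only [coe_filter, mem_range, Set.mem_ofPred_eq] at hq ⊢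
      obtain ⟨r, hr⟩ := Option.isSome_iff_exists.mp hq.2
      obtain ⟨t, a, b⟩ := hd q r hr
      have e := h2.1 q t a
      have := h'.1 t r b
      subst e
      exact ⟨by omega, by simp [b]⟩
    · intro a _ b _ h
      simpa using h
  · refine .inr ⟨k + k', fun q r h1 => ?_, fun q q' d a b c => ?_⟩
    · obtain ⟨t, a, b⟩ := hd q r h1
      have := h2.1 q t a
      have := h3.1 t r b
      omega
    · obtain ⟨r, hr⟩ := Option.isSome_iff_exists.mp a
      obtain ⟨r', hr'⟩ := Option.isSome_iff_exists.mp b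
      obtain ⟨t, a1, b1⟩ := hd q r hr
      obtain ⟨t', a2, b2⟩ := hd q' r' hr'
      by_cases hdk : d < k
      · exact h2.2 q q' d (by simp [a1]) (by simp [a2]) hdk
      · have e1 := h2.1 q t a1
        have e2 := h2.1 q' t' a2
        have := h3.2 t t' (d - k) (by simp [b1]) (by simp [b2]) (by omega)
        rwa [show t + (d - k) = q + d by omega, show t' + (d - k) = q' + d by omega] at this

theorem IsElt.cases {K w A c s} (h : IsElt K w A c s) : PId w A s ∨ Mover K w s := by
  rcases h with rfl | rfl | h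
  · exact .inl (pId_e _ _)
  · exact .inl (pId_f _ _ _)
  · exact .inr h

theorem IsElt.comp {K w A c s s'} (h : IsElt K w A c s) (h' : IsElt K w A c s') :
    IsElt K w A c fun q => (s q).bind s' := by
  have l1 : ∀ {s s'}, PId w A s → Mover K w s' → Mover K w fun q => (s q).bind s' := by
    intro s s' a b
    refine b.restrict fun q r h1 => ?_
    obtain ⟨t, a1, b1⟩ := Option.bind_eq_some_iff.mp h1
    rwa [(a q t a1).1] at b1
  have l2 : ∀ {s s'}, Mover K w s → PId w A s' → Mover K w fun q => (s q).bind s' := by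
    intro s s' a b
    refine a.restrict fun q r h1 => ?_
    obtain ⟨t, a1, b1⟩ := Option.bind_eq_some_iff.mp h1
    rwa [(b t r b1).1]
  rcases h with rfl | rfl | h
  · rcases h' with rfl | rfl | h'
    · left; funext q; unfold eMap; split_ifs with h1 <;> simp [h1]
    · right; left; funext q; unfold eMap fMap
      by_cases h1 : q ≤ w.length ∧ q ∉ A
      · simp [h1]
      · rw [if_neg h1, if_neg (fun h => h1 ⟨h.1, h.2.1⟩)]; rfl
    · exact .inr (.inr (l1 (pId_e _ _) h'))
  · rcases h' with rfl | rfl | h'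
    · right; left; funext q; unfold eMap fMap
      by_cases h1 : q ≤ w.length ∧ q ∉ A ∧ q ≤ c
      · simp [h1]
      · simp only [if_neg h1]; rfl
    · right; left; funext q; unfold fMap
      by_cases h1 : q ≤ w.length ∧ q ∉ A ∧ q ≤ c
      · simp [h1]
      · simp only [if_neg h1]; rfl
    · exact .inr (.inr (l1 (pId_f _ _ _) h'))
  · rcases h'.cases with h' | h'
    · exact .inr (.inr (l2 h h'))
    · exact .inr (.inr (h.comp h'))

theorem isElt_run {K w A c} {θ : ℕ → ℕ → Option ℕ} (h : ∀ a, IsElt K w A c (θ a)) :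
    ∀ u : List ℕ, u ≠ [] → IsElt K w A c (run θ u) := by
  intro u hu
  induction u with
  | nil => exact absurd rfl hu
  | cons a u ih =>
    by_cases h1 : u = []
    · subst h1
      have : run θ [a] = θ a := funext (run_single θ a)
      rw [this]; exact h a
    · exact (h a).comp (ih h1)

/-! ### frames and templates -/

/-- a list of pointer facts and a list of order facts between roles -/
abbrev Tpl := List (ℕ × ℕ × ℕ) × List (ℕ × ℕ)

def Sat (R : ℕ) (Pt : ℕ → ℕ → ℕ → Prop) (t : Tpl) (ρ : ℕ → ℕ) : Prop :=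
  (∀ r < R, Pt 0 (ρ r) (ρ r)) ∧
    (∀ x ∈ t.1, x.2.1 < R → x.2.2 < R → Pt x.1 (ρ x.2.1) (ρ x.2.2)) ∧
      ∀ x ∈ t.2, x.1 < R → x.2 < R → ρ x.1 < ρ x.2

def Star (B R : ℕ) (Pt : ℕ → ℕ → ℕ → Prop) (ρ : ℕ → ℕ) : Prop :=
  ∀ r < R, r = 0 ∨ r = 1 ∨ ∃ b < B, Pt b (ρ 0) (ρ r) ∨ Pt b (ρ r) (ρ 0)

def OK (R : ℕ) (T : List Tpl) (Pt : ℕ → ℕ → ℕ → Prop) (p : ℕ) : Prop :=
  ∃ t ∈ T, ∃ ρ : ℕ → ℕ, ρ 0 = p ∧ ρ 1 = p + 1 ∧ Sat R Pt t ρ

def OKs (B R : ℕ) (T : List Tpl) (Pt : ℕ → ℕ → ℕ → Prop) (p : ℕ) : Prop :=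
  ∃ t ∈ T, ∃ ρ : ℕ → ℕ, ρ 0 = p ∧ ρ 1 = p + 1 ∧ Sat R Pt t ρ ∧ Star B R Pt ρ

/-- every pointer is a partial injection -/
def Frame (Pt : ℕ → ℕ → ℕ → Prop) : Prop :=
  (∀ b x y y', Pt b x y → Pt b x y' → y = y') ∧ ∀ b x x' y, Pt b x y → Pt b x' y → x = x'

/-- stretches of verified positions are bounded -/
def Bdd (R : ℕ) (T : List Tpl) : Prop :=
  ∃ L, ∀ Pt, Frame Pt → ∀ p₀, ∃ p, p₀ ≤ p ∧ p < p₀ + L ∧ ¬ OK R T Pt p

/-- there are finite frames with long stretches of verified positions -/
def Unb (B R : ℕ) (T : List Tpl) : Prop :=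
  ∀ L, ∃ Pt M p₀, Frame Pt ∧ (∀ b x y, Pt b x y → b < B ∧ y ≤ x ∧ x < M) ∧ (∀ x < M, Pt 0 x x) ∧
    ∀ p, p₀ ≤ p → p < p₀ + L → OKs B R T Pt p

theorem OKs.ok {B R T Pt p} (h : OKs B R T Pt p) : OK R T Pt p := by
  obtain ⟨t, ht, ρ, h1, h2, h3, -⟩ := h
  exact ⟨t, ht, ρ, h1, h2, h3⟩

/-- transport of a verification along a map defined on the nodes that play a role -/
theorem OKs.map {B R T Pt Pt' p p'} {t : Tpl} {ρ : ℕ → ℕ} (ht : t ∈ T) (ρ' : ℕ → ℕ)
    (hs : Sat R Pt t ρ) (hst : Star B R Pt ρ) (h0 : ρ' 0 = p') (h1 : ρ' 1 = p' + 1)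
    (hR : 0 < R) (_ : ρ 0 = p)
    (hP : ∀ b r r', r < R → r' < R → Pt b (ρ r) (ρ r') → Pt' b (ρ' r) (ρ' r'))
    (hO : ∀ r r', r < R → r' < R → ρ r < ρ r' → ρ' r < ρ' r') : OKs B R T Pt' p' := by
  refine ⟨t, ht, ρ', h0, h1, ⟨fun r hr => hP 0 r r hr hr (hs.1 r hr),
    fun x hx a b => hP _ _ _ a b (hs.2.1 x hx a b),
    fun x hx a b => hO _ _ a b (hs.2.2 x hx a b)⟩, fun r hr => ?_⟩
  rcases hst r hr with h | h | ⟨b, hb, h | h⟩
  · exact .inl h
  · exact .inr (.inl h)
  · exact .inr (.inr ⟨b, hb, .inl (hP _ _ _ hR hr h)⟩)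
  · exact .inr (.inr ⟨b, hb, .inr (hP _ _ _ hr hR h)⟩)

/-! ### the frame of a word, good patterns, valid identities -/

/-- first occurrence of a letter that occurs exactly `K` times -/
def Node (K : ℕ) (u : List ℕ) (p : ℕ) : Prop :=
  p < u.length ∧ u.count (lt u p) = K ∧ idx u p = 0

def WPt (K : ℕ) (u : List ℕ) (A : ℕ → Prop) (b p p' : ℕ) : Prop :=
  Node K u p ∧ Node K u p' ∧ ∃ i, i + 1 < u.length ∧ lt u i = lt u p ∧ idx u i = 2 * b + 1 ∧
    lt u (i + 1) = lt u p' ∧ idx u (i + 1) = 2 * b + 2 ∧ A (i + 1)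

/-- an occurrence of `y` touches, through a locked state, the boundary or a rare letter -/
def JA (K : ℕ) (w A : List ℕ) (y : ℕ) : Prop :=
  ∃ i < w.length, lt w i = y ∧ ((i ∈ A ∧ (i = 0 ∨ w.count (lt w (i - 1)) < K)) ∨
    (i + 1 ∈ A ∧ (i + 1 = w.length ∨ w.count (lt w (i + 1)) < K)))

/-- all neighbours of occurrences of `x` exist and occur at least `K` times -/
def JF (K : ℕ) (u : List ℕ) (x : ℕ) : Prop :=
  ∀ p < u.length, lt u p = x → (0 < p ∧ K ≤ u.count (lt u (p - 1))) ∧
    (p + 1 < u.length ∧ K ≤ u.count (lt u (p + 1)))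

/-- the parameters of the construction -/
structure Par where
  K : ℕ
  B : ℕ
  R : ℕ
  N : ℕ
  T : List Tpl

def Good (P : Par) (w A : List ℕ) (c : ℕ) : Prop :=
  (w.length + 2 ≤ P.N ∧ (∀ a ∈ w, a < P.N) ∧ A.length ≤ P.N ∧ (∀ a ∈ A, a < P.N) ∧ c < P.N) ∧
  (∀ a ∈ w, w.count a ≤ P.K) ∧
  (∀ q ∈ A, 0 < q → Node P.K w (q - 1) → Node P.K w q →
    JA P.K w A (lt w (q - 1)) ∨ OKs P.B P.R P.T (WPt P.K w (· ∈ A)) (q - 1)) ∧
  (Node P.K w c → JA P.K w A (lt w c))

theorem Good.count_le {P w A c} (h : Good P w A c) (a : ℕ) : w.count a ≤ P.K := by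
  by_cases ha : a ∈ w
  · exact h.2.1 a ha
  · simp [List.count_eq_zero_of_not_mem ha]

/-- the identity holds in the semigroups of all good patterns -/
def Valid (P : Par) (u v : List ℕ) : Prop :=
  ∀ w A c, Good P w A c → ∀ θ : ℕ → ℕ → Option ℕ, (∀ a, IsElt P.K w A c (θ a)) →
    ∀ q, run θ u q = run θ v q

theorem Valid.refl (P : Par) (u : List ℕ) : Valid P u u := fun _ _ _ _ _ _ _ => rfl

theorem Valid.symm {P u v} (h : Valid P u v) : Valid P v u :=
  fun w A c hg θ hθ q => (h w A c hg θ hθ q).symm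

theorem Valid.trans {P u v t} (h : Valid P u v) (h' : Valid P v t) : Valid P u t :=
  fun w A c hg θ hθ q => (h w A c hg θ hθ q).trans (h' w A c hg θ hθ q)

theorem Valid.subst {P u v} (h : Valid P u v) {φ : ℕ → List ℕ} (hφ : ∀ a, φ a ≠ []) :
    Valid P (u.flatMap φ) (v.flatMap φ) := by
  intro w A c hg θ hθ q
  rw [run_flatMap, run_flatMap]
  exact h w A c hg _ (fun a => isElt_run hθ _ (hφ a)) q

theorem Valid.ctx {P u v} (h : Valid P u v) (a b : List ℕ) :
    Valid P (a ++ u ++ b) (a ++ v ++ b) := by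
  intro w A c hg θ hθ q
  simp only [run_append]
  congr 2
  funext r
  exact h w A c hg θ hθ r

theorem frame_WPt (K : ℕ) (u : List ℕ) (A : ℕ → Prop) : Frame (WPt K u A) := by
  constructor
  · rintro b x y y' ⟨-, hy, i, a1, a2, a3, a4, -⟩ ⟨-, hy', i', b1, b2, b3, b4, -⟩
    have : i = i' := pos_unique (by omega) (by omega) (a2.trans b2.symm) (a3.trans b3.symm)
    subst this
    exact pos_unique hy.1 hy'.1 (a4.symm.trans b4) (hy.2.2.trans hy'.2.2.symm)
  · rintro b x x' y ⟨hx, -, i, a1, a2, -, a4, a5, -⟩ ⟨hx', -, i', b1, b2, -, b4, b5, -⟩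
    have : i + 1 = i' + 1 := pos_unique a1 b1 (a4.trans b4.symm) (a5.trans b5.symm)
    have : i = i' := by omega
    subst this
    exact pos_unique hx.1 hx'.1 (a2.symm.trans b2) (hx.2.2.trans hx'.2.2.symm)

end Pool.Agent.P.MP_e7c2f2_al
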