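import Pool.Agent.P.MP_e7c2f2_al.Gen

/-! If verified stretches are bounded, valid identities follow from short valid identities. -/

namespace Pool.Agent.P.MP_e7c2f2_al

/-- derivable from valid identities of length at most `n` -/
def Der (P : Par) (n : ℕ) : List ℕ → List ℕ → Prop := Relation.EqvGen (Step P n)

theorem Der.valid {P n u v} (h : Der P n u v) : Valid P u v := by
  induction h with
  | rel _ _ h => exact h.valid
  | refl => exact Valid.refl _ _
  | symm _ _ _ ih => exact ih.symm
  | trans _ _ _ _ _ ih1 ih2 => exact ih1.trans ih2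

theorem lt_ins {u : List ℕ} {g : ℕ} (hg : g ≤ u.length) (z p : ℕ) :
    lt (ins u g z) p = if p < g then lt u p else if p = g then z else lt u (p - 1) := by
  unfold lt ins
  simp only [List.getD_eq_getElem?_getD]
  have hl : (u.take g).length = g := by simp [hg]
  split_ifs with h1 h2
  · rw [List.getElem?_append_left (by omega), List.getElem?_take_of_lt h1]
  · rw [List.getElem?_append_right (by omega), hl, h2]; simp
  · rw [List.getElem?_append_right (by omega), hl]
    obtain ⟨k, hk⟩ : ∃ k, p - g = k + 1 := ⟨p - g - 1, by omega⟩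
    rw [hk, List.getElem?_cons_succ, List.getElem?_drop]
    congr 2; omega

theorem take_ins {u : List ℕ} {g g₁ : ℕ} (hg : g ≤ u.length) (h : g₁ ≤ g) (z : ℕ) :
    (ins u g z).take g₁ = u.take g₁ := by
  rw [ins, List.take_append_of_le_length (by simp; omega), List.take_take, min_eq_left h]

theorem ins_ins {u : List ℕ} {g g₁ : ℕ} (hg : g ≤ u.length) (h : g₁ ≤ g) (z : ℕ) :
    ins (ins u g₁ z) (g + 1) z = ins (ins u g z) g₁ z := by
  obtain ⟨a, b, c, rfl, rfl, rfl⟩ : ∃ a b c : List ℕ, u = a ++ b ++ c ∧ g₁ = a.length ∧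
      g = a.length + b.length := by
    refine ⟨u.take g₁, (u.drop g₁).take (g - g₁), u.drop g, ?_, by simp; omega, by simp; omega⟩
    rw [← List.take_add, show g₁ + (g - g₁) = g by omega, List.take_append_drop]
  have e1 : ins (a ++ b ++ c) a.length z = (a ++ z :: b) ++ c := by simp [ins]
  have e2 : ins (a ++ b ++ c) (a.length + b.length) z = a ++ (b ++ z :: c) := by
    rw [ins, ← List.length_append, List.take_left, List.drop_left, List.append_assoc]
  rw [e1, e2, show a.length + b.length + 1 = (a ++ z :: b).length by simp; omega, ins, ins,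
    List.take_left, List.drop_left, List.take_left, List.drop_left]
  simp

theorem der_ins {P : Par} (hP : WF P) {L : ℕ}
    (hB : ∀ Pt, Frame Pt → ∀ p₀, ∃ p, p₀ ≤ p ∧ p < p₀ + L ∧ ¬ OK P.R P.T Pt p) {z : ℕ} :
    ∀ (d : ℕ) (u : List ℕ) (g p₀ : ℕ), g ≤ u.length → P.K < u.count z → Fix P u g z →
      p₀ < u.length → lt u p₀ = z → (∀ p < u.length, lt u p = z → p ≤ p₀) → g - p₀ ≤ d →
      Der P (bd P.K (L + 2)) u (ins u g z) := by
  intro d
  induction d with
  | zero =>
    intro u g p₀ hg hz hF hp hpz _ hd
    exact .rel _ _ (step_ins hP hg hz hp hpz (gap_of_fix hP hg hz hF) (fun p a b => by omega)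
      (by omega))
  | succ d ih =>
    intro u g p₀ hg hz hF hp hpz hl hd
    have hpass : ∀ p, p₀ < p → p < g → Pass P u p := fun p a b =>
      pass_of_fix hP hg hz hF b fun p' c e => lt_of_le_of_lt (hl p' c e) a
    by_cases h1 : g ≤ p₀ + (L + 2)
    · exact .rel _ _ (step_ins hP hg hz hp hpz (gap_of_fix hP hg hz hF) hpass h1)
    obtain ⟨g₁, a1, a2, a3⟩ : ∃ g₁, p₀ + 2 ≤ g₁ ∧ g₁ ≤ p₀ + (L + 2) ∧ Gap P u g₁ := by
      by_cases h2 : ∃ p, p₀ < p ∧ p ≤ p₀ + (L + 1) ∧ P.K < u.count (lt u p)
      · obtain ⟨p, a, b, c⟩ := h2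
        exact ⟨p + 1, by omega, by omega, .inl ⟨by omega, c⟩⟩
      · have h3 : ∀ p, p₀ < p → p ≤ p₀ + (L + 1) → Node P.K u p ∧ JF P.K u (lt u p) :=
          fun p a b => (hpass p a (by omega)).resolve_left fun c => h2 ⟨p, a, b, c⟩
        obtain ⟨p, a, b, c⟩ := hB _ (frame_WPt P.K u fun _ => True) (p₀ + 1)
        exact ⟨p + 1, by omega, by omega, .inr (.inr ⟨by omega, (h3 p (by omega) (by omega)).1,
          (h3 (p + 1) (by omega) (by omega)).1, (h3 p (by omega) (by omega)).2,
          fun h => c h.ok⟩)⟩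
    have g1 : g₁ ≤ u.length := by omega
    have s1 : Step P (bd P.K (L + 2)) u (ins u g₁ z) :=
      step_ins hP g1 hz hp hpz a3 (fun p a b => hpass p a (by omega)) a2
    have v0 := valid_ins hg hz hF
    have f1 := fix_of_valid g1 hz s1.valid
    have g2 : g₁ ≤ (ins u g z).length := by rw [length_ins]; omega
    have z2 : P.K < (ins u g z).count z := by rw [count_ins]; omega
    have f2 : Fix P (ins u g z) g₁ z := by
      intro w A c hG θ hθ σ hr
      have h2 := hr.run
      rw [← v0 w A c hG θ hθ] at h2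
      obtain ⟨σ', b1, -, b2⟩ := exists_isRun h2
      have h3 := hr.take g2
      rw [take_ins hg (by omega), ← b1, b2.take g1] at h3
      rw [← Option.some.inj h3]
      exact f1 w A c hG θ hθ σ' b2
    have s2 : Step P (bd P.K (L + 2)) (ins u g z) (ins (ins u g z) g₁ z) :=
      step_ins hP g2 z2 (p₀ := g) (by rw [length_ins]; omega) (by simp [lt_ins hg])
        (gap_of_fix hP g2 z2 f2) (fun p a b => by omega) (by omega)
    rw [← ins_ins hg (by omega)] at s2
    have g3 : g + 1 ≤ (ins u g₁ z).length := by rw [length_ins]; omega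
    have z3 : P.K < (ins u g₁ z).count z := by rw [count_ins]; omega
    have s3 := ih (ins u g₁ z) (g + 1) g₁ g3 z3
      (fix_of_valid g3 z3 (s1.valid.symm.trans (v0.trans s2.valid)))
      (by rw [length_ins]; omega) (by simp [lt_ins g1]) (fun p a b => by
        by_contra hh
        rw [lt_ins g1, if_neg (by omega), if_neg (by omega)] at b
        rw [length_ins] at a
        have := hl (p - 1) (by omega) b
        omega) (by omega)
    exact .trans _ _ _ (.rel _ _ s1) (.trans _ _ _ s3 (.symm _ _ (.rel _ _ s2)))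

theorem der_ins' {P : Par} (hP : WF P) {L : ℕ}
    (hB : ∀ Pt, Frame Pt → ∀ p₀, ∃ p, p₀ ≤ p ∧ p < p₀ + L ∧ ¬ OK P.R P.T Pt p) {z g : ℕ}
    {u : List ℕ} (hg : g ≤ u.length) (hz : P.K < u.count z) (hF : Fix P u g z) :
    Der P (bd P.K (L + 2)) u (ins u g z) := by
  classical
  obtain ⟨p, hp, hpz, -⟩ := exists_idx (show 0 < u.count z by omega)
  obtain ⟨p₀, a, b⟩ := Finset.exists_max_image
    ((Finset.range u.length).filter fun p => lt u p = z) id ⟨p, by simp [hp, hpz]⟩
  simp only [Finset.mem_filter, Finset.mem_range, id, and_imp] at a b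
  exact der_ins hP hB _ u g p₀ hg hz hF a.1 a.2 b le_rfl

/-- the second word arises from the first by inserting letters of `I` -/
inductive InsI (I : ℕ → Prop) : List ℕ → List ℕ → Prop
  | nil : InsI I [] []
  | keep (x) {a b} : InsI I a b → InsI I (x :: a) (x :: b)
  | add (z) {a b} : I z → InsI I a b → InsI I a (z :: b)

theorem InsI.del {I a b w A} {θ : ℕ → ℕ → Option ℕ} (h : InsI I a b)
    (hθ : ∀ z, I z → PId w A (θ z)) : ∀ {q r}, run θ b q = some r → run θ a q = some r := by
  induction h with
  | nil => exact id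
  | keep x _ ih =>
    intro q r h
    obtain ⟨t, h1, h2⟩ := Option.bind_eq_some_iff.mp h
    simp [run, h1, ih h2]
  | add z hz _ ih =>
    intro q r h
    obtain ⟨t, h1, h2⟩ := Option.bind_eq_some_iff.mp h
    rw [(hθ z hz _ _ h1).1] at h2
    exact ih h2

theorem InsI.peel {I a b} (h : InsI I a b) :
    a = b ∨ ∃ g z, g ≤ a.length ∧ I z ∧ InsI I (ins a g z) b := by
  induction h with
  | nil => exact .inl rfl
  | keep x _ ih =>
    rcases ih with rfl | ⟨g, z, h1, h2, h3⟩
    · exact .inl rfl
    · exact .inr ⟨g + 1, z, by simpa using h1, h2, .keep x h3⟩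
  | add z hz h _ => exact .inr ⟨0, z, Nat.zero_le _, hz, .keep z h⟩

theorem InsI.length_le {I a b} (h : InsI I a b) : a.length ≤ b.length := by
  induction h with
  | nil => exact le_rfl
  | keep _ _ ih => simpa using ih
  | add _ _ _ ih => simp; omega

theorem der_insI {P : Par} (hP : WF P) {L : ℕ}
    (hB : ∀ Pt, Frame Pt → ∀ p₀, ∃ p, p₀ ≤ p ∧ p < p₀ + L ∧ ¬ OK P.R P.T Pt p) {I : ℕ → Prop}
    {v : List ℕ} : ∀ (d : ℕ) (u : List ℕ), v.length - u.length ≤ d → InsI I u v → Valid P u v →
      (∀ z, I z → P.K < u.count z) → Der P (bd P.K (L + 2)) u v := by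
  intro d
  induction d with
  | zero =>
    intro u hd h _ _
    rcases h.peel with rfl | ⟨g, z, -, -, h3⟩
    · exact .refl _
    · have := h3.length_le
      rw [length_ins] at this; omega
  | succ d ih =>
    intro u hd h hv hI
    rcases h.peel with rfl | ⟨g, z, h1, h2, h3⟩
    · exact .refl _
    have hF : Fix P u g z := by
      intro w A c hG θ hθ σ hr
      have h4 := hr.run
      rw [hv w A c hG θ hθ] at h4
      have hp := fun z hz => inert_pid hG hθ hr (hI z hz)
      have h5 := h3.del hp h4
      rw [run_ins, hr.take h1, Option.bind_some] at h5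
      obtain ⟨t', a', -⟩ := Option.bind_eq_some_iff.mp h5
      rw [a', (hp z h2 _ _ a').1]
    have s1 := der_ins' hP hB h1 (hI z h2) hF
    refine .trans _ _ _ s1 (ih _ (by rw [length_ins]; omega) h3 (s1.valid.symm.trans hv) ?_)
    intro z' hz'
    have := hI z' hz'
    rw [count_ins]; omega

theorem exists_amalgam {I : ℕ → Prop} [DecidablePred I] : ∀ (d : ℕ) (u v : List ℕ),
    u.length + v.length ≤ d → (u.filter fun a => ¬ I a) = (v.filter fun a => ¬ I a) →
    ∃ t, InsI I u t ∧ InsI I v t ∧ ∀ (w A : List ℕ) (θ : ℕ → ℕ → Option ℕ),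
      (∀ z, I z → PId w A (θ z)) → ∀ q r, run θ u q = some r → run θ v q = some r →
        run θ t q = some r := by
  intro d
  induction d with
  | zero =>
    intro u v hd _
    obtain rfl : u = [] := List.length_eq_zero_iff.mp (by omega)
    obtain rfl : v = [] := List.length_eq_zero_iff.mp (by omega)
    exact ⟨[], .nil, .nil, fun _ _ _ _ _ _ h _ => h⟩
  | succ d ih =>
    intro u v hd h
    by_cases h1 : ∃ z u', u = z :: u' ∧ I z
    · obtain ⟨z, u', rfl, hz⟩ := h1
      obtain ⟨t, a, b, c⟩ := ih u' v (by simp at hd; omega) (by simpa [hz] using h)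
      refine ⟨z :: t, .keep z a, .add z hz b, fun w A θ hθ q r e1 e2 => ?_⟩
      obtain ⟨s, h1, h2⟩ := Option.bind_eq_some_iff.mp e1
      obtain rfl := (hθ z hz _ _ h1).1
      simp [run, h1, c w A θ hθ _ r h2 e2]
    by_cases h2 : ∃ z v', v = z :: v' ∧ I z
    · obtain ⟨z, v', rfl, hz⟩ := h2
      obtain ⟨t, a, b, c⟩ := ih u v' (by simp at hd; omega) (by simpa [hz] using h)
      refine ⟨z :: t, .add z hz a, .keep z b, fun w A θ hθ q r e1 e2 => ?_⟩
      obtain ⟨s, h1, h2⟩ := Option.bind_eq_some_iff.mp e2
      obtain rfl := (hθ z hz _ _ h1).1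
      simp [run, h1, c w A θ hθ _ r e1 h2]
    push Not at h1 h2
    cases u with
    | nil =>
      cases v with
      | nil => exact ⟨[], .nil, .nil, fun _ _ _ _ _ _ h _ => h⟩
      | cons y v => simp [h2 y v rfl] at h
    | cons x u =>
      cases v with
      | nil => simp [h1 x u rfl] at h
      | cons y v =>
        simp only [h1 x u rfl, h2 y v rfl, not_false_eq_true, decide_true, List.filter_cons_of_pos,
          List.cons.injEq] at h
        obtain ⟨rfl, h⟩ := h
        obtain ⟨t, a, b, c⟩ := ih u v (by simp at hd; omega) h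
        refine ⟨x :: t, .keep x a, .keep x b, fun w A θ hθ q r e1 e2 => ?_⟩
        obtain ⟨s, h1, h2⟩ := Option.bind_eq_some_iff.mp e1
        simp only [run, h1, Option.bind_some] at e2 ⊢
        exact c w A θ hθ _ r h2 e2

theorem pair_ext {L : ℕ → Prop} : ∀ (a b : List ℕ), (∀ x ∈ a, L x) → (∀ x ∈ b, L x) →
    (∀ x y, L x → L y → (a.filter fun c => c ∈ [x, y]) = b.filter fun c => c ∈ [x, y]) →
    a = b := by
  intro a
  induction a with
  | nil =>
    intro b _ hb h
    cases b with
    | nil => rfl
    | cons y b => have := h y y (hb y (by simp)) (hb y (by simp)); simp at this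
  | cons x a ih =>
    intro b ha hb h
    cases b with
    | nil => have := h x x (ha x (by simp)) (ha x (by simp)); simp at this
    | cons y b =>
      have e := h x y (ha x (by simp)) (hb y (by simp))
      rw [List.filter_cons_of_pos (by simp), List.filter_cons_of_pos (by simp)] at e
      obtain rfl : x = y := (List.cons.inj e).1
      congr 1
      refine ih b (fun x hx => ha x (by simp [hx])) (fun x hx => hb x (by simp [hx]))
        fun s t hs ht => ?_
      have := h s t hs ht
      simp only [List.filter_cons] at this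
      split_ifs at this
      · exact (List.cons.inj this).2
      · exact this

theorem der_of_valid {P : Par} (hP : WF P) (hB : Bdd P.R P.T) :
    ∃ n, ∀ u v, Valid P u v → Der P n u v := by
  obtain ⟨L, hB⟩ := hB
  refine ⟨bd P.K (L + 2), fun u v h => ?_⟩
  have h1 : (u.filter fun a => ¬ P.K < u.count a) = v.filter fun a => ¬ P.K < u.count a := by
    apply pair_ext (L := fun a => u.count a ≤ P.K)
    · intro x hx; simpa using (List.mem_filter.mp hx).2
    · intro x hx; simpa using (List.mem_filter.mp hx).2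
    · intro x y hx hy
      rw [List.filter_comm, List.filter_comm _ _ v, h.filter_eq hP hx hy]
  obtain ⟨t, a, b, c⟩ := exists_amalgam (I := fun a => P.K < u.count a) _ u v le_rfl h1
  have hI : ∀ z, P.K < u.count z → P.K < t.count z := by
    intro z hz
    refine hz.trans_le ?_
    clear c b h1 hz
    generalize (fun a => P.K < u.count a) = I at a
    clear h
    induction a with
    | nil => exact le_rfl
    | keep x _ ih => simp only [List.count_cons]; omega
    | add x _ _ ih => simp only [List.count_cons]; omega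
  have h2 : Valid P u t := by
    intro w A c' hG θ hθ q
    cases e : run θ u q with
    | some r =>
      obtain ⟨σ, -, -, hr⟩ := exists_isRun e
      exact (c w A θ (fun z hz => inert_pid hG hθ hr hz) q r e (h w A c' hG θ hθ q ▸ e)).symm
    | none =>
      cases e' : run θ t q with
      | none => rfl
      | some r =>
        obtain ⟨σ, -, -, hr⟩ := exists_isRun e'
        rw [a.del (fun z hz => inert_pid hG hθ hr (hI z hz)) e'] at e
        cases e
  exact .trans _ _ _ (der_insI hP hB _ u le_rfl a h2 fun z hz => hz)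
    (.symm _ _ (der_insI hP hB _ v le_rfl b (h.symm.trans h2) fun z hz => h.inert hP hz))

end Pool.Agent.P.MP_e7c2f2_al
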