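import Pool.Agent.P.MP_e7c2f2_al.Tpl

/-! A long verified stretch contains a long run of the machine. -/

namespace Pool.Agent.P.MP_e7c2f2_al

open Function (update)

inductive Reach (tr : List Tr) : ℕ → ℕ → (ℕ → ℕ) → Prop
  | zero : Reach tr 0 0 fun _ => 0
  | succ {k q v q' v'} : Reach tr k q v → MStep tr q v q' v' → Reach tr (k + 1) q' v'

theorem Reach.stops {tr : List Tr} {k q v} (h : Reach tr k q v) :
    ∀ m, Stops (MStep tr) (m + k) 0 (fun _ => 0) → Stops (MStep tr) m q v := by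
  induction h with
  | zero => exact fun _ h => h
  | @succ k _ _ _ _ _ hs ih =>
    intro m hm
    exact ih (m + 1) (by rwa [add_assoc, add_comm 1 k]) _ _ hs

section

variable {Pt : ℕ → ℕ → ℕ → Prop} {C Q : ℕ} {tr : List Tr}

theorem ComF.label (hF : Frame Pt) {q r : ℕ} {ρ : ℕ → ℕ} (h : ComF Pt C Q q ρ) (h2 : ρ 2 < ρ 0)
    (hr : r < Q) (hl : Pt (7 + 2 * C + r) (ρ 0) (ρ 0)) : r = q := by
  by_contra hh
  have := h.2.2.1 r hr
  rw [if_neg hh] at this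
  have := hF.1 _ _ _ _ this hl
  omega

/-- `x` is the top of a left spine that carries a run of `k` steps -/
def Spine (Pt : ℕ → ℕ → ℕ → Prop) (C Q : ℕ) (tr : List Tr) (k x : ℕ) : Prop :=
  ∃ q v, ∃ ns : ℕ → ℕ, q < Q ∧ Reach tr k q v ∧ Pt (7 + 2 * C + q) x x ∧ ns k = x ∧
    (∀ j < k, Pt 3 (ns (j + 1)) (ns j) ∧ ns j < ns (j + 1)) ∧
    ∀ i < C, v i ≤ k ∧ Pt (7 + 2 * i + q % 2) x (ns (k - v i))

theorem spine_step (hF : Frame Pt) (hM : MWF C Q tr) {q q' i₀ k n : ℕ} {ρ : ℕ → ℕ}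
    (hx : (q, q', i₀, k) ∈ tr) (hd : ∀ r < 7 + 2 * C, Pt 0 (ρ r) (ρ r)) (hc : ComF Pt C Q q ρ)
    (hl : LF Pt C q q' i₀ k ρ) (hs : Spine Pt C Q tr n (ρ 0)) : Spine Pt C Q tr (n + 1) (ρ 4) := by
  obtain ⟨q₁, v, ns, a1, a2, a3, a4, a5, a6⟩ := hs
  obtain ⟨⟨-, -, -, l4, -, l6, -⟩, l8, l9, -, l11, ⟨o1, o2, -⟩, l13⟩ := hl
  obtain rfl := hc.label hF o1 a1 a3
  obtain ⟨-, m2, -, m4, m5, -⟩ := hM _ hx
  dsimp only at m2 m4 m5
  set ns' := update ns (n + 1) (ρ 4) with hns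
  have e1 : ∀ j ≤ n, ns' j = ns j := fun j hj => Function.update_of_ne (by omega) _ _
  have e2 : ns' (n + 1) = ρ 4 := Function.update_self _ _ _
  have e3 : ∀ j < n + 1, Pt 3 (ns' (j + 1)) (ns' j) ∧ ns' j < ns' (j + 1) := by
    intro j hj
    by_cases h : j = n
    · rw [h, e2, e1 n le_rfl, a4]; exact ⟨l4, o2⟩
    · rw [e1 j (by omega), e1 (j + 1) (by omega)]; exact a5 j (by omega)
  have ea : ∀ i < C, ρ (6 + 2 * i) = ns' (n - v i) := fun i hi => by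
    rw [e1 _ (by omega)]; exact hF.1 _ _ _ _ (l8 i hi).1 (a6 i hi).2
  have up : ∀ y j, j < n + 1 → Pt 3 y (ns' j) → y = ns' (j + 1) :=
    fun y j hj h => hF.2 _ _ _ _ h (e3 j hj).1
  have mono : ∀ d, 0 < d → d ≤ n → ns' (n - d) < ns' n := by
    intro d
    induction d with
    | zero => omega
    | succ d ih =>
      intro _ h
      have := (e3 (n - (d + 1)) (by omega)).2
      rw [show n - (d + 1) + 1 = n - d by omega] at this
      by_cases h0 : d = 0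
      · simpa [h0] using this
      · exact this.trans (ih (by omega) (by omega))
  have pos : ρ (6 + 2 * i₀) < ρ 0 → 0 < v i₀ := by
    intro h
    by_contra hh
    rw [ea i₀ m4, show v i₀ = 0 by omega, Nat.sub_zero, e1 n le_rfl, a4] at h
    omega
  have same : ∀ i < C, ¬ (i = i₀ ∧ k = 1) → ¬ (i = i₀ ∧ k = 2) →
      v i ≤ n + 1 ∧ Pt (7 + 2 * i + q' % 2) (ρ 4) (ns' (n + 1 - v i)) := by
    intro i hi c1 c2
    have h1 := (l8 i hi).2.2.2 c1 c2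
    have h2 := (a6 i hi).1
    rw [ea i hi] at h1
    refine ⟨by omega, ?_⟩
    rw [show n + 1 - v i = n - v i + 1 by omega, ← up _ _ (by omega) h1]
    exact (l8 i hi).2.1
  have fin : ∀ v', Act i₀ k v v' →
      (∀ i < C, v' i ≤ n + 1 ∧ Pt (7 + 2 * i + q' % 2) (ρ 4) (ns' (n + 1 - v' i))) →
      Spine Pt C Q tr (n + 1) (ρ 4) := fun v' h1 h2 =>
    ⟨q', v', ns', m2, a2.succ ⟨i₀, k, hx, h1⟩, l6, e2, e3, h2⟩
  have : k = 0 ∨ k = 1 ∨ k = 2 ∨ k = 3 ∨ k = 4 := by omega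
  rcases this with rfl | rfl | rfl | rfl | rfl
  · exact fin v (.inl ⟨rfl, rfl⟩) fun i hi => same i hi (by simp) (by simp)
  · refine fin _ (.inr (.inl ⟨rfl, rfl⟩)) fun i hi => ?_
    by_cases h : i = i₀
    · subst h
      have h1 := hF.1 _ _ _ _ ((l8 i hi).2.2.1 ⟨rfl, rfl⟩) (hd _ (by omega))
      have h2 := (a6 i hi).1
      rw [Function.update_self, show n + 1 - (v i + 1) = n - v i by omega, ← ea i hi, h1]
      exact ⟨by omega, (l8 i hi).2.1⟩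
    · rw [Function.update_of_ne h]; exact same i hi (by simp [h]) (by simp)
  · have p0 := pos (l13 (.inl rfl))
    refine fin _ (.inr (.inr (.inl ⟨rfl, p0, rfl⟩))) fun i hi => ?_
    by_cases h : i = i₀
    · subst h
      obtain ⟨h1, h2⟩ := l9 rfl
      have h3 := (a6 i hi).1
      rw [ea i hi] at h2
      rw [up _ _ (by omega) h2] at h1
      rw [Function.update_self, show n + 1 - (v i - 1) = n - v i + 1 + 1 by omega,
        ← up _ _ (by omega) h1]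
      exact ⟨by omega, (l8 i hi).2.1⟩
    · rw [Function.update_of_ne h]; exact same i hi (by simp) (by simp [h])
  · refine fin v (.inr (.inr (.inr (.inl ⟨rfl, ?_, rfl⟩)))) fun i hi =>
      same i hi (by simp) (by simp)
    have h1 := hF.1 _ _ _ _ (l11 rfl) (hd _ (by omega))
    by_contra hh
    have := mono (v i₀) (by omega) (a6 i₀ m4).1
    rw [← ea i₀ m4, e1 n le_rfl, a4] at this
    omega
  · exact fin v (.inr (.inr (.inr (.inr ⟨rfl, pos (l13 (.inr rfl)), rfl⟩)))) fun i hi =>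
      same i hi (by simp) (by simp)

/-- a chain of `N` nodes of level `k` inside the stretch -/
def Lev (Pt : ℕ → ℕ → ℕ → Prop) (C Q : ℕ) (tr : List Tr) (a b k N : ℕ) : Prop :=
  ∃ xs : ℕ → ℕ, ∀ j < N, (a ≤ xs j ∧ xs j < b) ∧ Spine Pt C Q tr k (xs j) ∧
    (j + 1 < N → Pt 2 (xs (j + 1)) (xs j))

theorem lev_zero (hF : Frame Pt) (hM : MWF C Q tr) (hQ : 0 < Q) {a b N : ℕ}
    (hV : ∀ p, a ≤ p → p < b → OK (7 + 2 * C) (tpls C Q tr) Pt p) (hN : a + 2 * N + 1 ≤ b) :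
    Lev Pt C Q tr a b 0 N := by
  have key : ∀ p, a ≤ p → p < b → ∃ ρ : ℕ → ℕ, ρ 0 = p ∧ ρ 1 = p + 1 ∧ ρ 2 < ρ 0 ∧
      ∃ q, ComF Pt C Q q ρ := by
    intro p h1 h2
    obtain ⟨ρ, r0, r1, -, q, -, c, ⟨_, _, _, -, d⟩ | d⟩ := (ok_iff hM hQ).mp (hV p h1 h2)
    · exact ⟨ρ, r0, r1, d.2.2.2.2.2.1.1, q, c⟩
    · exact ⟨ρ, r0, r1, d.2.2, q, c⟩
  have leaf : ∀ p, a ≤ p → p + 1 < b → Pt (7 + 2 * C) p p →
      Spine Pt C Q tr 0 p ∧ Pt 2 (p + 2) p ∧ Pt (7 + 2 * C) (p + 2) (p + 2) := by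
    intro p h1 h2 h3
    obtain ⟨ρ, rfl, r1, o, q, c⟩ := key p h1 (by omega)
    obtain rfl := c.label hF o hQ h3
    obtain ⟨ρ', r0', r1', -, q', c'⟩ := key (ρ 0 + 1) (by omega) h2
    obtain ⟨d1, d2, d3⟩ := c.2.2.2.1 rfl
    have e := c'.1
    rw [r0', r1'] at e
    rw [r1] at d1
    have e' : ρ 3 = ρ 0 + 2 := hF.2 _ _ _ _ d1 e
    exact ⟨⟨0, fun _ => 0, fun _ => ρ 0, hQ, .zero, h3, rfl, by omega,
      fun i hi => ⟨le_rfl, d3 i hi⟩⟩, e' ▸ c.2.1, e' ▸ d2⟩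
  obtain ⟨x, x1, x2, x3⟩ : ∃ x, a ≤ x ∧ x ≤ a + 1 ∧ Pt (7 + 2 * C) x x := by
    obtain ⟨ρ, r0, r1, -, q, hq, c, -⟩ := (ok_iff hM hQ).mp (hV a le_rfl (by omega))
    by_cases h : q = 0
    · have := c.2.2.1 0 hQ
      rw [if_pos h.symm, r0] at this
      exact ⟨a, le_rfl, by omega, this⟩
    · exact ⟨a + 1, by omega, le_rfl, r1 ▸ c.2.2.2.2 h⟩
  have all : ∀ j < N, Pt (7 + 2 * C) (x + 2 * j) (x + 2 * j) := by
    intro j hj
    induction j with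
    | zero => exact x3
    | succ j ih => exact (leaf _ (by omega) (by omega) (ih (by omega))).2.2
  refine ⟨fun j => x + 2 * j, fun j hj => ?_⟩
  have := leaf _ (by omega) (by omega) (all j hj)
  exact ⟨by dsimp only; omega, this.1, fun _ => this.2.1⟩

theorem lev_step (hF : Frame Pt) (hM : MWF C Q tr) (hQ : 0 < Q) {a b k N : ℕ}
    (hV : ∀ p, a ≤ p → p < b → OK (7 + 2 * C) (tpls C Q tr) Pt p)
    (h : Lev Pt C Q tr a b k (2 * N + 1)) : Lev Pt C Q tr a b (k + 1) N := by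
  obtain ⟨xs, hx⟩ := h
  have : ∀ j, ∃ ρ : ℕ → ℕ, j < 2 * N + 1 → ρ 0 = xs j ∧
      (∀ r < 7 + 2 * C, Pt 0 (ρ r) (ρ r)) ∧ ∃ q, ComF Pt C Q q ρ ∧
        ((∃ q' i₀ k, (q, q', i₀, k) ∈ tr ∧ LF Pt C q q' i₀ k ρ) ∨ RF Pt C ρ) := by
    intro j
    by_cases hj : j < 2 * N + 1
    · obtain ⟨ρ, r0, -, d, q, -, c⟩ := (ok_iff hM hQ).mp (hV _ (hx j hj).1.1 (hx j hj).1.2)
      exact ⟨ρ, fun _ => ⟨r0, d, q, c⟩⟩
    · exact ⟨id, fun h => absurd h hj⟩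
  choose ρ hρ using this
  have nx : ∀ j, j + 1 < 2 * N + 1 → ρ j 3 = ρ (j + 1) 0 := by
    intro j hj
    obtain ⟨r0, -, q, c, -⟩ := hρ j (by omega)
    rw [(hρ (j + 1) hj).1]
    exact hF.2 _ _ _ _ (r0 ▸ c.2.1) ((hx j (by omega)).2.2 hj)
  let IsL : ℕ → Prop := fun j => ∃ q q' i₀ k, ComF Pt C Q q (ρ j) ∧ (q, q', i₀, k) ∈ tr ∧
    LF Pt C q q' i₀ k (ρ j)
  have lr : ∀ j < 2 * N + 1, IsL j ∨ RF Pt C (ρ j) := by
    intro j hj
    obtain ⟨-, -, q, c, ⟨q', i₀, k, d⟩ | d⟩ := hρ j hj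
    · exact .inl ⟨q, q', i₀, k, c, d⟩
    · exact .inr d
  have l2r : ∀ j, j + 1 < 2 * N + 1 → IsL j → RF Pt C (ρ (j + 1)) := by
    rintro j hj ⟨_, _, _, _, -, -, d⟩
    refine (lr _ hj).resolve_left ?_
    rintro ⟨_, _, _, _, -, -, d'⟩
    have e := d.1.2.2.1
    rw [nx j hj] at e
    have := hF.1 _ _ _ _ e d'.1.2.1
    have := d'.2.2.2.2.2.1.1
    omega
  have r2l : ∀ j, j + 1 < 2 * N + 1 → RF Pt C (ρ j) → IsL (j + 1) := by
    intro j hj d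
    refine (lr _ hj).resolve_right fun d' => ?_
    have e := d.1.2.2.1
    rw [nx j hj] at e
    have := hF.1 _ _ _ _ e d'.1.2.1
    have := d'.2.2
    omega
  obtain ⟨j₀, h0, h1⟩ : ∃ j₀ ≤ 1, ∀ t < N, IsL (j₀ + 2 * t) := by
    have gen : ∀ j₀ ≤ 1, (0 < N → IsL j₀) → ∀ t < N, IsL (j₀ + 2 * t) := by
      intro j₀ h0 h1 t ht
      induction t with
      | zero => exact h1 ht
      | succ t ih => exact r2l (j₀ + 2 * t + 1) (by omega) (l2r (j₀ + 2 * t) (by omega) (ih (by omega)))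
    rcases lr 0 (by omega) with h | h
    · exact ⟨0, by omega, gen 0 (by omega) fun _ => h⟩
    · exact ⟨1, le_rfl, gen 1 le_rfl fun hN => r2l 0 (by omega) h⟩
  refine ⟨fun t => ρ (j₀ + 2 * t) 4, fun t ht => ?_⟩
  obtain ⟨q, q', i₀, k', c, m, d⟩ := h1 t ht
  have b1 : j₀ + 2 * t + 1 < 2 * N + 1 := by omega
  refine ⟨?_, ?_, fun ht' => ?_⟩
  · have o := d.2.2.2.2.2.1
    have u1 := (hx _ (show j₀ + 2 * t < 2 * N + 1 by omega)).1
    have u2 := (hx _ b1).1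
    rw [nx _ b1, (hρ _ b1).1, (hρ _ (show j₀ + 2 * t < 2 * N + 1 by omega)).1] at o
    dsimp only
    omega
  · refine spine_step hF hM m (hρ _ (by omega)).2.1 c d ?_
    rw [(hρ _ (by omega)).1]
    exact (hx _ (by omega)).2.1
  · obtain ⟨_, _, _, _, -, -, d'⟩ := h1 (t + 1) ht'
    have r := l2r _ b1 (h1 t ht)
    have e1 := d.1.2.2.2.2.1
    rw [nx _ b1] at e1
    have e2 := r.1.2.2.2.2.1
    rw [nx _ (by omega)] at e2
    have e3 := r.1.2.2.2.2.2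
    rw [hF.2 _ _ _ _ e2 d'.1.2.2.2.1, hF.1 _ _ _ _ r.1.2.2.2.1 e1] at e3
    exact e3

end

theorem bdd_of_stops {C Q m : ℕ} {tr : List Tr} (hM : MWF C Q tr) (hQ : 0 < Q)
    (h : Stops (MStep tr) m 0 fun _ => 0) : Bdd (7 + 2 * C) (tpls C Q tr) := by
  refine ⟨2 * 2 ^ (m + 1) + 1, fun Pt hF a => ?_⟩
  by_contra hh
  push Not at hh
  have key : ∀ k ≤ m, Lev Pt C Q tr a (a + (2 * 2 ^ (m + 1) + 1)) k (2 ^ (m + 1 - k) - 1) := by
    intro k hk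
    induction k with
    | zero => exact lev_zero hF hM hQ hh (by simp only [Nat.sub_zero]; omega)
    | succ k ih =>
      refine lev_step hF hM hQ hh ?_
      have h1 := ih (by omega)
      have h2 : 0 < 2 ^ (m + 1 - (k + 1)) := by positivity
      rwa [show m + 1 - k = m + 1 - (k + 1) + 1 by omega, pow_succ 2 (m + 1 - (k + 1)),
        show 2 ^ (m + 1 - (k + 1)) * 2 - 1 = 2 * (2 ^ (m + 1 - (k + 1)) - 1) + 1 by omega] at h1
  obtain ⟨xs, hx⟩ := key m le_rfl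
  obtain ⟨q, v, -, -, hr, -⟩ := (hx 0 (by simp)).2.1
  exact hr.stops 0 (by rwa [zero_add])

end Pool.Agent.P.MP_e7c2f2_al
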