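import Pool.Agent.P.MP_e7c2f2_al.Tpl

/-! An infinite run of the machine gives frames with long verified stretches. -/

namespace Pool.Agent.P.MP_e7c2f2_al

open Function (update)

/-- the `j`-th node of level `l`, shifted by `L` -/
def nd (L l j : ℕ) : ℕ := L + 2 ^ l * (2 * j + 1)

theorem nd_inj {L : ℕ} : ∀ {l l' j j' : ℕ}, nd L l j = nd L l' j' → l = l' ∧ j = j' := by
  intro l
  unfold nd
  induction l with
  | zero =>
    intro l' j j' h
    cases l' with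
    | zero => omega
    | succ l' => rw [pow_succ, mul_right_comm] at h; omega
  | succ l ih =>
    intro l' j j' h
    cases l' with
    | zero => rw [pow_succ, mul_right_comm] at h; omega
    | succ l' =>
      rw [pow_succ, pow_succ, mul_right_comm, mul_right_comm (2 ^ l')] at h
      have := @ih l' j j' (by omega)
      omega

theorem nd_lt {L l j j' : ℕ} (h : j < j') : nd L l j < nd L l j' := by
  unfold nd
  have : 0 < 2 ^ l := by positivity
  nlinarith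

theorem nd_up1 (L l j : ℕ) : nd L l (2 * j) < nd L (l + 1) j := by
  unfold nd
  have : 0 < 2 ^ l := by positivity
  rw [pow_succ]; nlinarith

theorem nd_up2 (L l j : ℕ) : nd L (l + 1) j < nd L l (2 * j + 1) := by
  unfold nd
  have : 0 < 2 ^ l := by positivity
  rw [pow_succ]; nlinarith

theorem nd_down {L l v : ℕ} (j : ℕ) (h : v ≤ l) :
    nd L (l - v) (j * 2 ^ v) ≤ nd L l j ∧ (0 < v → nd L (l - v) (j * 2 ^ v) < nd L l j) := by
  obtain ⟨t, rfl⟩ := Nat.exists_eq_add_of_le' h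
  rw [Nat.add_sub_cancel]
  unfold nd
  have h1 : 0 < 2 ^ t := by positivity
  have h2 : 0 < 2 ^ v := by positivity
  rw [pow_add]
  refine ⟨by nlinarith, fun h0 => ?_⟩
  have h3 : 1 < 2 ^ v := Nat.one_lt_two_pow (by omega)
  nlinarith

theorem nd_pos (L l j : ℕ) : L < nd L l j := by
  unfold nd
  have : 0 < 2 ^ l * (2 * j + 1) := by positivity
  omega

theorem exists_nd {L x : ℕ} (h : L < x) : ∃ l j, x = nd L l j := by
  obtain ⟨l, m, ⟨j, rfl⟩, e⟩ := Nat.exists_eq_two_pow_mul_odd (show x - L ≠ 0 by omega)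
  exact ⟨l, j, by unfold nd; omega⟩

def Lab (C : ℕ) (qs : ℕ → ℕ) (b l j : ℕ) : Prop :=
  (b = 5 ∧ j % 2 = 0) ∨ (b = 6 ∧ j % 2 = 1) ∨ b = 7 + 2 * C + qs l

/-- the frame of a run -/
def MPt (C L : ℕ) (qs : ℕ → ℕ) (vs : ℕ → ℕ → ℕ) (b x y : ℕ) : Prop :=
  if b = 0 then y = x else if b = 1 then x = y + 1
  else if b = 2 then ∃ l j, x = nd L l (j + 1) ∧ y = nd L l j
  else if b = 3 then ∃ l j, x = nd L (l + 1) j ∧ y = nd L l (2 * j)
  else if b = 4 then ∃ l j, x = nd L l (2 * j + 1) ∧ y = nd L (l + 1) j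
  else if 7 ≤ b ∧ b < 7 + 2 * C then ∃ l j, (b - 7) % 2 = l % 2 ∧ x = nd L l j ∧
    y = nd L (l - vs l ((b - 7) / 2)) (j * 2 ^ vs l ((b - 7) / 2))
  else ∃ l j, x = nd L l j ∧ ((Lab C qs b l j ∧ y = x) ∨ (¬ Lab C qs b l j ∧ x ≤ 2 * L ∧ y + L = x))

section

variable {C L : ℕ} {qs : ℕ → ℕ} {vs : ℕ → ℕ → ℕ}

theorem frame_MPt (h1 : ∀ t i, vs t i ≤ t) (h2 : ∀ t i d, vs (t + 2 * d) i ≤ vs t i + d) :
    Frame (MPt C L qs vs) := by
  constructor
  · intro b x y y' h h'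
    unfold MPt at h h'
    split_ifs at h h'
    · omega
    · omega
    · obtain ⟨l, j, rfl, rfl⟩ := h
      obtain ⟨l', j', e, rfl⟩ := h'
      obtain ⟨rfl, e⟩ := nd_inj e
      rw [show j = j' by omega]
    · obtain ⟨l, j, rfl, rfl⟩ := h
      obtain ⟨l', j', e, rfl⟩ := h'
      obtain ⟨e, rfl⟩ := nd_inj e
      rw [show l = l' by omega]
    · obtain ⟨l, j, rfl, rfl⟩ := h
      obtain ⟨l', j', e, rfl⟩ := h'
      obtain ⟨rfl, e⟩ := nd_inj e
      rw [show j = j' by omega]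
    · obtain ⟨l, j, -, rfl, rfl⟩ := h
      obtain ⟨l', j', -, e, rfl⟩ := h'
      obtain ⟨rfl, rfl⟩ := nd_inj e
      rfl
    · obtain ⟨l, j, rfl, h⟩ := h
      obtain ⟨l', j', e, h'⟩ := h'
      obtain ⟨rfl, rfl⟩ := nd_inj e
      rcases h with h | h <;> rcases h' with h' | h'
      · omega
      · exact absurd h.1 h'.1
      · exact absurd h'.1 h.1
      · omega
  · intro b x x' y h h'
    unfold MPt at h h'
    split_ifs at h h'
    · omega
    · omega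
    · obtain ⟨l, j, rfl, rfl⟩ := h
      obtain ⟨l', j', rfl, e⟩ := h'
      obtain ⟨rfl, rfl⟩ := nd_inj e
      rfl
    · obtain ⟨l, j, rfl, rfl⟩ := h
      obtain ⟨l', j', rfl, e⟩ := h'
      obtain ⟨rfl, e⟩ := nd_inj e
      rw [show j = j' by omega]
    · obtain ⟨l, j, rfl, rfl⟩ := h
      obtain ⟨l', j', rfl, e⟩ := h'
      obtain ⟨e, rfl⟩ := nd_inj e
      rw [show l = l' by omega]
    · obtain ⟨l, j, p, rfl, rfl⟩ := h
      obtain ⟨l', j', p', rfl, e⟩ := h'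
      obtain ⟨e1, e2⟩ := nd_inj e
      have key : ∀ l l', l % 2 = l' % 2 → l < l' →
          l - vs l ((b - 7) / 2) ≠ l' - vs l' ((b - 7) / 2) := by
        intro l l' a c
        obtain ⟨d, rfl⟩ : ∃ d, l' = l + 2 * d := ⟨(l' - l) / 2, by omega⟩
        have := h1 l ((b - 7) / 2)
        have := h2 l ((b - 7) / 2) d
        omega
      obtain rfl : l = l' := by
        rcases lt_trichotomy l l' with c | c | c
        · exact absurd e1 (key l l' (by omega) c)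
        · exact c
        · exact absurd e1.symm (key l' l (by omega) c)
      rw [Nat.eq_of_mul_eq_mul_right (by positivity) e2]
    · obtain ⟨l, j, rfl, h⟩ := h
      obtain ⟨l', j', rfl, h'⟩ := h'
      have := nd_pos L l j
      have := nd_pos L l' j'
      omega

theorem dec_MPt (h1 : ∀ t i, vs t i ≤ t) (b x y : ℕ) (h : MPt C L qs vs b x y) : y ≤ x := by
  unfold MPt at h
  split_ifs at h
  · omega
  · omega
  · obtain ⟨l, j, rfl, rfl⟩ := h
    exact (nd_lt (by omega)).le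
  · obtain ⟨l, j, rfl, rfl⟩ := h
    exact (nd_up1 _ _ _).le
  · obtain ⟨l, j, rfl, rfl⟩ := h
    exact (nd_up2 _ _ _).le
  · obtain ⟨l, j, -, rfl, rfl⟩ := h
    exact (nd_down j (h1 _ _)).1
  · obtain ⟨l, j, rfl, h⟩ := h
    omega

theorem mp0 (x : ℕ) : MPt C L qs vs 0 x x := by simp [MPt]

theorem mp1 (x : ℕ) : MPt C L qs vs 1 (x + 1) x := by simp [MPt]

theorem mp2 (l j : ℕ) : MPt C L qs vs 2 (nd L l (j + 1)) (nd L l j) := by
  simp only [MPt]; exact ⟨l, j, rfl, rfl⟩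

theorem mp3 (l j : ℕ) : MPt C L qs vs 3 (nd L (l + 1) j) (nd L l (2 * j)) := by
  simp only [MPt]; exact ⟨l, j, rfl, rfl⟩

theorem mp4 (l j : ℕ) : MPt C L qs vs 4 (nd L l (2 * j + 1)) (nd L (l + 1) j) := by
  simp only [MPt]; exact ⟨l, j, rfl, rfl⟩

theorem mpD {i : ℕ} (hi : i < C) (l j : ℕ) :
    MPt C L qs vs (7 + 2 * i + l % 2) (nd L l j) (nd L (l - vs l i) (j * 2 ^ vs l i)) := by
  unfold MPt
  rw [if_neg (by omega), if_neg (by omega), if_neg (by omega), if_neg (by omega),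
    if_neg (by omega), if_pos (by omega), show (7 + 2 * i + l % 2 - 7) / 2 = i by omega]
  exact ⟨l, j, by omega, rfl, rfl⟩

theorem mpY {b l j : ℕ} (h : Lab C qs b l j) : MPt C L qs vs b (nd L l j) (nd L l j) := by
  have : b = 5 ∨ b = 6 ∨ 7 + 2 * C ≤ b := by unfold Lab at h; omega
  unfold MPt
  rw [if_neg (by omega), if_neg (by omega), if_neg (by omega), if_neg (by omega),
    if_neg (by omega), if_neg (by omega)]
  exact ⟨l, j, rfl, .inl ⟨h, rfl⟩⟩

theorem mpN {b l j : ℕ} (hb : b = 5 ∨ b = 6 ∨ 7 + 2 * C ≤ b) (h : ¬ Lab C qs b l j)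
    (hx : nd L l j ≤ 2 * L) : MPt C L qs vs b (nd L l j) (nd L l j - L) := by
  have := nd_pos L l j
  unfold MPt
  rw [if_neg (by omega), if_neg (by omega), if_neg (by omega), if_neg (by omega),
    if_neg (by omega), if_neg (by omega)]
  exact ⟨l, j, rfl, .inr ⟨h, hx, by omega⟩⟩

theorem exists_roles (C x₀ x₁ x₂ x₃ x₄ x₅ m : ℕ) (a b : ℕ → ℕ) : ∃ ρ : ℕ → ℕ, ρ 0 = x₀ ∧ ρ 1 = x₁ ∧
    ρ 2 = x₂ ∧ ρ 3 = x₃ ∧ ρ 4 = x₄ ∧ ρ 5 = x₅ ∧ ρ (6 + 2 * C) = m ∧
    ∀ i < C, ρ (6 + 2 * i) = a i ∧ ρ (7 + 2 * i) = b i := by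
  refine ⟨fun r => if r < 6 then [x₀, x₁, x₂, x₃, x₄, x₅].getD r 0 else if r = 6 + 2 * C then m
    else if r % 2 = 0 then a ((r - 6) / 2) else b ((r - 6) / 2), rfl, rfl, rfl, rfl, rfl, rfl,
    by simp, fun i hi => ⟨?_, ?_⟩⟩
  · dsimp only
    rw [if_neg (by omega), if_neg (by omega), if_pos (by omega)]
    congr 1; omega
  · dsimp only
    rw [if_neg (by omega), if_neg (by omega), if_neg (by omega)]
    congr 1; omega

theorem comF_MPt {Q l j : ℕ} {ρ : ℕ → ℕ} (q0 : qs 0 = 0) (q1 : ∀ t, qs (t + 1) ≠ 0)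
    (v0 : ∀ i, vs 0 i = 0) (hx : nd L l j ≤ 2 * L) (r0 : ρ 0 = nd L l j)
    (r1 : ρ 1 = nd L l j + 1) (r2 : ρ 2 = nd L l j - L) (r3 : ρ 3 = nd L l (j + 1)) :
    ComF (MPt C L qs vs) C Q (qs l) ρ := by
  refine ⟨by rw [r0, r1]; exact mp1 _, by rw [r0, r3]; exact mp2 _ _, fun r _ => ?_, fun h => ?_,
    fun h => ?_⟩
  · split_ifs with h
    · rw [r0]; exact mpY (.inr (.inr (by rw [h])))
    · rw [r0, r2]; exact mpN (by omega) (by unfold Lab; omega) hx
  · obtain rfl : l = 0 := by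
      cases l with
      | zero => rfl
      | succ l => exact absurd h (q1 l)
    refine ⟨?_, by rw [r3]; exact mpY (.inr (.inr (by omega))), fun i hi => ?_⟩
    · rw [r3, r1, show nd L 0 (j + 1) = nd L 0 j + 1 + 1 by unfold nd; omega]
      exact mp1 _
    · have := mpD (L := L) (qs := qs) (vs := vs) hi 0 j
      rw [r0]
      simpa [v0] using this
  · obtain ⟨l, rfl⟩ : ∃ l', l = l' + 1 := by
      cases l with
      | zero => exact absurd q0 h
      | succ l => exact ⟨l, rfl⟩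
    rw [r1, show nd L (l + 1) j + 1 = nd L 0 (2 ^ l * (2 * j + 1)) by
      unfold nd; rw [pow_succ]; ring]
    exact mpY (.inr (.inr (by omega)))

end

theorem unbC_of_live {C Q : ℕ} {tr : List Tr} (hM : MWF C Q tr) (hQ : 0 < Q)
    (h : Live tr 0 fun _ => 0) : UnbC (7 + 2 * C) (tpls C Q tr) := by
  obtain ⟨G, g0, g1⟩ := h
  choose f1 f2 hf using g1
  let s : ℕ → {x : ℕ × (ℕ → ℕ) // G x.1 x.2} := fun t =>
    Nat.rec ⟨(0, fun _ => 0), g0⟩ (fun _ x => ⟨(f1 _ _ x.2, f2 _ _ x.2), (hf _ _ x.2).2⟩) t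
  obtain ⟨qs, vs, q0, v0, hs⟩ : ∃ (qs : ℕ → ℕ) (vs : ℕ → ℕ → ℕ), qs 0 = 0 ∧ (∀ i, vs 0 i = 0) ∧
      ∀ t, MStep tr (qs t) (vs t) (qs (t + 1)) (vs (t + 1)) :=
    ⟨fun t => (s t).1.1, fun t => (s t).1.2, rfl, fun _ => rfl, fun t => (hf _ _ (s t).2).1⟩
  clear s hf f1 f2 g0
  have par : ∀ t, qs t % 2 = t % 2 := by
    intro t
    induction t with
    | zero => rw [q0]
    | succ t ih =>
      obtain ⟨i, k, hx, -⟩ := hs t
      have := (hM _ hx).2.2.2.2.2.1
      dsimp only at this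
      omega
  have q1 : ∀ t, qs (t + 1) ≠ 0 := fun t => by
    obtain ⟨i, k, hx, -⟩ := hs t
    exact (hM _ hx).2.2.1
  have s1 : ∀ t i, vs (t + 1) i ≤ vs t i + 1 ∧ (t % 2 = 1 → vs (t + 1) i = vs t i) := by
    intro t i
    obtain ⟨i₀, k, hx, hA⟩ := hs t
    have h1 := (hM _ hx).2.2.2.2.2.2
    have h2 := par t
    dsimp only at h1
    rcases hA with ⟨a, e⟩ | ⟨a, e⟩ | ⟨a, -, e⟩ | ⟨a, -, e⟩ | ⟨a, -, e⟩ <;> rw [e]
    · omega
    · rw [Function.update_apply]; split_ifs with h <;> (try subst h) <;> omega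
    · rw [Function.update_apply]; split_ifs with h <;> (try subst h) <;> omega
    · omega
    · omega
  have h1 : ∀ t i, vs t i ≤ t := by
    intro t i
    induction t with
    | zero => rw [v0]
    | succ t ih => have := (s1 t i).1; omega
  have h2 : ∀ t i d, vs (t + 2 * d) i ≤ vs t i + d := by
    intro t i d
    induction d with
    | zero => simp
    | succ d ih =>
      have a := s1 (t + 2 * d) i
      have b := s1 (t + 2 * d + 1) i
      rw [show t + 2 * (d + 1) = t + 2 * d + 1 + 1 by omega]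
      omega
  intro L
  refine ⟨MPt C L qs vs, L + 1, frame_MPt h1 h2, dec_MPt h1, mp0, fun p a b => ?_⟩
  rw [ok_iff hM hQ]
  obtain ⟨l, j, rfl⟩ := exists_nd (show L < p from a)
  have hx : nd L l j ≤ 2 * L := by omega
  have hL : nd L l j - L < nd L l j := by omega
  obtain ⟨i₀, k, ht, hA⟩ := hs l
  obtain ⟨m1, -, -, m4, -⟩ := hM _ ht
  dsimp only at m1 m4
  obtain ⟨j, rfl | rfl⟩ := Nat.even_or_odd' j
  · obtain ⟨ρ, r0, r1, r2, r3, r4, r5, r6, r7⟩ := exists_roles C (nd L l (2 * j))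
      (nd L l (2 * j) + 1) (nd L l (2 * j) - L) (nd L l (2 * j + 1)) (nd L (l + 1) j)
      (nd L l (2 * j))
      (if k = 2 then nd L (l - vs l i₀ + 1) (j * 2 ^ vs l i₀) else nd L l (2 * j))
      (fun i => nd L (l - vs l i) (2 * j * 2 ^ vs l i))
      (fun i => nd L (l + 1 - vs (l + 1) i) (j * 2 ^ vs (l + 1) i))
    refine ⟨ρ, r0, r1, fun _ _ => mp0 _, qs l, m1, comF_MPt q0 q1 v0 hx r0 r1 r2 r3,
      .inl ⟨_, i₀, k, ht, ⟨?_, ?_, ?_, ?_, ?_, ?_, ?_⟩, fun i hi => ⟨?_, ?_, ?_, ?_⟩, ?_, ?_, ?_,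
        ⟨?_, ?_, ?_⟩, ?_⟩⟩
    · rw [r0]; exact mpY (.inl ⟨rfl, by omega⟩)
    · rw [r0, r2]; exact mpN (by omega) (by unfold Lab; omega) hx
    · rw [r3]; exact mpY (.inr (.inl ⟨rfl, by omega⟩))
    · rw [r4, r0]; exact mp3 _ _
    · rw [r3, r4]; exact mp4 _ _
    · rw [r4]; exact mpY (.inr (.inr rfl))
    · rw [r5, r0]; exact mp0 _
    · rw [r0, (r7 i hi).1, par]; exact mpD hi _ _
    · rw [r4, (r7 i hi).2, par]; exact mpD hi _ _
    · rintro ⟨rfl, rfl⟩
      have e : vs (l + 1) i = vs l i + 1 := by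
        have : vs (l + 1) = update (vs l) i (vs l i + 1) := by simpa [Act] using hA
        rw [this, Function.update_self]
      rw [(r7 i hi).1, (r7 i hi).2, e, Nat.add_sub_add_right, pow_succ,
        show j * (2 ^ vs l i * 2) = 2 * j * 2 ^ vs l i by ring]
      exact mp0 _
    · intro c1 c2
      have e : vs (l + 1) i = vs l i := by
        rcases hA with ⟨a, e⟩ | ⟨a, e⟩ | ⟨a, -, e⟩ | ⟨a, -, e⟩ | ⟨a, -, e⟩ <;> rw [e]
        · exact Function.update_of_ne (fun h => c1 ⟨h, a⟩) _ _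
        · exact Function.update_of_ne (fun h => c2 ⟨h, a⟩) _ _
      have := h1 l i
      rw [(r7 i hi).1, (r7 i hi).2, e, show l + 1 - vs l i = l - vs l i + 1 by omega, mul_assoc]
      exact mp3 _ _
    · rintro rfl
      obtain ⟨c, e⟩ : 0 < vs l i₀ ∧ vs (l + 1) = update (vs l) i₀ (vs l i₀ - 1) := by
        simpa [Act] using hA
      have := h1 l i₀
      rw [(r7 i₀ m4).1, (r7 i₀ m4).2, r6, if_pos rfl, e, Function.update_self, mul_assoc]
      refine ⟨?_, mp3 _ _⟩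
      obtain ⟨w, hw⟩ : ∃ w, vs l i₀ = w + 1 := ⟨vs l i₀ - 1, by omega⟩
      rw [hw, Nat.add_sub_cancel, show l + 1 - w = l - (w + 1) + 1 + 1 by omega, pow_succ,
        show j * (2 ^ w * 2) = 2 * (j * 2 ^ w) by ring]
      exact mp3 _ _
    · intro c
      rw [r6, if_neg c, r0]; exact mp0 _
    · rintro rfl
      obtain ⟨c, -⟩ : vs l i₀ = 0 ∧ vs (l + 1) = vs l := by simpa [Act] using hA
      rw [(r7 i₀ m4).1, r0, c]
      simpa using mp0 _
    · rw [r2, r0]; exact hL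
    · rw [r0, r4]; exact nd_up1 _ _ _
    · rw [r4, r3]; exact nd_up2 _ _ _
    · intro c
      rw [(r7 i₀ m4).1, r0]
      refine (nd_down _ (h1 _ _)).2 ?_
      unfold Act at hA
      omega
  · obtain ⟨ρ, r0, r1, r2, r3, r4, r5, r6, r7⟩ := exists_roles C (nd L l (2 * j + 1))
      (nd L l (2 * j + 1) + 1) (nd L l (2 * j + 1) - L) (nd L l (2 * j + 1 + 1)) (nd L (l + 1) j)
      (nd L (l + 1) (j + 1)) (nd L l (2 * j + 1)) (fun _ => nd L l (2 * j + 1))
      (fun _ => nd L l (2 * j + 1))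
    refine ⟨ρ, r0, r1, fun _ _ => mp0 _, qs l, m1, comF_MPt q0 q1 v0 hx r0 r1 r2 r3,
      .inr ⟨⟨?_, ?_, ?_, ?_, ?_, ?_⟩, fun i hi => ?_, ?_⟩⟩
    · rw [r0]; exact mpY (.inr (.inl ⟨rfl, by omega⟩))
    · rw [r0, r2]; exact mpN (by omega) (by unfold Lab; omega) hx
    · rw [r3]; exact mpY (.inl ⟨rfl, by omega⟩)
    · rw [r0, r4]; exact mp4 _ _
    · rw [r5, r3]; exact mp3 _ _
    · rw [r5, r4]; exact mp2 _ _
    · have : ρ (6 + i) = ρ 0 := by
        rw [r0]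
        obtain ⟨i, rfl | rfl⟩ := Nat.even_or_odd' i
        · by_cases c : i = C
          · rw [c, r6]
          · exact (r7 i (by omega)).1
        · rw [show 6 + (2 * i + 1) = 7 + 2 * i by omega]
          exact (r7 i (by omega)).2
      rw [this]; exact mp0 _
    · rw [r2, r0]; exact hL

end Pool.Agent.P.MP_e7c2f2_al
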