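import Pool.Agent.P.MP_e7c2f2_al.Sub

/-! Long verified stretches give valid identities that do not follow from short ones. -/

namespace Pool.Agent.P.MP_e7c2f2_al

theorem lt_append_left {a : List ℕ} (b : List ℕ) {p : ℕ} (h : p < a.length) :
    lt (a ++ b) p = lt a p := by
  simp [lt, List.getD_eq_getElem?_getD, List.getElem?_append_left h]

theorem lt_append_right (a b : List ℕ) (p : ℕ) : lt (a ++ b) (a.length + p) = lt b p := by
  simp [lt, List.getD_eq_getElem?_getD, List.getElem?_append_right]

theorem lt_mid (a : List ℕ) (x : ℕ) (b : List ℕ) : lt (a ++ x :: b) a.length = x :=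
  lt_append_right a (x :: b) 0

theorem idx_mid (a : List ℕ) (x : ℕ) (b : List ℕ) : idx (a ++ x :: b) a.length = a.count x := by
  rw [idx, lt_mid, cb, List.take_left]

theorem before_of_split {a b : ℕ} {l r : List ℕ} (h1 : a ∉ l) (h2 : b ∉ r) :
    Before b a (l ++ r) := by
  intro p hp p' hp' e e'
  rw [List.length_append] at hp hp'
  have c1 : p < l.length := by
    by_contra hh
    obtain ⟨k, rfl⟩ := Nat.exists_eq_add_of_le (not_lt.mp hh)
    rw [lt_append_right] at e
    exact h2 (e ▸ lt_mem (by omega))
  have c2 : l.length ≤ p' := by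
    by_contra hh
    rw [lt_append_left _ (not_le.mp hh)] at e'
    exact h1 (e' ▸ lt_mem (not_le.mp hh))
  omega

theorem Before.not_mem {a b : ℕ} {l r : List ℕ} (h : Before b a (l ++ a :: r)) : b ∉ r := by
  intro hb
  obtain ⟨p, hp, e⟩ := exists_lt_of_mem hb
  have := h (l.length + (p + 1)) (by simp; omega) l.length (by simp)
    (by rw [lt_append_right]; exact e) (lt_mid _ _ _)
  omega

theorem cover (φ : ℕ → List ℕ) : ∀ (s : List ℕ) (i₀ m : ℕ), s.length ≤ m →
    i₀ + m < (s.flatMap φ).length → ∃ s₁ a s₂ i, s = s₁ ++ a :: s₂ ∧ i₀ ≤ i ∧ i < i₀ + m ∧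
      (s₁.flatMap φ).length ≤ i ∧ i + 1 < (s₁.flatMap φ).length + (φ a).length := by
  intro s
  induction s with
  | nil => intro i₀ m _ h; simp at h
  | cons a s ih =>
    intro i₀ m h1 h2
    rw [List.length_cons] at h1
    rw [List.flatMap_cons, List.length_append] at h2
    by_cases c1 : i₀ + 1 < (φ a).length
    · exact ⟨[], a, s, i₀, rfl, le_rfl, by omega, by simp, by simpa using c1⟩
    by_cases c2 : (φ a).length ≤ i₀
    · obtain ⟨s₁, b, s₂, i, rfl, e1, e2, e3, e4⟩ := ih (i₀ - (φ a).length) m (by omega) (by omega)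
      refine ⟨a :: s₁, b, s₂, i + (φ a).length, rfl, by omega, by omega, ?_, ?_⟩ <;>
        rw [List.flatMap_cons, List.length_append] <;> omega
    · obtain ⟨s₁, b, s₂, i, rfl, e1, e2, e3, e4⟩ := ih 0 (m - 1) (by omega) (by omega)
      refine ⟨a :: s₁, b, s₂, i + (φ a).length, rfl, by omega, by omega, ?_, ?_⟩ <;>
        rw [List.flatMap_cons, List.length_append] <;> omega

theorem count_le_flatMap {φ : ℕ → List ℕ} {x b : ℕ} (h : x ∈ φ b) (s : List ℕ) :
    s.count b ≤ (s.flatMap φ).count x := by
  induction s with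
  | nil => simp
  | cons a s ih =>
    rw [List.flatMap_cons, List.count_append, List.count_cons]
    split_ifs with h1
    · obtain rfl : a = b := by simpa using h1
      have := List.count_pos_iff.mpr h
      omega
    · omega

/-- a variable whose image contains two different nodes is rare -/
theorem rare_of_cover {P : Par} (hP : WF P) {u s₁ s₂ α β : List ℕ} {φ : ℕ → List ℕ}
    {a p p' : ℕ} (hφ : ∀ a, φ a ≠ []) (h : Valid P u ((s₁ ++ a :: s₂).flatMap φ))
    (hd : WPt P.K u (fun _ => True) 0 p p) (hn : Node P.K u p')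
    (ha : φ a = α ++ lt u p :: lt u p' :: β) : (s₁ ++ a :: s₂).count a < P.K := by
  by_contra hh
  set Y := [lt u p, lt u p'] with hY
  have hG : Good P (pW u Y) (pA P.K u Y (u.length + 1)) (pW u Y).length :=
    good_proj hP (by simp [hY, hd.1.2.1.le, hn.2.1.le]) (by have := hP.2.1; simp [hY]; omega) le_rfl
      (fun h => by have := h.1; omega) (fun h => absurd h.1 (lt_irrefl _))
  have h1 := (isRun_proj (u := u) (Y := Y) (K := P.K) (g₀ := u.length + 1) (z := 0)
    fun p hp _ _ => rk_le_pW hp.le).run
  have hθ := isElt_pθ P.K (pW u Y) (pA P.K u Y (u.length + 1)) (pW u Y).length Y 0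
  rw [h _ _ _ hG _ hθ, run_flatMap] at h1
  obtain ⟨σ, -, -, hr⟩ := exists_isRun h1
  have hθ' := fun a => isElt_run hθ _ (hφ a)
  have hp : s₁.length < (s₁ ++ a :: s₂).length := by simp
  have h2 := hr _ hp
  rw [lt_mid] at h2
  have h3 := proj_read _ h2
  have m : lt u p ∈ Y := by simp [hY]
  have m' : lt u p' ∈ Y := by simp [hY]
  rw [ha, List.filter_append, List.filter_cons_of_pos (by simpa using m),
    List.filter_cons_of_pos (by simpa using m'), List.map_append, List.map_cons,
    List.append_assoc] at h3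
  have h4 := congrArg List.length h3
  simp only [List.length_drop, List.length_append, List.length_cons, List.map_cons] at h4
  have h5 := run_le hθ' hr hp
  rcases run_step hθ' hr hp with d | d
  · omega
  obtain ⟨k, hb⟩ := exists_blk hG hθ' hr hp d.1 (by rw [lt_mid]; exact not_lt.mp hh)
  have h6 := hb.step _ hp rfl
  obtain ⟨n1, -, i, a1, a2, -, a4, -⟩ := wpt_proj (g₀ := u.length + 1) m m hd
  have h7 : lt (pW u Y) (σ s₁.length + ((α.filter fun a => a ∈ Y).map Y.idxOf).length) =
      lt (pW u Y) (rk (pQ u Y) p) := by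
    rw [lt_pW hd.1.1 m]
    have := lt_mid ((α.filter fun a => a ∈ Y).map Y.idxOf) (Y.idxOf (lt u p))
    rw [← this, ← List.cons_append, ← h3]
    simp [lt, List.getD_eq_getElem?_getD]
  have := blk_one hθ' hr hb hp rfl (by omega) a1 (a2.trans h7.symm) (a4.trans h7.symm)
  omega

/-- the key step: a short identity cannot carry `z` over a long locked stretch -/
theorem no_jump {P : Par} (hP : WF P) {u : List ℕ} {z g L : ℕ}
    (hO : ∀ j < L, OKs P.B P.R P.T (WPt P.K u fun _ => True) (g + j)) (hz : P.K < u.count z)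
    {s t : List ℕ} {φ : ℕ → List ℕ} (hφ : ∀ a, φ a ≠ []) (hst : Valid P s t) (hL : s.length ≤ L)
    (hL0 : 0 < L) (h1 : Valid P u (s.flatMap φ)) (h2 : Before z (lt u (g + L)) (s.flatMap φ)) :
    Before z (lt u (g + L)) (t.flatMap φ) := by
  have hR := hP.2.1
  have hdb : ∀ j ≤ L, WPt P.K u (fun _ => True) 0 (g + j) (g + j) := by
    intro j hj
    by_cases h : j < L
    · obtain ⟨t, -, ρ, r0, -, hs, -⟩ := hO j h
      exact r0 ▸ hs.1 0 (by omega)
    · obtain ⟨t, -, ρ, -, r1, hs, -⟩ := hO (L - 1) (by omega)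
      rw [show g + j = g + (L - 1) + 1 by omega]
      exact r1 ▸ hs.1 1 (by omega)
  have hne : ∀ j ≤ L, lt u (g + j) ≠ z := fun j hj e => by
    have := (hdb j hj).1.2.1
    rw [e] at this; omega
  have stretch : ∀ v, Valid P u v → ∃ f, ∀ j ≤ L,
      f + j < v.length ∧ lt v (f + j) = lt u (g + j) ∧ idx v (f + j) = 0 := by
    intro v hv
    have c0 := (hdb 0 (by omega)).1.2.1
    obtain ⟨f, a⟩ := exists_idx (show 0 < v.count (lt u (g + 0)) by
      rw [hv.count_eq hP c0.le, c0]; have := hP.1; omega)
    refine ⟨f, fun j hj => ?_⟩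
    induction j with
    | zero => exact a
    | succ j ih =>
      obtain ⟨b1, b2, b3⟩ := ih (by omega)
      exact hv.lock hP (hO j (by omega)) b1 b2 b3
  have shift : ∀ v, Valid P u v → ∀ j ≤ L, ∀ j' ≤ L, Before z (lt u (g + j)) v →
      Before z (lt u (g + j')) v := by
    intro v hv j hj j' hj' hb p hp p' hp' e e'
    obtain ⟨f, hf⟩ := stretch v hv
    have b1 := hb p hp (f + j) (hf j hj).1 e (hf j hj).2.1
    have b2 : p < f := by
      by_contra hh
      obtain ⟨k, rfl⟩ := Nat.exists_eq_add_of_le (not_lt.mp hh)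
      exact hne k (by omega) ((hf k (by omega)).2.1.symm.trans e)
    by_contra hh
    have b3 := cb_lt (show p' < f + j' by omega) hp'
    have b4 := (hf j' hj').2.2
    rw [idx, (hf j' hj').2.1, ← e'] at b4
    omega
  obtain ⟨f, hf⟩ := stretch _ h1
  obtain ⟨s₁, a, s₂, i, rfl, e1, e2, e3, e4⟩ := cover φ s f L hL (hf L le_rfl).1
  obtain ⟨j, rfl⟩ := Nat.exists_eq_add_of_le e1
  obtain ⟨k, hk⟩ := Nat.exists_eq_add_of_le e3
  have ha : φ a = (φ a).take k ++ lt u (g + j) :: lt u (g + (j + 1)) :: (φ a).drop (k + 2) := by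
    have b1 := (hf j (by omega)).2.1
    have b2 := (hf (j + 1) (by omega)).2.1
    rw [← add_assoc] at b2
    rw [List.flatMap_append, List.flatMap_cons, hk] at b1 b2
    rw [add_assoc] at b2
    rw [lt_append_right, lt_append_left _ (by omega)] at b1 b2
    rw [← b1, ← b2, lt_eq (by omega), lt_eq (by omega), ← List.drop_eq_getElem_cons,
      ← List.drop_eq_getElem_cons, List.take_append_drop]
  generalize hα : (φ a).take k = α at ha
  generalize (φ a).drop (k + 2) = β at ha
  have hαl : α.length = k := by rw [← hα, List.length_take]; omega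
  have split : ∀ t₁ t₂ : List ℕ, (t₁ ++ a :: t₂).flatMap φ =
      (t₁.flatMap φ ++ α) ++ lt u (g + j) :: (lt u (g + (j + 1)) :: β ++ t₂.flatMap φ) := by
    intro t₁ t₂
    rw [List.flatMap_append, List.flatMap_cons, ha]; simp
  have n1 : lt u (g + j) ∉ s₁.flatMap φ ++ α := by
    have b1 := (hf j (by omega)).2.2
    rw [split, hk, ← hαl, ← List.length_append, idx_mid] at b1
    exact List.count_eq_zero.mp b1
  have n2 : z ∉ lt u (g + (j + 1)) :: β ++ s₂.flatMap φ := by
    have := shift _ h1 L le_rfl j (by omega) h2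
    rw [split] at this
    exact this.not_mem
  have xa : lt u (g + j) ∈ φ a := by rw [ha]; simp
  have n3 : ∀ b, lt u (g + j) ∈ φ b → b ∉ s₁ := fun b hb hs =>
    n1 (List.mem_append_left _ (List.mem_flatMap.mpr ⟨b, hs, hb⟩))
  have n4 : ∀ b, z ∈ φ b → b ∉ s₂ := fun b hb hs =>
    n2 (List.mem_append_right _ (List.mem_flatMap.mpr ⟨b, hs, hb⟩))
  have rare := rare_of_cover hP hφ h1 (hdb j (by omega)) (hdb (j + 1) (by omega)).1 ha
  have ct := hst.count_eq hP rare.le
  obtain ⟨t₁, t₂, rfl, n5⟩ := List.eq_append_cons_of_mem (show a ∈ t by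
    rw [← List.count_pos_iff, ct, List.count_pos_iff]; simp)
  refine shift _ (h1.trans (hst.subst hφ)) j (by omega) L le_rfl ?_
  rw [split]
  apply before_of_split
  · rw [List.mem_append, not_or]
    refine ⟨fun hm => ?_, fun hm => n1 (List.mem_append_right _ hm)⟩
    obtain ⟨b, hb, hx⟩ := List.mem_flatMap.mp hm
    have c1 := count_le_flatMap hx (s₁ ++ a :: s₂)
    have c2 := (hdb j (by omega)).1.2.1
    rw [h1.count_eq hP c2.le, c2] at c1
    have c3 := hst.filter_eq hP rare.le c1
    have c4 : (s₁.filter fun c => c ∈ [a, b]) = [] := by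
      rw [List.filter_eq_nil_iff]
      intro c hc
      have := n3 a xa
      have := n3 b hx
      simp only [List.mem_cons, List.not_mem_nil, or_false, decide_eq_true_eq]
      rintro (rfl | rfl) <;> contradiction
    rw [List.filter_append, List.filter_append, c4, List.nil_append,
      List.filter_cons_of_pos (by simp)] at c3
    cases c5 : (t₁.filter fun c => c ∈ [a, b]) with
    | nil => exact List.filter_eq_nil_iff.mp c5 b hb (by simp)
    | cons c r =>
      rw [c5] at c3
      have c6 : c ∈ t₁.filter fun c => c ∈ [a, b] := by rw [c5]; simp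
      rw [← (List.cons.inj c3).1] at c6
      exact n5 (List.mem_filter.mp c6).1
  · intro hm
    rcases List.mem_cons.mp hm with hm | hm
    · exact hne j (by omega) hm.symm
    rcases List.mem_append.mp hm with hm | hm
    · exact n2 (List.mem_append_left _ hm)
    obtain ⟨b, hb, hx⟩ := List.mem_flatMap.mp hm
    by_cases hab : b = a
    · subst hab
      have c1 := List.count_pos_iff.mpr hb
      simp only [List.count_append, List.count_cons_self, List.count_eq_zero.mpr (n3 b xa),
        List.count_eq_zero.mpr (n4 b hx)] at ct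
      omega
    · have c1 : Before b a (s₁ ++ a :: s₂) := before_of_split (n3 a xa) (by simp [hab, n4 b hx])
      exact (hst.before hP rare hab c1).not_mem hb

theorem add_ctx (s t p q : List ℕ) {φ : ℕ → List ℕ} (hφ : ∀ a, φ a ≠ []) :
    ∃ (a b : List ℕ) (φ' : ℕ → List ℕ), (∀ x, φ' x ≠ []) ∧ a.length ≤ 1 ∧ b.length ≤ 1 ∧
      (a ++ s ++ b).flatMap φ' = p ++ s.flatMap φ ++ q ∧
      (a ++ t ++ b).flatMap φ' = p ++ t.flatMap φ ++ q := by
  set f := (s ++ t).sum + 1 with hf
  have h1 : ∀ x ∈ s ++ t, x < f := fun x hx =>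
    Nat.lt_succ_of_le (List.single_le_sum (by simp) x hx)
  let φ' : ℕ → List ℕ := fun x =>
    if x = f ∧ p ≠ [] then p else if x = f + 1 ∧ q ≠ [] then q else φ x
  have h2 : ∀ r : List ℕ, (∀ x ∈ r, x < f) → r.flatMap φ' = r.flatMap φ := by
    intro r hr
    refine List.flatMap_congr fun x hx => ?_
    have := hr x hx
    simp only [φ']
    rw [if_neg (by omega), if_neg (by omega)]
  have h3 : (if p = [] then [] else [f]).flatMap φ' = p := by
    split_ifs with h <;> simp [φ', h]
  have h4 : (if q = [] then [] else [f + 1]).flatMap φ' = q := by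
    split_ifs with h <;> simp [φ', h]
  refine ⟨if p = [] then [] else [f], if q = [] then [] else [f + 1], φ', fun x => ?_,
    by split_ifs <;> simp, by split_ifs <;> simp, ?_, ?_⟩
  · simp only [φ']
    split_ifs with a b
    · exact a.2
    · exact b.2
    · exact hφ x
  · rw [List.flatMap_append, List.flatMap_append, h3, h4, h2 s fun x hx => h1 x (by simp [hx])]
  · rw [List.flatMap_append, List.flatMap_append, h3, h4, h2 t fun x hx => h1 x (by simp [hx])]

/-! ### the word of a finite frame -/

section

variable (Pt : ℕ → ℕ → ℕ → Prop) (M : ℕ)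

open Classical in
noncomputable def chunk (b x : ℕ) : List ℕ :=
  x :: ((if h : ∃ y, Pt b x y then [h.choose] else []) ++ (M + 1) ::
    if ∃ x', Pt b x' x then [] else [x, M + 1])

noncomputable def block (b : ℕ) : List ℕ := (List.range M).flatMap (chunk Pt M b)

noncomputable def word (K B : ℕ) : List ℕ :=
  List.replicate (K + 1) M ++ (List.range M ++ (List.replicate (K + 1) (M + 1) ++
    ((List.range B).flatMap (block Pt M) ++ [M + 1])))

variable {Pt M}

open Classical in
theorem count_chunks (hF : Frame Pt) {b a : ℕ} (ha : a < M) (n : ℕ) :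
    ((List.range n).flatMap (chunk Pt M b)).count a =
      (if a < n then (if ∃ x', Pt b x' a then 1 else 2) else 0) +
        if ∃ x < n, Pt b x a then 1 else 0 := by
  induction n with
  | zero => simp
  | succ n ih =>
    rw [List.range_succ, List.flatMap_append, List.count_append, ih, List.flatMap_singleton]
    have h1 : (chunk Pt M b n).count a =
        (if a = n then (if ∃ x', Pt b x' a then 1 else 2) else 0) + if Pt b n a then 1 else 0 := by
      have e1 : (if h : ∃ y, Pt b n y then [h.choose] else []).count a =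
          if Pt b n a then 1 else 0 := by
        by_cases h : ∃ y, Pt b n y
        · rw [dif_pos h]
          by_cases h' : Pt b n a
          · rw [if_pos h', hF.1 _ _ _ _ h.choose_spec h']; simp
          · rw [if_neg h', List.count_eq_zero]
            simp only [List.mem_singleton]
            rintro rfl
            exact h' h.choose_spec
        · rw [dif_neg h, if_neg fun h' => h ⟨a, h'⟩]; rfl
      have e2 : M + 1 ≠ a := by omega
      rw [chunk, List.count_cons, List.count_append, e1, List.count_cons_of_ne e2]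
      by_cases h : a = n
      · subst h
        split_ifs <;> simp_all
      · have h' : n ≠ a := fun e => h e.symm
        split_ifs <;> simp_all
    rw [h1]
    have h2 : (∃ x < n + 1, Pt b x a) ↔ (∃ x < n, Pt b x a) ∨ Pt b n a := by
      constructor
      · rintro ⟨x, c, d⟩
        rcases Nat.lt_succ_iff_lt_or_eq.mp c with c | rfl
        · exact .inl ⟨x, c, d⟩
        · exact .inr d
      · rintro (⟨x, c, d⟩ | d)
        · exact ⟨x, by omega, d⟩
        · exact ⟨n, by omega, d⟩
    have h3 : ¬ ((∃ x < n, Pt b x a) ∧ Pt b n a) := by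
      rintro ⟨⟨x, c, d⟩, e⟩
      have := hF.2 _ _ _ _ d e
      omega
    simp only [h2]
    generalize (if ∃ x', Pt b x' a then 1 else 2) = k
    by_cases hA : ∃ x < n, Pt b x a <;> by_cases hC : Pt b n a
    · exact absurd ⟨hA, hC⟩ h3
    all_goals
      simp only [hA, hC, true_or, or_true, or_self, if_true, if_false]
      split_ifs <;> omega

theorem count_blocks (hF : Frame Pt) (hM : ∀ b x y, Pt b x y → x < M) {a : ℕ} (ha : a < M)
    (n : ℕ) : ((List.range n).flatMap (block Pt M)).count a = 2 * n := by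
  induction n with
  | zero => simp
  | succ n ih =>
    rw [List.range_succ, List.flatMap_append, List.count_append, ih, List.flatMap_singleton, block,
      count_chunks hF ha, if_pos ha]
    by_cases h : ∃ x', Pt n x' a
    · obtain ⟨x, hx⟩ := h
      rw [if_pos ⟨x, hx⟩, if_pos ⟨x, hM _ _ _ hx, hx⟩]; omega
    · rw [if_neg h, if_neg fun ⟨x, _, hx⟩ => h ⟨x, hx⟩]; omega

theorem mem_blocks (hM : ∀ b x y, Pt b x y → y ≤ x) {a n : ℕ}
    (h : a ∈ (List.range n).flatMap (block Pt M)) : a < M ∨ a = M + 1 := by
  obtain ⟨b, -, h⟩ := List.mem_flatMap.mp h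
  obtain ⟨x, hx, h⟩ := List.mem_flatMap.mp h
  have hx := List.mem_range.mp hx
  simp only [chunk, List.mem_cons, List.mem_append] at h
  rcases h with rfl | h | h | h
  · exact .inl hx
  · split_ifs at h with h1
    · have := hM _ _ _ h1.choose_spec
      rw [List.mem_singleton.mp h]; omega
    · simp at h
  · exact .inr h
  · split_ifs at h
    · simp at h
    · simp only [List.mem_cons, List.not_mem_nil, or_false] at h; omega

theorem range_split {x n : ℕ} (h : x < n) : ∃ r, List.range n = List.range x ++ x :: r := by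
  obtain ⟨k, rfl⟩ := Nat.exists_eq_add_of_lt h
  refine ⟨(List.range k).map fun i => x + 1 + i, ?_⟩
  rw [show x + k + 1 = (x + 1) + k by omega, List.range_add, List.range_succ]; simp

end

theorem exists_word {P : Par} (hP : WF P) (hK : P.K = 2 * P.B + 1) (hU : Unb P.B P.R P.T)
    (L : ℕ) : ∃ u v z g, Valid P u v ∧ P.K < u.count z ∧ P.K < v.count z ∧
      (∀ j < L + 1, OKs P.B P.R P.T (WPt P.K u fun _ => True) (g + j)) ∧
      Before z (lt u (g + (L + 1))) u ∧ ¬ Before z (lt u (g + (L + 1))) v := by
  obtain ⟨Pt, M, p₀, hF, hM, -, hO⟩ := hU (L + 1)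
  have hR := hP.2.1
  set u := word Pt M P.K P.B with hu
  have c1 : ∀ a < M, u.count a = P.K := by
    intro a ha
    have e1 : M ≠ a := by omega
    have e2 : M + 1 ≠ a := by omega
    simp only [hu, word, List.count_append, count_blocks hF (fun b x y h => (hM b x y h).2.2) ha,
      List.count_replicate, beq_iff_eq, e1, e2, if_false, List.count_singleton,
      List.count_range, ha, if_true]
    omega
  have c2 : P.K < u.count M := by simp [hu, word, List.count_append]; omega
  have c3 : P.K < u.count (M + 1) := by simp [hu, word, List.count_append]; omega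
  have c4 : ∀ p < u.length, P.K ≤ u.count (lt u p) := by
    intro p hp
    have h := lt_mem hp
    generalize lt u p = a at h ⊢
    have : a < M ∨ a = M ∨ a = M + 1 := by
      simp only [hu, word, List.mem_append, List.mem_replicate, List.mem_range,
        List.mem_singleton] at h
      rcases h with h | h | h | h | h
      · omega
      · omega
      · omega
      · have := mem_blocks (fun b x y h => (hM b x y h).2.1) h; omega
      · omega
    rcases this with h | rfl | rfl
    · exact (c1 a h).ge
    · exact c2.le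
    · exact c3.le
  have l0 : ∀ p ≤ P.K, lt u p = M := by
    intro p hp
    rw [hu, word, lt_append_left _ (by simp; omega), lt_eq (by simp; omega)]; simp
  have hlen : P.K + 1 + M + P.K + 1 < u.length := by simp [hu, word]; omega
  have jf : ∀ a < M, JF P.K u a := by
    intro a ha p hp e
    have e1 : 0 < p := by
      by_contra hh
      rw [l0 p (by omega)] at e; omega
    have e2 : p + 1 < u.length := by
      by_contra hh
      obtain ⟨r, hr⟩ : ∃ r, u = r ++ [M + 1] := ⟨_, by rw [hu, word]; simp only [← List.append_assoc]; rfl⟩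
      have : p = r.length := by rw [hr] at hp hh; simp at hp hh; omega
      rw [this, hr, lt_mid] at e; omega
    exact ⟨⟨e1, c4 _ (by omega)⟩, e2, c4 _ e2⟩
  have nd : ∀ a < M, lt u (P.K + 1 + a) = a ∧ Node P.K u (P.K + 1 + a) := by
    intro a ha
    obtain ⟨r, hr⟩ := range_split ha
    obtain ⟨r', hr'⟩ : ∃ r', u = (List.replicate (P.K + 1) M ++ List.range a) ++ a :: r' :=
      ⟨_, by rw [hu, word, hr]; simp only [List.append_assoc, List.cons_append]; rfl⟩
    have e : P.K + 1 + a = (List.replicate (P.K + 1) M ++ List.range a).length := by simp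
    have e1 : lt u (P.K + 1 + a) = a := by rw [e, hr', lt_mid]
    refine ⟨e1, by omega, by rw [e1, c1 a ha], ?_⟩
    rw [e, hr', idx_mid, List.count_eq_zero]
    simp; omega
  have wp : ∀ b x y, Pt b x y → WPt P.K u (fun _ => True) b (P.K + 1 + x) (P.K + 1 + y) := by
    intro b x y h
    obtain ⟨m1, m2, m3⟩ := hM b x y h
    obtain ⟨r, hr⟩ := range_split m1
    obtain ⟨r', hr'⟩ := range_split m3
    have e0 : ∃ r, chunk Pt M b x = x :: y :: r := by
      unfold chunk
      rw [dif_pos ⟨y, h⟩, hF.1 _ _ _ _ (Exists.choose_spec ⟨y, h⟩) h]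
      exact ⟨_, rfl⟩
    obtain ⟨r₀, e0⟩ := e0
    set l := List.replicate (P.K + 1) M ++ (List.range M ++ (List.replicate (P.K + 1) (M + 1) ++
      ((List.range b).flatMap (block Pt M) ++ (List.range x).flatMap (chunk Pt M b)))) with hl
    obtain ⟨r₁, e1⟩ : ∃ r₁, u = l ++ x :: y :: r₁ := by
      have e2 : block Pt M b = (List.range x).flatMap (chunk Pt M b) ++
          (x :: y :: r₀ ++ r'.flatMap (chunk Pt M b)) := by
        rw [block, hr', List.flatMap_append, List.flatMap_cons, e0]
      exact ⟨_, by
        rw [hu, word, hr, List.flatMap_append, List.flatMap_cons, e2, hl]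
        simp only [List.append_assoc, List.cons_append]
        rfl⟩
    have cl : ∀ a < M, l.count a = 1 + 2 * b + ((List.range x).flatMap (chunk Pt M b)).count a := by
      intro a ha
      have e1 : M ≠ a := by omega
      have e2 : M + 1 ≠ a := by omega
      simp only [hl, List.count_append, count_blocks hF (fun b x y h => (hM b x y h).2.2) ha,
        List.count_replicate, beq_iff_eq, e1, e2, if_false, List.count_range, ha, if_true]
      omega
    have e3 : u = (l ++ [x]) ++ y :: r₁ := by rw [e1]; simp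
    have e4 : l.length + 1 = (l ++ [x]).length := by simp
    have nx : ¬ ∃ x' < x, Pt b x' x := fun ⟨x', a, b⟩ => by have := (hM _ _ _ b).2.1; omega
    have ny : ¬ ∃ x' < x, Pt b x' y := fun ⟨x', a, b⟩ => by have := hF.2 _ _ _ _ b h; omega
    refine ⟨(nd x m3).2, (nd y (by omega)).2, l.length, by rw [e1]; simp, ?_, ?_, ?_, ?_, trivial⟩
    · rw [(nd x m3).1, e1, lt_mid]
    · rw [e1, idx_mid, cl x m3, count_chunks hF m3, if_neg (lt_irrefl _), if_neg nx]; omega
    · rw [(nd y (by omega)).1, e4, e3, lt_mid]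
    · rw [e4, e3, idx_mid, List.count_append, cl y (by omega), count_chunks hF (by omega),
        if_neg ny, if_pos (show ∃ x', Pt b x' y from ⟨x, h⟩), List.count_singleton]
      by_cases hxy : x = y
      · simp [hxy]; omega
      · rw [if_pos (by omega), if_neg (by simpa using hxy)]; omega
  have hend : p₀ + (L + 1) < M := by
    obtain ⟨t, -, ρ, -, r1, hs, -⟩ := hO (p₀ + L) (by omega) (by omega)
    have := (hM _ _ _ (hs.1 1 (by omega))).2.2
    omega
  have g1 : P.K + 1 + M ≤ u.length := by omega
  have e5 : lt u (P.K + 1 + p₀ + (L + 1)) = p₀ + (L + 1) := by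
    rw [add_assoc _ p₀]; exact (nd _ hend).1
  refine ⟨u, ins u (P.K + 1 + M) M, M, P.K + 1 + p₀, ?_, c2, by rw [count_ins]; omega, ?_, ?_, ?_⟩
  · refine valid_ins g1 c2 (fix_of_gap (by omega) g1 c2 (p₀ := P.K) (by omega) (l0 _ le_rfl)
      (.inr (.inl ⟨by omega, ?_⟩)) fun p a b => ?_)
    · have : lt u (P.K + 1 + M) = M + 1 := by
        have e : P.K + 1 + M = (List.replicate (P.K + 1) M ++ List.range M).length := by simp
        rw [e, hu, word, ← List.append_assoc, List.replicate_succ (n := P.K) (a := M + 1),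
          List.cons_append, lt_mid]
      rwa [this]
    · obtain ⟨k, rfl⟩ : ∃ k, p = P.K + 1 + k := ⟨p - (P.K + 1), by omega⟩
      exact .inr ⟨(nd k (by omega)).2, by rw [(nd k (by omega)).1]; exact jf k (by omega)⟩
  · intro j hj
    obtain ⟨t, ht, ρ, r0, r1, hs, hst⟩ := hO (p₀ + j) (by omega) (by omega)
    exact OKs.map ht (fun r => P.K + 1 + ρ r) hs hst (by simp only [r0]; omega)
      (by simp only [r1]; omega) (by omega) r0 (fun b r r' _ _ h => wp _ _ _ h)
      (fun r r' _ _ h => by omega)
  · rw [e5, hu, word]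
    apply before_of_split
    · simp; omega
    · simp only [List.mem_append, List.mem_range, List.mem_replicate, List.mem_singleton]
      rintro (h | h | h | h)
      · omega
      · omega
      · have := mem_blocks (fun b x y h => (hM b x y h).2.1) h; omega
      · omega
  · intro h
    have e6 : (u.take (P.K + 1 + M)).length = P.K + 1 + M := by simp [g1]
    have := h (P.K + 1 + M) (by rw [length_ins]; omega) (P.K + 1 + p₀ + (L + 1))
      (by rw [length_ins]; omega) (by have := lt_mid (u.take (P.K + 1 + M)) M (u.drop (P.K + 1 + M)); rwa [e6] at this)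
      (by
        rw [ins, lt_append_left _ (by omega)]
        conv_rhs => rw [← List.take_append_drop (P.K + 1 + M) u, lt_append_left _ (by omega)])
    omega

theorem not_derivable {P : Par} (hP : WF P) (hK : P.K = 2 * P.B + 1) (hU : Unb P.B P.R P.T)
    (n : ℕ) : ∃ u v : List ℕ, Valid P u v ∧ u ≠ [] ∧ v ≠ [] ∧ ∃ Inv : List ℕ → Prop, Inv u ∧ ¬ Inv v ∧
      ∀ (s t p q : List ℕ) (φ : ℕ → List ℕ), Valid P s t → s.length ≤ n → (∀ a, φ a ≠ []) →
        Inv (p ++ s.flatMap φ ++ q) → Inv (p ++ t.flatMap φ ++ q) := by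
  obtain ⟨u, v, z, g, h1, h2, h3, h4, h5, h6⟩ := exists_word hP hK hU (n + 1)
  refine ⟨u, v, h1, by rintro rfl; simp at h2, by rintro rfl; simp at h3,
    fun w => Valid P u w ∧ Before z (lt u (g + (n + 1 + 1))) w, ⟨Valid.refl _ _, h5⟩,
    fun h => h6 h.2, fun s t p q φ hst hn hφ h => ⟨h.1.trans ((hst.subst hφ).ctx p q), ?_⟩⟩
  obtain ⟨a, b, φ', e1, e2, e3, e4, e5⟩ := add_ctx s t p q hφ
  rw [← e4] at h
  rw [← e5]
  exact no_jump hP h4 h2 e1 (hst.ctx a b) (by simp; omega) (by omega) h.1 h.2

end Pool.Agent.P.MP_e7c2f2_al
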