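import Pool.Agent.P.MP_e7c2f2_al.Basic

/-! Connected templates can be anchored at the centre by auxiliary pointers. -/

namespace Pool.Agent.P.MP_e7c2f2_al

/-- every role is linked to an earlier role, and all pointers are below `B` -/
def Conn (B R : ℕ) (T : List Tpl) : Prop :=
  ∀ t ∈ T, (∀ x ∈ t.1, x.1 < B) ∧ ∀ r < R, 2 ≤ r →
    ∃ x ∈ t.1, (x.2.1 = r ∧ x.2.2 < r) ∨ (x.2.2 = r ∧ x.2.1 < r)

def UnbC (R : ℕ) (T : List Tpl) : Prop :=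
  ∀ L, ∃ Pt p₀, Frame Pt ∧ (∀ b x y, Pt b x y → y ≤ x) ∧ (∀ x, Pt 0 x x) ∧
    ∀ p, p₀ ≤ p → p < p₀ + L → OK R T Pt p

theorem unb_of_conn {B R : ℕ} {T : List Tpl} (hB : 0 < B) (hR : 2 ≤ R) (hC : Conn B R T)
    (h : UnbC R T) : Unb (B + 2 * (T.length * R)) R T := by
  intro L
  obtain ⟨Pt, p₀, hF, hd, h0, hO⟩ := h L
  have : ∀ p, ∃ i, ∃ ρ : ℕ → ℕ, p₀ ≤ p → p < p₀ + L → i < T.length ∧ T.getD i ([], []) ∈ T ∧
      ρ 0 = p ∧ ρ 1 = p + 1 ∧ Sat R Pt (T.getD i ([], [])) ρ := by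
    intro p
    by_cases hp : p₀ ≤ p ∧ p < p₀ + L
    · obtain ⟨t, ht, ρ, a⟩ := hO p hp.1 hp.2
      obtain ⟨i, hi, rfl⟩ := List.getElem_of_mem ht
      refine ⟨i, ρ, fun _ _ => ?_⟩
      rw [List.getD_eq_getElem _ _ hi]
      exact ⟨hi, ht, a⟩
    · exact ⟨0, id, fun a b => absurd ⟨a, b⟩ hp⟩
  choose ι ρ hρ using this
  have inj : ∀ p p', p₀ ≤ p → p < p₀ + L → p₀ ≤ p' → p' < p₀ + L → ι p = ι p' →
      ∀ r, r < R → ρ p r = ρ p' r → p = p' := by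
    intro p p' a b a' b' e r
    obtain ⟨-, m, r0, r1, s⟩ := hρ p a b
    obtain ⟨-, -, r0', r1', s'⟩ := hρ p' a' b'
    rw [← e] at s'
    induction r using Nat.strong_induction_on with
    | _ r ih =>
      intro hr he
      by_cases h2 : 2 ≤ r
      · obtain ⟨x, hx, ⟨c, d⟩ | ⟨c, d⟩⟩ := (hC _ m).2 r hr h2
        · have f := s.2.1 x hx (by omega) (by omega)
          have f' := s'.2.1 x hx (by omega) (by omega)
          rw [c] at f f'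
          rw [he] at f
          exact ih _ d (by omega) (hF.1 _ _ _ _ f f')
        · have f := s.2.1 x hx (by omega) (by omega)
          have f' := s'.2.1 x hx (by omega) (by omega)
          rw [c] at f f'
          rw [he] at f
          exact ih _ d (by omega) (hF.2 _ _ _ _ f f')
      · have : r = 0 ∨ r = 1 := by omega
        rcases this with rfl | rfl <;> omega
  have dec : ∀ i i' r r', r < R → r' < R → i * R + r = i' * R + r' → i = i' ∧ r = r' := by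
    intro i i' r r' a b e
    have h1 := congrArg (· / R) e
    have h2 := congrArg (· % R) e
    simp only [Nat.mul_add_mod_self_right, Nat.mod_eq_of_lt a, Nat.mod_eq_of_lt b] at h2
    subst h2
    exact ⟨Nat.eq_of_mul_eq_mul_right (by omega) (Nat.add_right_cancel e), rfl⟩
  set M := ((Finset.range (p₀ + L)) ×ˢ (Finset.range R)).sup (fun x => ρ x.1 x.2) + 1 with hM
  have hlt : ∀ p < p₀ + L, ∀ r < R, ρ p r < M := fun p hp r hr =>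
    Nat.lt_succ_of_le (Finset.le_sup (f := fun x : ℕ × ℕ => ρ x.1 x.2) (b := (p, r))
      (by simp [hp, hr]))
  let Pt' : ℕ → ℕ → ℕ → Prop := fun b x y => x < M ∧ y ≤ x ∧ ((b < B ∧ Pt b x y) ∨
    ∃ p r, p₀ ≤ p ∧ p < p₀ + L ∧ r < R ∧ ((b = B + 2 * (ι p * R + r) ∧ x = p ∧ y = ρ p r) ∨
      (b = B + 2 * (ι p * R + r) + 1 ∧ x = ρ p r ∧ y = p)))
  refine ⟨Pt', M, p₀, ⟨?_, ?_⟩, ?_, fun x hx => ⟨hx, le_rfl, .inl ⟨hB, h0 x⟩⟩, ?_⟩
  · rintro b x y y' ⟨-, -, ⟨a1, a2⟩ | ⟨p, r, a1, a2, a3, a4⟩⟩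
      ⟨-, -, ⟨b1, b2⟩ | ⟨p', r', b1, b2, b3, b4⟩⟩
    · exact hF.1 _ _ _ _ a2 b2
    · omega
    · omega
    · obtain ⟨e1, rfl⟩ := dec (ι p) (ι p') r r' a3 b3 (by omega)
      rcases a4 with ⟨c1, rfl, rfl⟩ | ⟨c1, c2, rfl⟩ <;> rcases b4 with ⟨d1, d2, rfl⟩ | ⟨d1, d2, rfl⟩
      · rw [d2]
      · omega
      · omega
      · exact inj _ _ a1 a2 b1 b2 e1 r a3 (c2.symm.trans d2)
  · rintro b x x' y ⟨-, -, ⟨a1, a2⟩ | ⟨p, r, a1, a2, a3, a4⟩⟩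
      ⟨-, -, ⟨b1, b2⟩ | ⟨p', r', b1, b2, b3, b4⟩⟩
    · exact hF.2 _ _ _ _ a2 b2
    · omega
    · omega
    · obtain ⟨e1, rfl⟩ := dec (ι p) (ι p') r r' a3 b3 (by omega)
      rcases a4 with ⟨c1, rfl, c2⟩ | ⟨c1, rfl, rfl⟩ <;> rcases b4 with ⟨d1, rfl, d2⟩ | ⟨d1, rfl, d2⟩
      · exact inj _ _ a1 a2 b1 b2 e1 r a3 (c2.symm.trans d2)
      · omega
      · omega
      · rw [d2]
  · rintro b x y ⟨a1, a2, a3 | ⟨p, r, b1, b2, b3, b4⟩⟩
    · exact ⟨by omega, a2, a1⟩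
    · refine ⟨?_, a2, a1⟩
      have h1 : (ι p + 1) * R ≤ T.length * R := Nat.mul_le_mul_right _ (hρ p b1 b2).1
      rw [add_mul] at h1
      omega
  · intro p a b
    obtain ⟨-, m, r0, r1, s⟩ := hρ p a b
    refine ⟨_, m, ρ p, r0, r1, ⟨fun r hr => ⟨hlt p b r hr, le_rfl, .inl ⟨hB, h0 _⟩⟩,
      fun x hx c d => ?_, s.2.2⟩, fun r hr => .inr (.inr ?_)⟩
    · have := s.2.1 x hx c d
      exact ⟨hlt p b _ c, hd _ _ _ this, .inl ⟨(hC _ m).1 x hx, this⟩⟩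
    · have h1 : (ι p + 1) * R ≤ T.length * R := Nat.mul_le_mul_right _ (hρ p a b).1
      rw [add_mul] at h1
      by_cases h2 : ρ p r ≤ ρ p 0
      · exact ⟨B + 2 * (ι p * R + r), by omega, .inl ⟨hlt p b 0 (by omega), h2,
          .inr ⟨p, r, a, b, hr, .inl ⟨rfl, r0, rfl⟩⟩⟩⟩
      · exact ⟨B + 2 * (ι p * R + r) + 1, by omega, .inr ⟨hlt p b r hr, by omega,
          .inr ⟨p, r, a, b, hr, .inr ⟨rfl, rfl, r0⟩⟩⟩⟩

end Pool.Agent.P.MP_e7c2f2_al
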