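import Pool.Agent.P.MP_e7c2f2_al.Table
import Pool.Agent.P.MP_e7c2f2_al.FB
import Pool.Agent.P.MP_e7c2f2_al.NFB
import Pool.Agent.P.MP_e7c2f2_al.Star
import Pool.Agent.P.MP_e7c2f2_al.Force
import Pool.Agent.P.MP_e7c2f2_al.Model

/-! The reduction of the halting problem to the finite basis property of tables. -/

namespace Pool.Agent.P.MP_e7c2f2_al

def toL (u : FreeSemigroup ℕ) : List ℕ := u.head :: u.tail

def mkW (l : List ℕ) : FreeSemigroup ℕ := ⟨l.headD 0, l.tail⟩

theorem toL_mk {l : List ℕ} (h : l ≠ []) : toL (mkW l) = l := by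
  cases l with
  | nil => exact absurd rfl h
  | cons a l => rfl

theorem toL_inj {u v : FreeSemigroup ℕ} (h : toL u = toL v) : u = v := congrArg mkW h

theorem toL_mul (a b : FreeSemigroup ℕ) : toL (a * b) = toL a ++ toL b := by simp [toL]

theorem toL_lift (σ : ℕ → FreeSemigroup ℕ) (a : FreeSemigroup ℕ) :
    toL (FreeSemigroup.lift σ a) = (toL a).flatMap fun x => toL (σ x) := by
  induction a using FreeSemigroup.recOnMul with
  | ih1 x => simp [toL]
  | ih2 x y ih1 ih2 => rw [map_mul, toL_mul, toL_mul, List.flatMap_append, ih1, ih2]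

theorem flatMap_ne {l : List ℕ} (h : l ≠ []) {φ : ℕ → List ℕ} (hφ : ∀ a, φ a ≠ []) :
    l.flatMap φ ≠ [] := by
  cases l with
  | nil => exact absurd rfl h
  | cons a l => simp [hφ a]

/-- the identities of the table follow from finitely many of them -/
def FBT (T : List (List ℕ)) : Prop :=
  ∃ B : Finset (FreeSemigroup ℕ × FreeSemigroup ℕ), (∀ p ∈ B, TV T p.1 p.2) ∧
    ∀ u v : FreeSemigroup ℕ, TV T u v → ∀ R : FreeSemigroup ℕ → FreeSemigroup ℕ → Prop,
      Equivalence R →
      (∀ a b c : FreeSemigroup ℕ, R a b → R (c * a) (c * b) ∧ R (a * c) (b * c)) →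
      (∀ (σ : ℕ → FreeSemigroup ℕ) (a b : FreeSemigroup ℕ), R a b →
        R (FreeSemigroup.lift σ a) (FreeSemigroup.lift σ b)) →
      (∀ p ∈ B, R p.1 p.2) → R u v

theorem fbt_of_bdd {P : Par} (hP : WF P) (hB : Bdd P.R P.T) : FBT (tbP P) := by
  classical
  obtain ⟨n, hn⟩ := der_of_valid hP hB
  refine ⟨(((allL (2 * n) n).flatMap fun s => (allL (2 * n) n).map fun t =>
    (mkW s, mkW t)).toFinset).filter fun p => TV (tbP P) p.1 p.2,
    fun p hp => (Finset.mem_filter.mp hp).2, fun u v h R hE _ hS hR => ?_⟩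
  have key : ∀ u v, Der P n u v → R (mkW u) (mkW v) := by
    intro u v h
    induction h with
    | refl => exact hE.refl _
    | symm _ _ _ ih => exact hE.symm ih
    | trans _ _ _ _ _ ih1 ih2 => exact hE.trans ih1 ih2
    | rel u v h =>
      obtain ⟨s, t, φ, h1, h2, h3, h4, h5, h6, rfl, rfl⟩ := h
      have a1 : ∀ l : List ℕ, l.length ≤ n → (∀ x ∈ l, x ∈ s ++ t) →
          l.map (fun x => (s ++ t).idxOf x) ∈ allL (2 * n) n := by
        intro l hl hm
        refine mem_allL.mpr ⟨by simpa using hl, fun x hx => ?_⟩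
        obtain ⟨y, hy, rfl⟩ := List.mem_map.mp hx
        have := List.idxOf_lt_length_of_mem (hm y hy)
        rw [List.length_append] at this
        omega
      have a2 : ∀ l : List ℕ, l ≠ [] → (∀ x ∈ l, x ∈ s ++ t) →
          FreeSemigroup.lift (fun i => mkW (φ ((s ++ t).getD i 0)))
            (mkW (l.map fun x => (s ++ t).idxOf x)) = mkW (l.flatMap φ) := by
        intro l hl hm
        apply toL_inj
        rw [toL_lift, toL_mk (by simpa using hl), toL_mk (flatMap_ne hl h6), List.flatMap_map]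
        refine List.flatMap_congr fun x hx => ?_
        rw [toL_mk (h6 _), List.getD_eq_getElem _ _ (List.idxOf_lt_length_of_mem (hm x hx)),
          List.getElem_idxOf]
      have ms : ∀ x ∈ s, x ∈ s ++ t := fun x hx => List.mem_append_left _ hx
      have mt : ∀ x ∈ t, x ∈ s ++ t := fun x hx => List.mem_append_right _ hx
      rw [← a2 s h4 ms, ← a2 t h5 mt]
      refine hS _ _ _ (hR (_, _) (Finset.mem_filter.mpr ⟨?_, ?_⟩))
      · rw [List.mem_toFinset, List.mem_flatMap]
        exact ⟨_, a1 s h2 ms, List.mem_map.mpr ⟨_, a1 t h3 mt, rfl⟩⟩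
      · rw [tv_iff hP]
        change Valid P (toL (mkW (s.map _))) (toL (mkW (t.map _)))
        rw [toL_mk (by simpa using h4), toL_mk (by simpa using h5), List.map_eq_flatMap,
          List.map_eq_flatMap]
        exact h1.subst (by simp)
  exact key _ _ (hn _ _ ((tv_iff hP u v).mp h))

theorem not_fbt {P : Par} (hP : WF P) (hK : P.K = 2 * P.B + 1) (hU : Unb P.B P.R P.T) :
    ¬ FBT (tbP P) := by
  rintro ⟨B, h1, h2⟩
  obtain ⟨u, v, a1, a2, a3, Inv, a4, a5, a6⟩ :=
    not_derivable hP hK hU (B.sup fun p => (toL p.1).length + (toL p.2).length)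
  have := h2 (mkW u) (mkW v) ((tv_iff hP _ _).mpr (by
    change Valid P (toL _) (toL _)
    rwa [toL_mk a2, toL_mk a3]))
    (fun a b => ∀ φ : ℕ → List ℕ, (∀ x, φ x ≠ []) → ∀ p q,
      Inv (p ++ (toL a).flatMap φ ++ q) ↔ Inv (p ++ (toL b).flatMap φ ++ q))
    ⟨fun _ _ _ _ _ => Iff.rfl, fun h φ hφ p q => (h φ hφ p q).symm,
      fun h h' φ hφ p q => (h φ hφ p q).trans (h' φ hφ p q)⟩
    (fun a b c h => ⟨fun φ hφ p q => by
      simpa only [toL_mul, List.flatMap_append, List.append_assoc] using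
        h φ hφ (p ++ (toL c).flatMap φ) q, fun φ hφ p q => by
      simpa only [toL_mul, List.flatMap_append, List.append_assoc] using
        h φ hφ p ((toL c).flatMap φ ++ q)⟩)
    (fun σ a b h φ hφ p q => by
      rw [toL_lift, toL_lift, List.flatMap_assoc, List.flatMap_assoc]
      exact h _ (fun x => flatMap_ne (by simp [toL]) hφ) p q)
    (fun p hp φ hφ a b => by
      have hv : Valid P (toL p.1) (toL p.2) := (tv_iff hP _ _).mp (h1 p hp)
      have := Finset.le_sup (f := fun p : FreeSemigroup ℕ × FreeSemigroup ℕ =>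
        (toL p.1).length + (toL p.2).length) hp
      exact ⟨a6 _ _ _ _ _ hv (le_trans (Nat.le_add_right _ _) this) hφ,
        a6 _ _ _ _ _ hv.symm (le_trans (Nat.le_add_left _ _) this) hφ⟩)
    (fun x => [x]) (by simp) [] []
  simp only [toL_mk a2, toL_mk a3, List.flatMap_singleton', List.nil_append,
    List.append_nil] at this
  exact a5 (this.mp a4)

/-- the parameters of the semigroup attached to a machine -/
def parOf (C Q : ℕ) (tr : List Tr) : Par :=
  ⟨2 * (7 + 2 * C + Q + 2 * ((tpls C Q tr).length * (7 + 2 * C))) + 1,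
    7 + 2 * C + Q + 2 * ((tpls C Q tr).length * (7 + 2 * C)), 7 + 2 * C,
    (7 + 2 * C) * (2 * (7 + 2 * C + Q + 2 * ((tpls C Q tr).length * (7 + 2 * C))) + 1) + 3,
    tpls C Q tr⟩

theorem wf_parOf (C Q : ℕ) (tr : List Tr) : WF (parOf C Q tr) :=
  ⟨by simp only [parOf]; omega, by simp only [parOf]; omega, le_rfl⟩

theorem p_tpls (C A s : ℕ) (tr : List Tr) :
    Primrec fun n : ℕ => tpls C (A + 4 * n) (slow (load tr s n)) := by
  unfold tpls tplL tplR common ctrF slow load
  fun_prop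

open Nat.Partrec in
theorem reduction : ∃ f : ℕ → List (List ℕ), Primrec f ∧ ∀ n, ∃ P, WF P ∧ f n = tbP P ∧
    (FBT (f n) ↔ (Code.eval (Denumerable.ofNat Code n) 0).Dom) := by
  obtain ⟨C, A, s, tr, h⟩ := exists_machine
  refine ⟨fun n => tbP (parOf C (A + 4 * n) (slow (load tr s n))), ?_, fun n => ⟨_, wf_parOf _ _ _,
    rfl, ?_⟩⟩
  · have := p_tpls C A s tr
    refine p_table ?_ ?_ ?_ ?_ this <;> simp only [parOf] <;> fun_prop
  obtain ⟨h1, h2, h3⟩ := h n
  have hQ : 0 < A + 4 * n := by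
    have := (h1 _ (mem_slow.mpr ⟨_, mem_load.mpr (.inl rfl), .inl rfl⟩)).1
    omega
  constructor
  · intro hF
    by_contra hD
    exact not_fbt (wf_parOf _ _ _) rfl (unb_of_conn (by omega) (by omega) (conn_tpls h1 hQ)
      (unbC_of_live h1 hQ (h3 hD))) hF
  · intro hD
    obtain ⟨m, hm⟩ := h2 hD
    exact fbt_of_bdd (wf_parOf _ _ _) (bdd_of_stops h1 hQ hm)

open Nat.Partrec in
theorem undecidable : ¬ ComputablePred fun T : List (List ℕ) =>
    (∀ r ∈ T, r.length = T.length ∧ ∀ x ∈ r, x < T.length) ∧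
    (∀ a b c : ℕ, a < T.length → b < T.length → c < T.length →
      (T.getD ((T.getD a []).getD b 0) []).getD c 0 =
        (T.getD a []).getD ((T.getD b []).getD c 0) 0) ∧ FBT T := by
  rintro ⟨inst, hc⟩
  obtain ⟨f, hf, h⟩ := reduction
  classical
  refine ComputablePred.halting_problem 0 ⟨inferInstance,
    (hc.comp (hf.to_comp.comp Computable.encode)).of_eq fun c => ?_⟩
  obtain ⟨P, hP, e1, e2⟩ := h (Encodable.encode c)
  rw [Denumerable.ofNat_encode] at e2
  rw [decide_eq_decide]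
  refine ⟨fun h => e2.mp h.2.2, fun h => ?_⟩
  have := e2.mpr h
  rw [e1] at this ⊢
  exact ⟨table_shape hP, table_assoc hP, this⟩

end Pool.Agent.P.MP_e7c2f2_al
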