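import Pool.Agent.P.MP_e7c2f2_al.Sub

/-! A short hop of an inert letter is an instance of a short valid identity. -/

namespace Pool.Agent.P.MP_e7c2f2_al

open Finset

/-- an instance of a valid identity whose sides have length at most `n` -/
def Step (P : Par) (n : ℕ) (u v : List ℕ) : Prop :=
  ∃ s t : List ℕ, ∃ φ : ℕ → List ℕ, Valid P s t ∧ s.length ≤ n ∧ t.length ≤ n ∧ s ≠ [] ∧ t ≠ [] ∧
    (∀ a, φ a ≠ []) ∧ u = s.flatMap φ ∧ v = t.flatMap φ

theorem Step.valid {P n u v} (h : Step P n u v) : Valid P u v := by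
  obtain ⟨s, t, φ, h1, -, -, -, -, h2, rfl, rfl⟩ := h
  exact h1.subst h2

section

variable (u : List ℕ) (Kp : ℕ → Prop)

/-- kept positions and the first position of every block of other positions -/
def sel (p : ℕ) : Prop := Kp p ∨ p = 0 ∨ Kp (p - 1)

open Classical in
noncomputable def glab (p : ℕ) : ℕ := if Kp p then 2 * lt u p else 2 * p + 1

noncomputable def gen : List ℕ := sub (sel Kp) (glab u Kp) u.length

theorem nxt_ex (p : ℕ) : ∃ q, p ≤ q ∧ (sel Kp q ∨ u.length ≤ q) :=
  ⟨max p u.length, le_max_left _ _, .inr (le_max_right _ _)⟩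

open Classical in
noncomputable def nxt (p : ℕ) : ℕ := Nat.find (nxt_ex u Kp p)

noncomputable def gφ (a : ℕ) : List ℕ :=
  if a % 2 = 0 then [a / 2] else if a / 2 < u.length then
    (u.drop (a / 2)).take (nxt u Kp (a / 2 + 1) - a / 2) else [0]

variable {u Kp}

theorem le_nxt (p : ℕ) : p ≤ nxt u Kp p := by
  classical
  exact (Nat.find_spec (nxt_ex u Kp p)).1

theorem nxt_self {p : ℕ} (h : sel Kp p ∨ u.length ≤ p) : nxt u Kp p = p := by
  classical
  exact le_antisymm (Nat.find_le ⟨le_rfl, h⟩) (le_nxt p)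

theorem nxt_skip {p : ℕ} (h1 : ¬ sel Kp p) (h2 : p < u.length) :
    nxt u Kp p = nxt u Kp (p + 1) := by
  classical
  apply le_antisymm
  · have := Nat.find_spec (nxt_ex u Kp (p + 1))
    exact Nat.find_le ⟨(Nat.le_succ p).trans this.1, this.2⟩
  · have := Nat.find_spec (nxt_ex u Kp p)
    refine Nat.find_le ⟨?_, this.2⟩
    rcases this.1.eq_or_lt with h | h
    · rw [← h] at this
      rcases this.2 with h3 | h3
      · exact absurd h3 h1
      · omega
    · exact h

theorem gφ_ne (a : ℕ) : gφ u Kp a ≠ [] := by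
  unfold gφ
  split_ifs with h1 h2
  · simp
  · have := le_nxt (u := u) (Kp := Kp) (a / 2 + 1)
    rw [← List.length_pos_iff, List.length_take, List.length_drop]
    omega
  · simp

theorem gφ_even (a : ℕ) : gφ u Kp (2 * a) = [a] := by simp [gφ]

theorem flatMap_sub {p : ℕ} (hp : p ≤ u.length) :
    (sub (sel Kp) (glab u Kp) p).flatMap (gφ u Kp) = u.take (nxt u Kp p) := by
  induction p with
  | zero => rw [nxt_self (.inl (.inr (.inl rfl)))]; simp [sub]
  | succ p ih =>
    have ih := ih (by omega)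
    by_cases h : sel Kp p
    · rw [sub_yes h, List.flatMap_append, ih, nxt_self (.inl h), List.flatMap_singleton]
      by_cases hk : Kp p
      · rw [nxt_self (.inl (.inr (.inr hk))), take_succ_lt hp]
        simp [glab, hk, gφ_even]
      · have e1 : (2 * p + 1) % 2 ≠ 0 := by omega
        have e2 : (2 * p + 1) / 2 = p := by omega
        have h3 := le_nxt (u := u) (Kp := Kp) (p + 1)
        simp only [glab, hk, if_false, gφ, e1, e2, show p < u.length from hp, if_true]
        rw [← List.take_add]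
        congr 1; omega
    · rw [sub_no h, ih, nxt_skip h hp]

theorem flatMap_gen : (gen u Kp).flatMap (gφ u Kp) = u := by
  rw [gen, flatMap_sub le_rfl, nxt_self (.inr le_rfl), List.take_length]

theorem flatMap_ins_gen {g : ℕ} (z : ℕ) (hg : g ≤ u.length) (h : g < u.length → Kp g) :
    (ins (gen u Kp) (rk (sel Kp) g) (2 * z)).flatMap (gφ u Kp) = ins u g z := by
  have h1 : ((gen u Kp).take (rk (sel Kp) g)).flatMap (gφ u Kp) = u.take g := by
    rw [gen, take_sub hg, flatMap_sub hg, nxt_self]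
    by_cases h2 : g < u.length
    · exact .inl (.inl (h h2))
    · exact .inr (by omega)
  have h2 : ((gen u Kp).drop (rk (sel Kp) g)).flatMap (gφ u Kp) = u.drop g := by
    have := flatMap_gen (u := u) (Kp := Kp)
    rw [← List.take_append_drop (rk (sel Kp) g) (gen u Kp), List.flatMap_append, h1] at this
    conv_rhs at this => rw [← List.take_append_drop g u]
    exact List.append_cancel_left this
  simp only [ins, List.flatMap_append, List.flatMap_cons, h1, h2, gφ_even]
  rfl

theorem length_gen : (gen u Kp).length = rk (sel Kp) u.length := length_sub _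

theorem lt_gen {p : ℕ} (hp : p < u.length) (h : Kp p) :
    lt (gen u Kp) (rk (sel Kp) p) = 2 * lt u p := by
  rw [gen, lt_sub hp (.inl h)]; simp [glab, h]

theorem rk_lt_gen {p : ℕ} (hp : p < u.length) (h : Kp p) :
    rk (sel Kp) p < (gen u Kp).length := by
  rw [length_gen]; exact rk_lt hp (.inl h)

theorem gen_even {i a : ℕ} (hi : i < (gen u Kp).length) (h : lt (gen u Kp) i = 2 * a) :
    ∃ p < u.length, Kp p ∧ rk (sel Kp) p = i ∧ lt u p = a := by
  rw [length_gen] at hi
  obtain ⟨p, a1, a2, rfl⟩ := rk_surj hi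
  rw [gen, lt_sub a1 a2] at h
  unfold glab at h
  split_ifs at h with hk
  · exact ⟨p, a1, hk, rfl, by omega⟩
  · omega

theorem gen_odd {i : ℕ} (hi : i < (gen u Kp).length) :
    (∃ p < u.length, Kp p ∧ rk (sel Kp) p = i) ∨ (gen u Kp).count (lt (gen u Kp) i) ≤ 1 := by
  by_cases h : lt (gen u Kp) i % 2 = 0
  · obtain ⟨p, a, b, c, -⟩ := gen_even hi (a := lt (gen u Kp) i / 2) (by omega)
    exact .inl ⟨p, a, b, c⟩
  · right
    rw [count_card, card_le_one]
    have key : ∀ j < (gen u Kp).length, lt (gen u Kp) j = lt (gen u Kp) i →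
        j = rk (sel Kp) (lt (gen u Kp) i / 2) := by
      intro j hj he
      rw [length_gen] at hj
      obtain ⟨p, a1, a2, rfl⟩ := rk_surj hj
      rw [gen, lt_sub a1 a2, ← gen] at he
      unfold glab at he
      split_ifs at he with hk
      · omega
      · congr 1; omega
    intro a ha b hb
    simp only [mem_filter, mem_range] at ha hb
    rw [key a ha.1 ha.2, key b hb.1 hb.2]

variable {K : ℕ}

/-- with a position, the first occurrences of its letter are kept -/
def Cl (K : ℕ) (u : List ℕ) (Kp : ℕ → Prop) : Prop :=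
  ∀ p < u.length, Kp p → ∀ p' < u.length, lt u p' = lt u p → idx u p' ≤ K → Kp p'

theorem kept_gen (hC : Cl K u Kp) {p : ℕ} (hp : p < u.length) (h : Kp p)
    (hc : u.count (lt u p) ≤ K) : (gen u Kp).count (2 * lt u p) = u.count (lt u p) ∧
      ∀ p' < u.length, lt u p' = lt u p → idx (gen u Kp) (rk (sel Kp) p') = idx u p' := by
  apply kept
  · intro p' a b
    have hk : Kp p' := hC p hp h p' a b (by have := idx_lt a; rw [b] at this; omega)
    exact ⟨.inl hk, by simp [glab, hk, b]⟩
  · intro p' _ _ c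
    unfold glab at c
    split_ifs at c <;> omega

theorem inert_gen (hC : Cl K u Kp) {p : ℕ} (hp : p < u.length) (h : Kp p)
    (hc : K < u.count (lt u p)) : K < (gen u Kp).count (2 * lt u p) := by
  have : ∀ j, ∃ p', j ≤ K → p' < u.length ∧ lt u p' = lt u p ∧ idx u p' = j := by
    intro j
    by_cases hj : j ≤ K
    · obtain ⟨p', a⟩ := exists_idx (show j < u.count (lt u p) by omega)
      exact ⟨p', fun _ => a⟩
    · exact ⟨0, fun h => absurd h hj⟩
  choose f hf using this
  have hk : ∀ j ≤ K, Kp (f j) := fun j hj =>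
    hC p hp h _ (hf j hj).1 (hf j hj).2.1 (by rw [(hf j hj).2.2]; exact hj)
  rw [count_card, ← Nat.add_one_le_iff, ← card_range (K + 1)]
  apply card_le_card_of_injOn (fun j => rk (sel Kp) (f j))
  · intro j hj
    simp only [coe_range, Set.mem_Iio, coe_filter, mem_range, Set.mem_ofPred_eq] at hj ⊢
    have hj : j ≤ K := by omega
    exact ⟨rk_lt_gen (hf j hj).1 (hk j hj), by rw [lt_gen (hf j hj).1 (hk j hj), (hf j hj).2.1]⟩
  · intro a ha b hb he
    simp only [coe_range, Set.mem_Iio] at ha hb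
    have := rk_inj (Q := sel Kp) (.inl (hk a (by omega))) (.inl (hk b (by omega))) he
    rw [← (hf a (by omega)).2.2, ← (hf b (by omega)).2.2, this]

theorem ge_gen (hC : Cl K u Kp) {p : ℕ} (hp : p < u.length) (h : Kp p)
    (hc : K ≤ u.count (lt u p)) : K ≤ (gen u Kp).count (lt (gen u Kp) (rk (sel Kp) p)) := by
  rw [lt_gen hp h]
  rcases hc.eq_or_lt with h1 | h1
  · rw [(kept_gen hC hp h h1.ge).1]; exact hc
  · exact (inert_gen hC hp h h1).le

theorem node_gen (hC : Cl K u Kp) {p : ℕ} (h : Kp p) (hn : Node K u p) :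
    Node K (gen u Kp) (rk (sel Kp) p) := by
  have := kept_gen hC hn.1 h hn.2.1.le
  exact ⟨rk_lt_gen hn.1 h, by rw [lt_gen hn.1 h, this.1, hn.2.1],
    by rw [this.2 p hn.1 rfl, hn.2.2]⟩

theorem node_of_gen (hK : 2 ≤ K) (hC : Cl K u Kp) {i : ℕ} (hn : Node K (gen u Kp) i) :
    ∃ p, Kp p ∧ rk (sel Kp) p = i ∧ Node K u p := by
  rcases gen_odd hn.1 with ⟨p, a, b, rfl⟩ | h
  · have h1 := hn.2.1
    rw [lt_gen a b] at h1
    have h2 : u.count (lt u p) ≤ K := by
      by_contra hh
      have := inert_gen hC a b (not_le.mp hh)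
      omega
    have := kept_gen hC a b h2
    exact ⟨p, b, rfl, a, by omega, by rw [← this.2 p a rfl]; exact hn.2.2⟩
  · have := hn.2.1; omega

theorem jf_gen (hC : Cl K u Kp) {x : ℕ} (hF : JF K u x)
    (hN : ∀ p < u.length, lt u p = x → Kp (p + 1) ∧ Kp (p - 1)) : JF K (gen u Kp) (2 * x) := by
  intro i hi he
  obtain ⟨p, a, b, rfl, c⟩ := gen_even hi he
  obtain ⟨⟨f1, f2⟩, f3, f4⟩ := hF p a c
  obtain ⟨k1, k2⟩ := hN p a c
  have e1 := rk_yes (Q := sel Kp) (.inl k2)
  rw [show p - 1 + 1 = p by omega] at e1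
  have e2 := rk_yes (Q := sel Kp) (.inl b)
  refine ⟨⟨by omega, ?_⟩, ?_, ?_⟩
  · rw [e1, Nat.add_sub_cancel]
    exact ge_gen hC (by omega) k2 f2
  · rw [← e2]; exact rk_lt_gen f3 k1
  · rw [← e2]; exact ge_gen hC f3 k1 f4

theorem wpt_of_gen (hC : Cl K u Kp) {b p p' : ℕ} (k1 : Kp p) (k2 : Kp p') (n1 : Node K u p)
    (n2 : Node K u p')
    (h : WPt K (gen u Kp) (fun _ => True) b (rk (sel Kp) p) (rk (sel Kp) p')) :
    WPt K u (fun _ => True) b p p' := by
  obtain ⟨-, -, i, a1, a2, a3, a4, a5, -⟩ := h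
  rw [lt_gen n1.1 k1] at a2
  rw [lt_gen n2.1 k2] at a4
  obtain ⟨p1, b1, b2, rfl, b4⟩ := gen_even (by omega) a2
  obtain ⟨p2, c1, c2, c3, c4⟩ := gen_even a1 a4
  rw [← rk_yes (Q := sel Kp) (.inl b2)] at c3 a5
  obtain rfl : p2 = p1 + 1 := rk_inj (Q := sel Kp) (.inl c2) (.inr (.inr b2)) c3
  refine ⟨n1, n2, p1, c1, b4, ?_, c4, ?_, trivial⟩
  · rw [← (kept_gen hC n1.1 k1 n1.2.1.le).2 p1 b1 b4, a3]
  · rw [← (kept_gen hC n2.1 k2 n2.2.1.le).2 _ c1 c4, a5]

theorem oks_of_gen {B R T} (hK : 2 ≤ K) (hR : 2 ≤ R) (hC : Cl K u Kp) {g : ℕ} (k1 : Kp g)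
    (h : OKs B R T (WPt K (gen u Kp) fun _ => True) (rk (sel Kp) g)) :
    OKs B R T (WPt K u fun _ => True) g := by
  obtain ⟨t, ht, ρ, r0, r1, hs, hst⟩ := h
  have : ∀ r, ∃ p, r < R → Kp p ∧ rk (sel Kp) p = ρ r ∧ Node K u p := by
    intro r
    by_cases hr : r < R
    · obtain ⟨p, hp⟩ := node_of_gen hK hC (hs.1 r hr).1
      exact ⟨p, fun _ => hp⟩
    · exact ⟨0, fun h => absurd h hr⟩
  choose ρ' hρ' using this
  refine OKs.map ht ρ' hs hst ?_ ?_ (by omega) r0 (fun b r r' a a' h => ?_) (fun r r' a a' h => ?_)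
  · have := hρ' 0 (by omega)
    exact rk_inj (Q := sel Kp) (.inl this.1) (.inl k1) (this.2.1.trans r0)
  · have := hρ' 1 (by omega)
    refine rk_inj (Q := sel Kp) (.inl this.1) (.inr (.inr k1)) ?_
    rw [this.2.1, r1, rk_yes (Q := sel Kp) (.inl k1)]
  · rw [← (hρ' r a).2.1, ← (hρ' r' a').2.1] at h
    exact wpt_of_gen hC (hρ' r a).1 (hρ' r' a').1 (hρ' r a).2.2 (hρ' r' a').2.2 h
  · rw [← (hρ' r a).2.1, ← (hρ' r' a').2.1] at h
    exact lt_of_rk_lt h

end

theorem rk_sel_le (S : Finset ℕ) (n : ℕ) : rk (sel (· ∈ S)) n ≤ 2 * S.card + 1 := by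
  classical
  have h1 : rk (sel (· ∈ S)) n = ((range n).filter (sel (· ∈ S))).card := by
    unfold rk
    rw [Nat.count_eq_card_filter_range]
  have h2 : (range n).filter (sel (· ∈ S)) ⊆ insert 0 (S ∪ S.image (· + 1)) := by
    intro p hp
    rcases (mem_filter.mp hp).2 with h | h | h
    · simp [h]
    · simp [h]
    · by_cases h0 : p = 0
      · simp [h0]
      · exact mem_insert_of_mem (mem_union_right _ (mem_image.mpr ⟨p - 1, h, by omega⟩))
  have h3 := card_le_card h2
  have h4 := card_insert_le 0 (S ∪ S.image (· + 1))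
  have h5 := card_union_le S (S.image (· + 1))
  have h6 : (S.image (· + 1)).card ≤ S.card := card_image_le
  omega

/-- a finite set of positions can be closed up without losing control of its size -/
theorem exists_keep (K : ℕ) (u : List ℕ) (S : Finset ℕ) : ∃ S' : Finset ℕ, S ⊆ S' ∧
    S'.card ≤ S.card * (2 * K + 3) * (K + 2) ∧ Cl K u (· ∈ S') ∧
    ∀ b ∈ S, ∀ p < u.length, lt u p = lt u b → idx u p ≤ K → p + 1 ∈ S' ∧ p - 1 ∈ S' := by
  classical
  let occ : ℕ → Finset ℕ := fun r => (range u.length).filter fun p => lt u p = lt u r ∧ idx u p ≤ K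
  have hocc : ∀ r, (occ r).card ≤ K + 1 := by
    intro r
    rw [← card_range (K + 1)]
    apply card_le_card_of_injOn (idx u)
    · intro p hp
      simp only [occ, coe_filter, mem_range, Set.mem_ofPred_eq, coe_range, Set.mem_Iio] at hp ⊢
      omega
    · intro a ha b hb he
      simp only [occ, coe_filter, mem_range, Set.mem_ofPred_eq] at ha hb
      exact pos_unique ha.1 hb.1 (ha.2.1.trans hb.2.1.symm) he
  let req := S.biUnion fun b => insert b ((occ b).image (· + 1) ∪ (occ b).image (· - 1))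
  have hreq : req.card ≤ S.card * (2 * K + 3) := by
    refine card_biUnion_le_card_mul _ _ _ fun b _ => ?_
    have h4 := card_insert_le b ((occ b).image (· + 1) ∪ (occ b).image (· - 1))
    have h5 := card_union_le ((occ b).image (· + 1)) ((occ b).image (· - 1))
    have h6 : ((occ b).image (· + 1)).card ≤ (occ b).card := card_image_le
    have h7 : ((occ b).image (· - 1)).card ≤ (occ b).card := card_image_le
    have := hocc b
    omega
  have hin : ∀ r ∈ req, r ∈ req.biUnion fun r => insert r (occ r) := fun r hr =>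
    mem_biUnion.mpr ⟨r, hr, mem_insert_self _ _⟩
  refine ⟨req.biUnion fun r => insert r (occ r), fun b hb => hin b ?_, ?_, ?_, ?_⟩
  · exact mem_biUnion.mpr ⟨b, hb, mem_insert_self _ _⟩
  · refine (card_biUnion_le_card_mul _ _ (K + 2) fun r _ => ?_).trans
      (Nat.mul_le_mul_right _ hreq)
    have := card_insert_le r (occ r)
    have := hocc r
    omega
  · intro p _ hp p' a b c
    obtain ⟨r, hr, h⟩ := mem_biUnion.mp hp
    refine mem_biUnion.mpr ⟨r, hr, mem_insert_of_mem ?_⟩
    simp only [occ, mem_filter, mem_range]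
    refine ⟨a, ?_, c⟩
    rcases mem_insert.mp h with rfl | h
    · exact b
    · exact b.trans (mem_filter.mp h).2.1
  · intro b hb p a c d
    have hp : p ∈ occ b := by simp [occ, a, c, d]
    exact ⟨hin _ (mem_biUnion.mpr ⟨b, hb, mem_insert_of_mem
        (mem_union_left _ (mem_image_of_mem _ hp))⟩),
      hin _ (mem_biUnion.mpr ⟨b, hb, mem_insert_of_mem
        (mem_union_right _ (mem_image_of_mem _ hp))⟩)⟩

/-- the length of the identities needed for hops of length `L` -/
def bd (K L : ℕ) : ℕ := 2 * ((L + 3) * (2 * K + 3) * (K + 2)) + 2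

theorem step_ins {P : Par} (hP : WF P) {u : List ℕ} {g z p₀ L : ℕ} (hg : g ≤ u.length)
    (hz : P.K < u.count z) (hp : p₀ < u.length) (hpz : lt u p₀ = z) (h1 : Gap P u g)
    (h2 : ∀ p, p₀ < p → p < g → Pass P u p) (hL : g ≤ p₀ + L) :
    Step P (bd P.K L) u (ins u g z) := by
  classical
  obtain ⟨S, hS, hcard, hC, hN⟩ :=
    exists_keep P.K u (insert p₀ (insert (g - 1) (insert g (Ioo p₀ g))))
  have hb : (insert p₀ (insert (g - 1) (insert g (Ioo p₀ g)))).card ≤ L + 3 := by
    have a := card_insert_le p₀ (insert (g - 1) (insert g (Ioo p₀ g)))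
    have b := card_insert_le (g - 1) (insert g (Ioo p₀ g))
    have c := card_insert_le g (Ioo p₀ g)
    rw [Nat.card_Ioo] at c
    omega
  have hlen : (gen u (· ∈ S)).length + 1 ≤ bd P.K L := by
    have a := rk_sel_le S u.length
    have b : S.card ≤ (L + 3) * (2 * P.K + 3) * (P.K + 2) :=
      hcard.trans (Nat.mul_le_mul_right _ (Nat.mul_le_mul_right _ hb))
    rw [length_gen, bd]; omega
  have k0 : p₀ ∈ S := hS (by simp)
  have k1 : g - 1 ∈ S := hS (by simp)
  have k2 : g ∈ S := hS (by simp)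
  have hjf : ∀ b ∈ insert p₀ (insert (g - 1) (insert g (Ioo p₀ g))), Node P.K u b →
      JF P.K u (lt u b) → JF P.K (gen u (· ∈ S)) (lt (gen u (· ∈ S)) (rk (sel (· ∈ S)) b)) := by
    intro b hb n f
    rw [lt_gen n.1 (hS hb)]
    refine jf_gen hC f fun p a c => hN b hb p a c ?_
    have := idx_lt a
    rw [c, n.2.1] at this
    omega
  have hz' : P.K < (gen u (· ∈ S)).count (2 * z) := hpz ▸ inert_gen hC hp k0 (hpz ▸ hz)
  have hg' : rk (sel (· ∈ S)) g ≤ (gen u (· ∈ S)).length := by
    rw [length_gen]; exact rk_mono hg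
  refine ⟨gen u (· ∈ S), ins (gen u (· ∈ S)) (rk (sel (· ∈ S)) g) (2 * z), gφ u (· ∈ S), ?_,
    by omega, by rw [length_ins]; omega, ?_, ?_, gφ_ne, flatMap_gen.symm,
    (flatMap_ins_gen z hg fun _ => k2).symm⟩
  · refine valid_ins hg' hz' (fix_of_gap (by have := hP.2.1; omega) hg' hz' (rk_lt_gen hp k0)
      (by rw [lt_gen hp k0, hpz]) ?_ ?_)
    · have e : 0 < g → rk (sel (· ∈ S)) g = rk (sel (· ∈ S)) (g - 1) + 1 := by
        intro h0
        have := rk_yes (Q := sel (· ∈ S)) (.inl k1)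
        rwa [show g - 1 + 1 = g by omega] at this
      rcases h1 with ⟨a, b⟩ | ⟨a, b⟩ | ⟨a, b, c, d, e'⟩
      · refine .inl ⟨by rw [e a]; omega, ?_⟩
        rw [e a, Nat.add_sub_cancel, lt_gen (by omega) k1]
        exact inert_gen hC (by omega) k1 b
      · refine .inr (.inl ⟨rk_lt_gen a k2, ?_⟩)
        rw [lt_gen a k2]
        exact inert_gen hC a k2 b
      · have e1 : rk (sel (· ∈ S)) g - 1 = rk (sel (· ∈ S)) (g - 1) := by rw [e a]; omega
        refine .inr (.inr ⟨by rw [e a]; omega, ?_, node_gen hC k2 c, ?_, ?_⟩) <;> rw [e1]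
        · exact node_gen hC k1 b
        · exact hjf _ (by simp) b d
        · exact fun h => e' (oks_of_gen hP.1 (by have := hP.2.1; omega) hC k1 h)
    · intro i a b
      obtain ⟨p, c, -, rfl⟩ := rk_surj b
      have d : p₀ < p := lt_of_rk_lt a
      have m : p ∈ insert p₀ (insert (g - 1) (insert g (Ioo p₀ g))) := by simp [c, d]
      rcases h2 p d c with h | h
      · left
        rw [lt_gen (by omega) (hS m)]
        exact inert_gen hC (by omega) (hS m) h
      · exact .inr ⟨node_gen hC (hS m) h.1, hjf p m h.1 h.2⟩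
  · rw [← List.length_pos_iff]
    have := rk_lt_gen (Kp := (· ∈ S)) hp k0
    omega
  · rw [← List.length_pos_iff, length_ins]; omega

end Pool.Agent.P.MP_e7c2f2_al
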