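import Pool.Agent.P.MP_e7c2f2_al.Univ

/-! Counter machines given by lists of transitions; a universal one with an input loader. -/

namespace Pool.Agent.P.MP_e7c2f2_al

open Function (update)

/-- source, target, counter, kind -/
abbrev Tr := ℕ × ℕ × ℕ × ℕ

/-- kinds: nothing, increment, decrement, zero test, positivity test -/
def Act (i k : ℕ) (v v' : ℕ → ℕ) : Prop :=
  (k = 0 ∧ v' = v) ∨ (k = 1 ∧ v' = update v i (v i + 1)) ∨
    (k = 2 ∧ 0 < v i ∧ v' = update v i (v i - 1)) ∨ (k = 3 ∧ v i = 0 ∧ v' = v) ∨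
      (k = 4 ∧ 0 < v i ∧ v' = v)

def MStep (tr : List Tr) (q : ℕ) (v : ℕ → ℕ) (q' : ℕ) (v' : ℕ → ℕ) : Prop :=
  ∃ i k, (q, q', i, k) ∈ tr ∧ Act i k v v'

/-- all runs have fewer than `m` steps -/
def Stops {S : Type} (st : S → (ℕ → ℕ) → S → (ℕ → ℕ) → Prop) : ℕ → S → (ℕ → ℕ) → Prop
  | 0, _, _ => False
  | m + 1, q, v => ∀ q' v', st q v q' v' → Stops st m q' v'

def Live (tr : List Tr) (q : ℕ) (v : ℕ → ℕ) : Prop :=
  ∃ G : ℕ → (ℕ → ℕ) → Prop, G q v ∧ ∀ q v, G q v → ∃ q' v', MStep tr q v q' v' ∧ G q' v'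

theorem stops_of_step {S : Type} {st : S → (ℕ → ℕ) → S → (ℕ → ℕ) → Prop} {s v s' v'}
    (h : ∀ s'' v'', st s v s'' v'' → s'' = s' ∧ v'' = v') (h' : ∃ m, Stops st m s' v') :
    ∃ m, Stops st m s v := by
  obtain ⟨m, hm⟩ := h'
  refine ⟨m + 1, fun s'' v'' hs => ?_⟩
  obtain ⟨rfl, rfl⟩ := h _ _ hs
  exact hm

/-! ### while programs -/

def encP : Prog → ℕ
  | .inc i => Nat.pair 0 i
  | .dec i => Nat.pair 1 i
  | .seq p q => Nat.pair 2 (Nat.pair (encP p) (encP q))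
  | .loop i p => Nat.pair 3 (Nat.pair i (encP p))

theorem encP_inj : Function.Injective encP := by
  intro p
  induction p with
  | inc i => intro q h; cases q <;> simp_all [encP]
  | dec i => intro q h; cases q <;> simp_all [encP]
  | seq p₁ p₂ ih1 ih2 =>
    intro q h
    cases q <;> simp only [encP, Nat.pair_eq_pair] at h
    · omega
    · omega
    · rw [ih1 h.2.1, ih2 h.2.2]
    · omega
  | loop i p ih =>
    intro q h
    cases q <;> simp only [encP, Nat.pair_eq_pair] at h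
    · omega
    · omega
    · omega
    · rw [h.2.1, ih h.2.2]

def cd (K : List Prog) : ℕ := 2 * Encodable.encode (K.map encP) + 1

theorem cd_inj {K K' : List Prog} (h : cd K = cd K') : K = K' := by
  unfold cd at h
  exact List.map_injective_iff.mpr encP_inj (Encodable.encode_injective (by omega))

def trans : Prog → List Prog → List Tr
  | .inc i, K => [(cd (.inc i :: K), cd K, i, 1)]
  | .dec i, K => [(cd (.dec i :: K), cd K, i, 2), (cd (.dec i :: K), cd K, i, 3)]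
  | .seq p q, K => (cd (.seq p q :: K), cd (p :: q :: K), 0, 0) :: (trans p (q :: K) ++ trans q K)
  | .loop i p, K => (cd (.loop i p :: K), cd K, i, 3) ::
      (cd (.loop i p :: K), cd (p :: .loop i p :: K), i, 4) :: trans p (.loop i p :: K)

inductive WS : List Prog → (ℕ → ℕ) → List Prog → (ℕ → ℕ) → Prop
  | inc (i K v) : WS (.inc i :: K) v K (update v i (v i + 1))
  | dec (i K v) : WS (.dec i :: K) v K (update v i (v i - 1))
  | seq (p q K v) : WS (.seq p q :: K) v (p :: q :: K) v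
  | loop0 (i p K v) : v i = 0 → WS (.loop i p :: K) v K v
  | loopS (i p K v) : 0 < v i → WS (.loop i p :: K) v (p :: .loop i p :: K) v

theorem ws_of_mem (p : Prog) : ∀ K, ∀ x ∈ trans p K, ∃ K₁ K₂, x.1 = cd K₁ ∧ x.2.1 = cd K₂ ∧
    x.2.2.2 ≤ 4 ∧ ∀ v v', Act x.2.2.1 x.2.2.2 v v' → WS K₁ v K₂ v' := by
  induction p with
  | inc i =>
    intro K x hx
    obtain rfl := List.mem_singleton.mp hx
    refine ⟨_, _, rfl, rfl, by simp, fun v v' h => ?_⟩
    obtain rfl : v' = update v i (v i + 1) := by simpa [Act] using h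
    exact .inc _ _ _
  | dec i =>
    intro K x hx
    simp only [trans, List.mem_cons, List.not_mem_nil, or_false] at hx
    rcases hx with rfl | rfl
    · refine ⟨_, _, rfl, rfl, by simp, fun v v' h => ?_⟩
      obtain ⟨-, rfl⟩ : 0 < v i ∧ v' = update v i (v i - 1) := by simpa [Act] using h
      exact .dec _ _ _
    · refine ⟨_, _, rfl, rfl, by simp, fun v v' h => ?_⟩
      obtain ⟨h0, rfl⟩ : v i = 0 ∧ v' = v := by simpa [Act] using h
      have := WS.dec i K v'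
      rwa [show v' i - 1 = v' i by omega, Function.update_eq_self] at this
  | seq p q ihp ihq =>
    intro K x hx
    simp only [trans, List.mem_cons, List.mem_append] at hx
    rcases hx with rfl | hx | hx
    · refine ⟨_, _, rfl, rfl, by simp, fun v v' h => ?_⟩
      obtain rfl : v' = v := by simpa [Act] using h
      exact .seq _ _ _ _
    · exact ihp _ _ hx
    · exact ihq _ _ hx
  | loop i p ih =>
    intro K x hx
    simp only [trans, List.mem_cons] at hx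
    rcases hx with rfl | rfl | hx
    · refine ⟨_, _, rfl, rfl, by simp, fun v v' h => ?_⟩
      obtain ⟨h0, rfl⟩ : v i = 0 ∧ v' = v := by simpa [Act] using h
      exact .loop0 _ _ _ _ h0
    · refine ⟨_, _, rfl, rfl, by simp, fun v v' h => ?_⟩
      obtain ⟨h0, rfl⟩ : 0 < v i ∧ v' = v := by simpa [Act] using h
      exact .loopS _ _ _ _ h0
    · exact ih _ _ hx

theorem stops_of_big {p v v'} (h : Big p v v') :
    ∀ K, (∃ m, Stops WS m K v') → ∃ m, Stops WS m (p :: K) v := by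
  induction h with
  | inc i σ =>
    intro K hK
    refine stops_of_step (fun s'' v'' hs => ?_) hK
    cases hs; exact ⟨rfl, rfl⟩
  | dec i σ =>
    intro K hK
    refine stops_of_step (fun s'' v'' hs => ?_) hK
    cases hs; exact ⟨rfl, rfl⟩
  | seq _ _ ih1 ih2 =>
    intro K hK
    refine stops_of_step (fun s'' v'' hs => ?_) (ih1 _ (ih2 K hK))
    cases hs; exact ⟨rfl, rfl⟩
  | loop0 h0 =>
    intro K hK
    refine stops_of_step (fun s'' v'' hs => ?_) hK
    cases hs with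
    | loop0 => exact ⟨rfl, rfl⟩
    | loopS => omega
  | loopS h0 _ _ ih1 ih2 =>
    intro K hK
    refine stops_of_step (fun s'' v'' hs => ?_) (ih1 _ (ih2 K hK))
    cases hs with
    | loop0 => omega
    | loopS => exact ⟨rfl, rfl⟩

theorem stops_trans (U : Prog) : ∀ m K v, Stops WS m K v → Stops (MStep (trans U [])) m (cd K) v := by
  intro m
  induction m with
  | zero => exact fun _ _ h => h
  | succ m ih =>
    rintro K v h q' v' ⟨i, k, hx, ha⟩
    obtain ⟨K₁, K₂, a, b, -, c⟩ := ws_of_mem U [] _ hx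
    obtain rfl := cd_inj a
    obtain rfl : q' = cd K₂ := b
    exact ih _ _ (h _ _ (c _ _ ha))

def Cov (U : Prog) : List Prog → Prop
  | [] => True
  | p :: K => trans p K ⊆ trans U [] ∧ Cov U K

def Term : List Prog → (ℕ → ℕ) → Prop
  | [], _ => True
  | p :: K, v => ∃ v', Big p v v' ∧ Term K v'

theorem live_trans {U : Prog} {v : ℕ → ℕ} (h : ¬ ∃ v', Big U v v') :
    Live (trans U []) (cd [U]) v := by
  refine ⟨fun q v => ∃ K, q = cd K ∧ Cov U K ∧ ¬ Term K v,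
    ⟨[U], rfl, ⟨fun _ h => h, trivial⟩, fun ⟨v', a, _⟩ => h ⟨v', a⟩⟩, ?_⟩
  rintro _ v ⟨K, rfl, hc, ht⟩
  cases K with
  | nil => exact absurd trivial ht
  | cons p K =>
    cases p with
    | inc i =>
      exact ⟨_, _, ⟨_, _, hc.1 List.mem_cons_self, .inr (.inl ⟨rfl, rfl⟩)⟩,
        K, rfl, hc.2, fun h => ht ⟨_, .inc _ _, h⟩⟩
    | dec i =>
      by_cases h0 : 0 < v i
      · exact ⟨_, _, ⟨_, _, hc.1 List.mem_cons_self, .inr (.inr (.inl ⟨rfl, h0, rfl⟩))⟩,
          K, rfl, hc.2, fun h => ht ⟨_, .dec _ _, h⟩⟩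
      · refine ⟨_, _, ⟨_, _, hc.1 (List.mem_cons_of_mem _ List.mem_cons_self),
          .inr (.inr (.inr (.inl ⟨rfl, by omega, rfl⟩)))⟩, K, rfl, hc.2, fun h => ht ⟨v, ?_, h⟩⟩
        have := Big.dec i v
        rwa [show v i - 1 = v i by omega, Function.update_eq_self] at this
    | seq p q =>
      refine ⟨_, _, ⟨_, _, hc.1 List.mem_cons_self, .inl ⟨rfl, rfl⟩⟩, p :: q :: K, rfl,
        ⟨fun x hx => hc.1 (by simp [trans, hx]), fun x hx => hc.1 (by simp [trans, hx]), hc.2⟩, ?_⟩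
      rintro ⟨v₁, h1, v₂, h2, h3⟩
      exact ht ⟨v₂, .seq h1 h2, h3⟩
    | loop i p =>
      by_cases h0 : 0 < v i
      · refine ⟨_, _, ⟨_, _, hc.1 (List.mem_cons_of_mem _ List.mem_cons_self),
          .inr (.inr (.inr (.inr ⟨rfl, h0, rfl⟩)))⟩, p :: .loop i p :: K, rfl,
          ⟨fun x hx => hc.1 (by simp [trans, hx]), hc⟩, ?_⟩
        rintro ⟨v₁, h1, v₂, h2, h3⟩
        exact ht ⟨v₂, .loopS h0 h1 h2, h3⟩
      · exact ⟨_, _, ⟨_, _, hc.1 List.mem_cons_self,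
          .inr (.inr (.inr (.inl ⟨rfl, by omega, rfl⟩)))⟩, K, rfl, hc.2,
          fun h => ht ⟨_, .loop0 (by omega), h⟩⟩

/-! ### the loader -/

/-- `n + 1` increments of counter `0`, then a jump to `s` -/
def load (tr : List Tr) (s n : ℕ) : List Tr :=
  (2 * n, s, 0, 1) :: (((List.range n).map fun j => (2 * j, 2 * (j + 1), 0, 1)) ++ tr)

theorem mem_load {tr s n x} : x ∈ load tr s n ↔
    x = (2 * n, s, 0, 1) ∨ (∃ j < n, x = (2 * j, 2 * (j + 1), 0, 1)) ∨ x ∈ tr := by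
  simp [load, eq_comm]

theorem stops_load {tr : List Tr} (h : ∀ x ∈ tr, x.1 % 2 = 1 ∧ x.2.1 % 2 = 1) {s n : ℕ}
    (hs : s % 2 = 1) (h1 : ∃ m, Stops (MStep tr) m s (update (fun _ => 0) 0 (n + 1))) :
    ∃ m, Stops (MStep (load tr s n)) m 0 fun _ => 0 := by
  have k1 : ∀ m a v, a % 2 = 1 → Stops (MStep tr) m a v → Stops (MStep (load tr s n)) m a v := by
    intro m
    induction m with
    | zero => exact fun _ _ _ h => h
    | succ m ih =>
      rintro a v ha hm q' v' ⟨i, k, hx, hA⟩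
      rcases mem_load.mp hx with e | ⟨j, -, e⟩ | hx
      · simp only [Prod.mk.injEq] at e; omega
      · simp only [Prod.mk.injEq] at e; omega
      · exact ih _ _ (h _ hx).2 (hm _ _ ⟨i, k, hx, hA⟩)
  have k2 : ∀ d j, j + d = n →
      ∃ m, Stops (MStep (load tr s n)) m (2 * j) (update (fun _ => 0) 0 j) := by
    intro d
    induction d with
    | zero =>
      intro j hj
      obtain rfl : j = n := by omega
      obtain ⟨m, hm⟩ := h1
      refine stops_of_step ?_ ⟨m, k1 m s _ hs hm⟩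
      rintro q' v' ⟨i, k, hx, hA⟩
      rcases mem_load.mp hx with e | ⟨j, c, e⟩ | hx
      · simp only [Prod.mk.injEq] at e
        obtain ⟨-, rfl, rfl, rfl⟩ := e
        simpa [Act] using hA
      · simp only [Prod.mk.injEq] at e; omega
      · have := (h _ hx).1; omega
    | succ d ih =>
      intro j hj
      refine stops_of_step ?_ (ih (j + 1) (by omega))
      rintro q' v' ⟨i, k, hx, hA⟩
      rcases mem_load.mp hx with e | ⟨j', c, e⟩ | hx
      · simp only [Prod.mk.injEq] at e; omega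
      · simp only [Prod.mk.injEq] at e
        obtain ⟨e, rfl, rfl, rfl⟩ := e
        obtain rfl : j = j' := by omega
        simpa [Act] using hA
      · have := (h _ hx).1; omega
  simpa using k2 n 0 (by omega)

theorem live_load {tr : List Tr} {s n : ℕ} (h1 : Live tr s (update (fun _ => 0) 0 (n + 1))) :
    Live (load tr s n) 0 fun _ => 0 := by
  obtain ⟨G, a, b⟩ := h1
  refine ⟨fun q v => G q v ∨ ∃ j ≤ n, q = 2 * j ∧ v = update (fun _ => 0) 0 j,
    .inr ⟨0, by omega, rfl, by simp⟩, ?_⟩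
  rintro q v (h | ⟨j, hj, rfl, rfl⟩)
  · obtain ⟨q', v', ⟨i, k, c, d⟩, e⟩ := b q v h
    exact ⟨q', v', ⟨i, k, mem_load.mpr (.inr (.inr c)), d⟩, .inl e⟩
  · rcases hj.eq_or_lt with rfl | hj
    · exact ⟨s, _, ⟨0, 1, mem_load.mpr (.inl rfl), .inr (.inl ⟨rfl, by simp⟩)⟩, .inl a⟩
    · exact ⟨_, _, ⟨0, 1, mem_load.mpr (.inr (.inl ⟨j, hj, rfl⟩)), .inr (.inl ⟨rfl, by simp⟩)⟩,
        .inr ⟨j + 1, hj, rfl, rfl⟩⟩

/-! ### idle steps at odd times -/

def slow (tr : List Tr) : List Tr :=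
  tr.flatMap fun x => [(2 * x.1, 2 * x.2.1 + 1, x.2.2), (2 * x.2.1 + 1, 2 * x.2.1, 0, 0)]

theorem mem_slow {tr y} : y ∈ slow tr ↔ ∃ x ∈ tr, y = (2 * x.1, 2 * x.2.1 + 1, x.2.2) ∨
    y = (2 * x.2.1 + 1, 2 * x.2.1, 0, 0) := by
  simp [slow]

theorem stops_slow {tr : List Tr} : ∀ m a v, Stops (MStep tr) m a v →
    Stops (MStep (slow tr)) (2 * m) (2 * a) v := by
  intro m
  induction m with
  | zero => exact fun _ _ h => h
  | succ m ih =>
    rintro a v h q' v' ⟨i, k, hx, hA⟩ q'' v'' ⟨i', k', hx', hA'⟩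
    obtain ⟨⟨x1, x2, x3, x4⟩, hx, e | e⟩ := mem_slow.mp hx
    swap
    · simp only [Prod.mk.injEq] at e; omega
    simp only [Prod.mk.injEq] at e
    obtain ⟨e, rfl, rfl, rfl⟩ := e
    obtain rfl : a = x1 := by omega
    obtain ⟨y, -, e | e⟩ := mem_slow.mp hx'
    · simp only [Prod.mk.injEq] at e; omega
    simp only [Prod.mk.injEq] at e
    obtain ⟨e, rfl, rfl, rfl⟩ := e
    obtain rfl : v'' = v' := by simpa [Act] using hA'
    rw [show y.2.1 = x2 by omega]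
    exact ih _ _ (h _ _ ⟨i, k, hx, hA⟩)

theorem live_slow {tr : List Tr} {a v} (h : Live tr a v) : Live (slow tr) (2 * a) v := by
  obtain ⟨G, h1, h2⟩ := h
  refine ⟨fun q v => ∃ a, G a v ∧ (q = 2 * a ∨ (q = 2 * a + 1 ∧ ∃ x ∈ tr, x.2.1 = a)),
    ⟨a, h1, .inl rfl⟩, ?_⟩
  rintro q v ⟨a, g, rfl | ⟨rfl, x, hx, rfl⟩⟩
  · obtain ⟨q', v', ⟨i, k, c, d⟩, e⟩ := h2 a v g
    exact ⟨_, v', ⟨i, k, mem_slow.mpr ⟨_, c, .inl rfl⟩, d⟩, q', e, .inr ⟨rfl, _, c, rfl⟩⟩
  · exact ⟨_, v, ⟨0, 0, mem_slow.mpr ⟨x, hx, .inr rfl⟩, .inl ⟨rfl, rfl⟩⟩, _, g, .inl rfl⟩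

/-- the shape of the machines used below -/
def MWF (C Q : ℕ) (tr : List Tr) : Prop :=
  ∀ x ∈ tr, x.1 < Q ∧ x.2.1 < Q ∧ x.2.1 ≠ 0 ∧ x.2.2.1 < C ∧ x.2.2.2 ≤ 4 ∧
    (x.1 + x.2.1) % 2 = 1 ∧ (x.1 % 2 = 1 → x.2.2.2 = 0)

open Nat.Partrec in
theorem exists_machine : ∃ (C A s : ℕ) (tr : List Tr), ∀ n : ℕ,
    MWF C (A + 4 * n) (slow (load tr s n)) ∧
    ((Code.eval (Denumerable.ofNat Code n) 0).Dom →
      ∃ m, Stops (MStep (slow (load tr s n))) m 0 fun _ => 0) ∧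
    (¬ (Code.eval (Denumerable.ofNat Code n) 0).Dom → Live (slow (load tr s n)) 0 fun _ => 0) := by
  obtain ⟨U, hU⟩ := exists_universal
  obtain ⟨C, hC⟩ : ∃ C, ∀ x ∈ trans U [], x.1 + x.2.1 + x.2.2.1 ≤ C :=
    ⟨((trans U []).map fun x => x.1 + x.2.1 + x.2.2.1).sum, fun x hx =>
      List.single_le_sum (by simp) _ (List.mem_map.mpr ⟨x, hx, rfl⟩)⟩
  have h1 : ∀ x ∈ trans U [], x.1 % 2 = 1 ∧ x.2.1 % 2 = 1 ∧ x.2.2.2 ≤ 4 := by
    intro x hx
    obtain ⟨K₁, K₂, a, b, c, -⟩ := ws_of_mem U [] x hx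
    rw [a, b, cd, cd]; omega
  have h2 : cd [U] % 2 = 1 := by rw [cd]; omega
  refine ⟨C + 1, 2 * C + 2 * cd [U] + 2, cd [U], trans U [], fun n => ⟨?_, fun h => ?_, fun h => ?_⟩⟩
  · intro y hy
    obtain ⟨x, hx, e⟩ := mem_slow.mp hy
    have : x.1 ≤ C + 2 * n ∧ x.2.1 ≤ C + cd [U] + 2 * n ∧ x.2.1 ≠ 0 ∧ x.2.2.1 ≤ C ∧
        x.2.2.2 ≤ 4 := by
      rcases mem_load.mp hx with rfl | ⟨j, c, rfl⟩ | hx
      · simp only; omega
      · simp only; omega
      · have := hC x hx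
        have := h1 x hx
        omega
    rcases e with rfl | rfl <;> dsimp only <;> omega
  · obtain ⟨v', hv⟩ := (hU n).mpr h
    obtain ⟨m, hm⟩ := stops_of_big hv [] ⟨1, fun _ _ h => by cases h⟩
    obtain ⟨m', hm'⟩ := stops_load (fun x hx => ⟨(h1 x hx).1, (h1 x hx).2.1⟩) h2
      ⟨m, stops_trans U _ _ _ hm⟩
    exact ⟨_, stops_slow m' 0 _ hm'⟩
  · exact live_slow (live_load (live_trans fun h' => h ((hU n).mp h')))

end Pool.Agent.P.MP_e7c2f2_al
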