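import Pool.Agent.P.MP_e7c2f2_al.Analysis

/-! Subwords with new labels; patterns obtained by projection; necessary conditions. -/

namespace Pool.Agent.P.MP_e7c2f2_al

open Finset

open Classical in
/-- the number of selected positions below `p` -/
noncomputable def rk (Q : ℕ → Prop) (p : ℕ) : ℕ := Nat.count Q p

open Classical in
/-- the selected positions below `n`, relabelled -/
noncomputable def sub (Q : ℕ → Prop) (lab : ℕ → ℕ) (n : ℕ) : List ℕ :=
  ((List.range n).filter fun p => decide (Q p)).map lab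

section

variable {Q : ℕ → Prop} {lab : ℕ → ℕ}

@[simp] theorem rk_zero : rk Q 0 = 0 := by simp [rk]

theorem rk_yes {p : ℕ} (h : Q p) : rk Q (p + 1) = rk Q p + 1 := by
  simp [rk, Nat.count_succ, h]

theorem rk_no {p : ℕ} (h : ¬ Q p) : rk Q (p + 1) = rk Q p := by
  simp [rk, Nat.count_succ, h]

theorem rk_mono {p q : ℕ} (h : p ≤ q) : rk Q p ≤ rk Q q := by
  classical
  exact Nat.count_monotone Q h

theorem rk_lt {p q : ℕ} (h : p < q) (hp : Q p) : rk Q p < rk Q q := by
  have := rk_mono (Q := Q) (show p + 1 ≤ q from h)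
  rw [rk_yes hp] at this
  omega

theorem lt_of_rk_lt {p q : ℕ} (h : rk Q p < rk Q q) : p < q := by
  by_contra hh
  have := rk_mono (Q := Q) (not_lt.mp hh)
  omega

theorem rk_inj {p q : ℕ} (hp : Q p) (hq : Q q) (h : rk Q p = rk Q q) : p = q := by
  rcases lt_trichotomy p q with h1 | h1 | h1
  · have := rk_lt h1 hp; omega
  · exact h1
  · have := rk_lt h1 hq; omega

theorem rk_surj {n i : ℕ} (h : i < rk Q n) : ∃ p < n, Q p ∧ rk Q p = i := by
  induction n with
  | zero => simp at h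
  | succ n ih =>
    by_cases h1 : i < rk Q n
    · obtain ⟨p, a, b⟩ := ih h1
      exact ⟨p, by omega, b⟩
    · by_cases h2 : Q n
      · rw [rk_yes h2] at h
        exact ⟨n, by omega, h2, by omega⟩
      · rw [rk_no h2] at h; omega

theorem sub_yes {n : ℕ} (h : Q n) : sub Q lab (n + 1) = sub Q lab n ++ [lab n] := by
  simp [sub, List.range_succ, List.filter_append, h]

theorem sub_no {n : ℕ} (h : ¬ Q n) : sub Q lab (n + 1) = sub Q lab n := by
  simp [sub, List.range_succ, List.filter_append, h]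

theorem length_sub (n : ℕ) : (sub Q lab n).length = rk Q n := by
  induction n with
  | zero => simp [sub]
  | succ n ih =>
    by_cases h : Q n
    · rw [sub_yes h, rk_yes h]; simp [ih]
    · rw [sub_no h, rk_no h, ih]

theorem take_sub {n p : ℕ} (h : p ≤ n) : (sub Q lab n).take (rk Q p) = sub Q lab p := by
  induction h with
  | refl => rw [← length_sub (lab := lab), List.take_length]
  | @step m hm ih =>
    by_cases h : Q m
    · rw [sub_yes h, List.take_append_of_le_length (by rw [length_sub]; exact rk_mono hm), ih]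
    · rw [sub_no h, ih]

theorem lt_sub {n p : ℕ} (h : p < n) (hp : Q p) : lt (sub Q lab n) (rk Q p) = lab p := by
  have h1 := take_sub (Q := Q) (lab := lab) (show p + 1 ≤ n from h)
  have h2 : rk Q p < (sub Q lab n).length := by rw [length_sub]; exact rk_lt h hp
  rw [rk_yes hp, take_succ_lt h2, take_sub h.le, sub_yes hp] at h1
  simpa using h1

/-- a letter all of whose occurrences are selected, with a label of its own -/
theorem kept {u : List ℕ} {a l : ℕ} (h1 : ∀ p < u.length, lt u p = a → Q p ∧ lab p = l)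
    (h2 : ∀ p < u.length, Q p → lab p = l → lt u p = a) :
    (sub Q lab u.length).count l = u.count a ∧
      ∀ p < u.length, lt u p = a → idx (sub Q lab u.length) (rk Q p) = idx u p := by
  apply occ_bij (g := rk Q)
  · intro p hp ha
    obtain ⟨b, c⟩ := h1 p hp ha
    exact ⟨by rw [length_sub]; exact rk_lt hp b, by rw [lt_sub hp b, c]⟩
  · intro p p' a b c _
    exact rk_lt a (h1 p (by omega) c).1
  · intro i hi he
    rw [length_sub] at hi
    obtain ⟨p, a, b, rfl⟩ := rk_surj hi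
    rw [lt_sub a b] at he
    exact ⟨p, a, h2 p a b he, rfl⟩

end

theorem length_le_mul {w : List ℕ} {r K : ℕ} (h1 : ∀ a ∈ w, a < r) (h2 : ∀ a, w.count a ≤ K) :
    w.length ≤ r * K := by
  rw [← List.sum_toFinset_count_eq_length]
  calc ∑ a ∈ w.toFinset, w.count a ≤ ∑ a ∈ range r, w.count a :=
        sum_le_sum_of_subset fun a ha => mem_range.mpr (h1 a (List.mem_toFinset.mp ha))
    _ ≤ ∑ _a ∈ range r, K := sum_le_sum fun a _ => h2 a
    _ = r * K := by simp

/-! ### projections -/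

def WF (P : Par) : Prop := 2 ≤ P.K ∧ 3 ≤ P.R ∧ P.R * P.K + 3 ≤ P.N

/-- positions whose letter lies in `Y` -/
def pQ (u Y : List ℕ) (p : ℕ) : Prop := lt u p ∈ Y

/-- the projection of `u` to the letters of `Y` -/
noncomputable def pW (u Y : List ℕ) : List ℕ :=
  sub (pQ u Y) (fun p => Y.idxOf (lt u p)) u.length

def Tight (u Y : List ℕ) (g : ℕ) : Prop :=
  g ≤ u.length ∧ (g = 0 ∨ lt u (g - 1) ∈ Y) ∧ (g = u.length ∨ lt u g ∈ Y)

def KK (K : ℕ) (u : List ℕ) (g : ℕ) : Prop := 0 < g ∧ Node K u (g - 1) ∧ Node K u g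

open Classical in
/-- the locked states of the projection -/
noncomputable def pA (K : ℕ) (u Y : List ℕ) (g₀ : ℕ) : List ℕ :=
  (List.range ((pW u Y).length + 1)).filter fun q =>
    decide (∃ g, Tight u Y g ∧ (g = g₀ ∨ ¬ KK K u g) ∧ rk (pQ u Y) g = q)

def mv (w : List ℕ) (l q : ℕ) : Option ℕ := if q < w.length ∧ lt w q = l then some (q + 1) else none

/-- letters of `Y` move one step, the letter `z` acts below the cut, the others act trivially -/
def pθ (w A : List ℕ) (c : ℕ) (Y : List ℕ) (z a : ℕ) : ℕ → Option ℕ :=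
  if a ∈ Y then mv w (Y.idxOf a) else if a = z then fMap w A c else eMap w A

theorem mv_some {w l q r} (h : mv w l q = some r) : q < w.length ∧ lt w q = l ∧ r = q + 1 := by
  unfold mv at h
  split_ifs at h with h1
  exact ⟨h1.1, h1.2, (Option.some.inj h).symm⟩

theorem isElt_pθ (K : ℕ) (w A : List ℕ) (c : ℕ) (Y : List ℕ) (z a : ℕ) :
    IsElt K w A c (pθ w A c Y z a) := by
  unfold pθ
  split_ifs
  · refine .inr (.inr ⟨fun q r h => ?_, .inr ⟨1, fun q r h => (mv_some h).2.2, ?_⟩⟩)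
    · have := mv_some h; omega
    · intro q q' d a b c
      obtain rfl : d = 0 := by omega
      obtain ⟨r, hr⟩ := Option.isSome_iff_exists.mp a
      obtain ⟨r', hr'⟩ := Option.isSome_iff_exists.mp b
      simp [(mv_some hr).2.1, (mv_some hr').2.1]
  · exact .inr (.inl rfl)
  · exact .inl rfl

theorem pid_pθ {w A c Y z a} (h : a ∉ Y) : PId w A (pθ w A c Y z a) := by
  unfold pθ
  rw [if_neg h]
  split_ifs
  · exact pId_f _ _ _
  · exact pId_e _ _

section

variable {u Y : List ℕ}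

theorem length_pW : (pW u Y).length = rk (pQ u Y) u.length := length_sub _

theorem lt_pW {p : ℕ} (hp : p < u.length) (h : lt u p ∈ Y) :
    lt (pW u Y) (rk (pQ u Y) p) = Y.idxOf (lt u p) := lt_sub hp h

theorem rk_lt_pW {p : ℕ} (hp : p < u.length) (h : lt u p ∈ Y) :
    rk (pQ u Y) p < (pW u Y).length := by
  rw [length_pW]; exact rk_lt hp h

theorem rk_le_pW {p : ℕ} (hp : p ≤ u.length) : rk (pQ u Y) p ≤ (pW u Y).length := by
  rw [length_pW]; exact rk_mono hp

theorem kept_pW {a : ℕ} (ha : a ∈ Y) : (pW u Y).count (Y.idxOf a) = u.count a ∧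
    ∀ p < u.length, lt u p = a → idx (pW u Y) (rk (pQ u Y) p) = idx u p :=
  kept (fun p _ h => ⟨by unfold pQ; rwa [h], by rw [h]⟩)
    (fun _ _ h1 h2 => (List.idxOf_inj h1).mp h2)

theorem count_pW {p : ℕ} (hp : p < u.length) (h : lt u p ∈ Y) :
    (pW u Y).count (lt (pW u Y) (rk (pQ u Y) p)) = u.count (lt u p) := by
  rw [lt_pW hp h, (kept_pW h).1]

theorem node_pW {K p : ℕ} (hp : p < u.length) (h : lt u p ∈ Y) :
    Node K (pW u Y) (rk (pQ u Y) p) ↔ Node K u p := by
  unfold Node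
  rw [count_pW hp h, (kept_pW h).2 p hp rfl]
  simp [hp, rk_lt_pW hp h]

theorem mem_pW {l : ℕ} (h : l ∈ pW u Y) : ∃ a ∈ Y, l = Y.idxOf a := by
  obtain ⟨i, hi, rfl⟩ := exists_lt_of_mem h
  rw [length_pW] at hi
  obtain ⟨p, a, b, rfl⟩ := rk_surj hi
  exact ⟨_, b, lt_pW a b⟩

theorem mem_pA {K g₀ q : ℕ} : q ∈ pA K u Y g₀ ↔
    ∃ g, Tight u Y g ∧ (g = g₀ ∨ ¬ KK K u g) ∧ rk (pQ u Y) g = q := by
  simp only [pA, List.mem_filter, List.mem_range, decide_eq_true_eq]
  refine ⟨fun h => h.2, fun h => ⟨?_, h⟩⟩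
  obtain ⟨g, a, -, rfl⟩ := h
  have := rk_le_pW (Y := Y) a.1
  omega

theorem not_mem_pA {K g₀ p : ℕ} (hp : p < u.length) (h : lt u p ∉ Y) :
    rk (pQ u Y) p ∉ pA K u Y g₀ := by
  rw [mem_pA]
  rintro ⟨g, ⟨a, b, c⟩, -, he⟩
  rcases lt_trichotomy g p with h1 | h1 | h1
  · rcases c with c | c
    · omega
    · have := rk_lt (Q := pQ u Y) h1 c; omega
  · subst h1
    rcases c with c | c
    · omega
    · exact h c
  · rcases b with b | b
    · omega
    · have h2 : p ≠ g - 1 := fun e => h (e ▸ b)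
      have h3 := rk_lt (Q := pQ u Y) (show g - 1 < g by omega) b
      have h4 := rk_mono (Q := pQ u Y) (show p ≤ g - 1 by omega)
      omega

theorem isRun_proj {K g₀ c z : ℕ} (hz : ∀ p < u.length, lt u p = z → z ∉ Y → rk (pQ u Y) p ≤ c) :
    IsRun (pθ (pW u Y) (pA K u Y g₀) c Y z) u (rk (pQ u Y)) := by
  intro p hp
  unfold pθ
  split_ifs with h1 h2
  · rw [rk_yes (Q := pQ u Y) h1]
    simp [mv, rk_lt_pW hp h1, lt_pW hp h1]
  · rw [rk_no (Q := pQ u Y) h1]
    simp [fMap, rk_le_pW hp.le, not_mem_pA hp h1, hz p hp h2 (h2 ▸ h1)]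
  · rw [rk_no (Q := pQ u Y) h1]
    simp [eMap, rk_le_pW hp.le, not_mem_pA hp h1]

theorem good_proj {P : Par} (hP : WF P) {g₀ c : ℕ} (hY : ∀ a ∈ Y, u.count a ≤ P.K)
    (hl : Y.length ≤ P.R) (hc : c ≤ (pW u Y).length)
    (hA : Tight u Y g₀ → KK P.K u g₀ →
      JA P.K (pW u Y) (pA P.K u Y g₀) (Y.idxOf (lt u (g₀ - 1))) ∨
      OKs P.B P.R P.T (WPt P.K (pW u Y) (· ∈ pA P.K u Y g₀)) (rk (pQ u Y) (g₀ - 1)))
    (hC : Node P.K (pW u Y) c → JA P.K (pW u Y) (pA P.K u Y g₀) (lt (pW u Y) c)) :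
    Good P (pW u Y) (pA P.K u Y g₀) c := by
  obtain ⟨w1, w2, w3⟩ := hP
  have h1 : ∀ a ∈ pW u Y, a < P.R := by
    intro l hl'
    obtain ⟨a, ha, rfl⟩ := mem_pW hl'
    exact (List.idxOf_lt_length_of_mem ha).trans_le hl
  have h2 : ∀ a ∈ pW u Y, (pW u Y).count a ≤ P.K := by
    intro l hl'
    obtain ⟨a, ha, rfl⟩ := mem_pW hl'
    rw [(kept_pW ha).1]; exact hY a ha
  have h3 : (pW u Y).length ≤ P.R * P.K := length_le_mul h1 fun a => by
    by_cases ha : a ∈ pW u Y
    · exact h2 a ha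
    · simp [List.count_eq_zero_of_not_mem ha]
  have h4 : P.R ≤ P.R * P.K := Nat.le_mul_of_pos_right _ (by omega)
  refine ⟨⟨by omega, fun a ha => by have := h1 a ha; omega, ?_, fun a ha => ?_, by omega⟩,
    h2, fun q hq h0 n1 n2 => ?_, hC⟩
  · have := List.length_filter_le (fun q => @decide (∃ g, Tight u Y g ∧ (g = g₀ ∨ ¬ KK P.K u g) ∧
      rk (pQ u Y) g = q) (Classical.propDecidable _)) (List.range ((pW u Y).length + 1))
    rw [List.length_range] at this
    exact le_trans this (by omega)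
  · have := List.mem_range.mp (List.mem_filter.mp ha).1
    omega
  · obtain ⟨g, ⟨a, b, c'⟩, d, rfl⟩ := mem_pA.mp hq
    have g0 : g ≠ 0 := by rintro rfl; simp at h0
    have gn : g ≠ u.length := by
      rintro rfl
      have := n2.1
      rw [length_pW] at this; omega
    have b' := b.resolve_left g0
    have c'' := c'.resolve_left gn
    have e : rk (pQ u Y) g - 1 = rk (pQ u Y) (g - 1) := by
      have := rk_yes (Q := pQ u Y) b'
      rw [show g - 1 + 1 = g by omega] at this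
      omega
    rw [e] at n1 ⊢
    have kk : KK P.K u g := ⟨by omega, (node_pW (by omega) b').mp n1,
      (node_pW (by omega) c'').mp n2⟩
    obtain rfl : g = g₀ := d.resolve_right (not_not.mpr kk)
    rw [lt_pW (by omega) b']
    exact hA ⟨a, b, c'⟩ kk

theorem ja_proj {K x : ℕ} (hx : u.count x ≤ K) (h : ¬ JF K u x) : ∃ b, u.count b ≤ K ∧
    ∀ Y g₀, x ∈ Y → b ∈ Y → JA K (pW u Y) (pA K u Y g₀) (Y.idxOf x) := by
  unfold JF at h
  push Not at h
  obtain ⟨p, hp, rfl, h⟩ := h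
  by_cases h1 : 0 < p ∧ K ≤ u.count (lt u (p - 1))
  · have h := h h1
    by_cases h2 : p + 1 < u.length
    · have h := h h2
      refine ⟨lt u (p + 1), h.le, fun Y g₀ a b => ⟨rk (pQ u Y) p, rk_lt_pW hp a, lt_pW hp a, .inr ?_⟩⟩
      rw [← rk_yes (Q := pQ u Y) a]
      refine ⟨mem_pA.mpr ⟨p + 1, ⟨h2.le, .inr a, .inr b⟩, .inr fun k => ?_, rfl⟩, .inr ?_⟩
      · have := k.2.2.2.1; omega
      · rwa [count_pW h2 b]
    · have e : p + 1 = u.length := by omega
      refine ⟨lt u p, hx, fun Y g₀ a _ => ⟨rk (pQ u Y) p, rk_lt_pW hp a, lt_pW hp a, .inr ?_⟩⟩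
      rw [← rk_yes (Q := pQ u Y) a]
      refine ⟨mem_pA.mpr ⟨p + 1, ⟨e.le, .inr a, .inl e⟩, .inr fun k => ?_, rfl⟩, .inl ?_⟩
      · have := k.2.2.1; omega
      · rw [e, length_pW]
  · by_cases h2 : p = 0
    · subst h2
      refine ⟨lt u 0, hx, fun Y g₀ a _ => ⟨rk (pQ u Y) 0, rk_lt_pW hp a, lt_pW hp a, .inl ?_⟩⟩
      refine ⟨mem_pA.mpr ⟨0, ⟨hp.le, .inl rfl, .inr a⟩, .inr fun k => ?_, rfl⟩, .inl rk_zero⟩
      have := k.1; omega
    · have h3 : u.count (lt u (p - 1)) < K := by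
        by_contra hh
        exact h1 ⟨by omega, not_lt.mp hh⟩
      refine ⟨lt u (p - 1), h3.le,
        fun Y g₀ a b => ⟨rk (pQ u Y) p, rk_lt_pW hp a, lt_pW hp a, .inl ?_⟩⟩
      refine ⟨mem_pA.mpr ⟨p, ⟨hp.le, .inr b, .inr a⟩, .inr fun k => ?_, rfl⟩, .inr ?_⟩
      · have := k.2.1.2.1; omega
      · have e := rk_yes (Q := pQ u Y) b
        rw [show p - 1 + 1 = p by omega] at e
        rw [e, Nat.add_sub_cancel, count_pW (by omega) b]
        exact h3

theorem wpt_proj {K g₀ b p p' : ℕ} (h1 : lt u p ∈ Y) (h2 : lt u p' ∈ Y)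
    (h : WPt K u (fun _ => True) b p p') :
    WPt K (pW u Y) (· ∈ pA K u Y g₀) b (rk (pQ u Y) p) (rk (pQ u Y) p') := by
  obtain ⟨n1, n2, i, a1, a2, a3, a4, a5, -⟩ := h
  have b1 : lt u i ∈ Y := a2 ▸ h1
  have b2 : lt u (i + 1) ∈ Y := a4 ▸ h2
  have e := rk_yes (Q := pQ u Y) b1
  refine ⟨(node_pW n1.1 h1).mpr n1, (node_pW n2.1 h2).mpr n2, rk (pQ u Y) i, ?_, ?_, ?_, ?_, ?_, ?_⟩
  · rw [← e]; exact rk_lt_pW a1 b2
  · rw [lt_pW (by omega) b1, lt_pW n1.1 h1, a2]
  · rw [(kept_pW b1).2 i (by omega) rfl, a3]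
  · rw [← e, lt_pW a1 b2, lt_pW n2.1 h2, a4]
  · rw [← e, (kept_pW b2).2 _ a1 rfl, a5]
  · rw [← e]
    refine mem_pA.mpr ⟨i + 1, ⟨a1.le, .inr b1, .inr b2⟩, .inr fun k => ?_, rfl⟩
    have := k.2.2.2.2; omega

/-- a verified gap is locked by the projection to the letters that play a role -/
theorem lock_proj {P : Par} (hP : WF P) {g : ℕ}
    (h : OKs P.B P.R P.T (WPt P.K u fun _ => True) g) :
    ∃ Y, lt u g ∈ Y ∧ lt u (g + 1) ∈ Y ∧ (∀ a ∈ Y, u.count a ≤ P.K) ∧ Node P.K u g ∧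
      Node P.K u (g + 1) ∧ Good P (pW u Y) (pA P.K u Y (g + 1)) (pW u Y).length := by
  obtain ⟨t, ht, ρ, r0, r1, hs, hst⟩ := h
  have hR := hP.2.1
  set Y := (List.range P.R).map fun r => lt u (ρ r) with hY
  have hm : ∀ r < P.R, lt u (ρ r) ∈ Y := fun r hr =>
    List.mem_map.mpr ⟨r, List.mem_range.mpr hr, rfl⟩
  have hc : ∀ a ∈ Y, u.count a ≤ P.K := by
    intro a ha
    obtain ⟨r, hr, rfl⟩ := List.mem_map.mp ha
    exact (hs.1 r (List.mem_range.mp hr)).1.2.1.le
  have m0 : lt u g ∈ Y := r0 ▸ hm 0 (by omega)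
  refine ⟨Y, m0, r1 ▸ hm 1 (by omega), hc, r0 ▸ (hs.1 0 (by omega)).1,
    r1 ▸ (hs.1 1 (by omega)).1, good_proj hP hc (by simp [hY]) le_rfl (fun _ _ => .inr ?_)
    (fun h => absurd h.1 (lt_irrefl _))⟩
  refine OKs.map ht (fun r => rk (pQ u Y) (ρ r)) hs hst (by simp [r0]) ?_ (by omega) r0
    (fun b r r' a a' h => wpt_proj (hm r a) (hm r' a') h) (fun r r' a _ h => rk_lt h (hm r a))
  simp only [r1, Nat.add_sub_cancel]
  exact rk_yes m0

end

/-! ### necessary conditions for a valid insertion -/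

theorem gap_of_fix {P : Par} (hP : WF P) {u : List ℕ} {g z : ℕ} (hg : g ≤ u.length)
    (hz : P.K < u.count z) (h : Fix P u g z) : Gap P u g := by
  by_contra hG
  unfold Gap at hG
  push Not at hG
  obtain ⟨l1, l2, l3⟩ := hG
  suffices hY : ∃ Y, (∀ a ∈ Y, u.count a ≤ P.K) ∧ Tight u Y g ∧
      Good P (pW u Y) (pA P.K u Y g) (pW u Y).length by
    obtain ⟨Y, a, b, c⟩ := hY
    have h1 := h _ _ _ c _ (isElt_pθ _ _ _ _ Y z) _
      (isRun_proj (K := P.K) (g₀ := g) fun p hp _ _ => rk_le_pW hp.le)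
    have hzY : z ∉ Y := fun hh => by have := a z hh; omega
    exact (pid_pθ hzY _ _ h1).2.2 (mem_pA.mpr ⟨g, b, .inl rfl, rfl⟩)
  have base : ∀ b, ∃ Y, (∀ a ∈ Y, u.count a ≤ P.K) ∧ Tight u Y g ∧ Y.length ≤ P.R ∧
      (u.count b ≤ P.K → b ∈ Y) := by
    intro b
    refine ⟨[lt u (g - 1), lt u g, b].filter fun a => u.count a ≤ P.K, fun a ha => ?_, ⟨hg, ?_, ?_⟩,
      (List.length_filter_le _ _).trans hP.2.1, fun hb => by simp [hb]⟩
    · simpa using (List.mem_filter.mp ha).2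
    · by_cases h0 : g = 0
      · exact .inl h0
      · exact .inr (by simp [l1 (by omega)])
    · by_cases h0 : g = u.length
      · exact .inl h0
      · exact .inr (by simp [l2 (by omega)])
  by_cases kk : KK P.K u g
  · by_cases jf : JF P.K u (lt u (g - 1))
    · obtain ⟨Y, a, b, c, -, -, d⟩ := lock_proj hP (l3 kk.1 kk.2.1 kk.2.2 jf)
      rw [show g - 1 + 1 = g by have := kk.1; omega] at b d
      exact ⟨Y, c, ⟨hg, .inr a, .inr b⟩, d⟩
    · obtain ⟨b, hb, hJ⟩ := ja_proj kk.2.1.2.1.le jf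
      obtain ⟨Y, a1, a2, a3, a4⟩ := base b
      refine ⟨Y, a1, a2, good_proj hP a1 a3 le_rfl (fun _ _ => .inl (hJ Y g ?_ (a4 hb)))
        (fun h => absurd h.1 (lt_irrefl _))⟩
      exact a2.2.1.resolve_left (by have := kk.1; omega)
  · obtain ⟨Y, a1, a2, a3, -⟩ := base 0
    exact ⟨Y, a1, a2, good_proj hP a1 a3 le_rfl (fun _ h => absurd h kk)
      (fun h => absurd h.1 (lt_irrefl _))⟩

theorem pass_of_fix {P : Par} (hP : WF P) {u : List ℕ} {g z p : ℕ} (hg : g ≤ u.length)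
    (hz : P.K < u.count z) (h : Fix P u g z) (hp : p < g)
    (hl : ∀ p' < u.length, lt u p' = z → p' < p) : Pass P u p := by
  by_contra hG
  unfold Pass at hG
  push Not at hG
  obtain ⟨l1, l2⟩ := hG
  have hp' : p < u.length := by omega
  suffices hY : ∃ Y, (∀ a ∈ Y, u.count a ≤ P.K) ∧ lt u p ∈ Y ∧
      Good P (pW u Y) (pA P.K u Y (u.length + 1)) (rk (pQ u Y) p) by
    obtain ⟨Y, a, b, c⟩ := hY
    have h1 := h _ _ _ c _ (isElt_pθ _ _ _ _ Y z) _
      (isRun_proj (K := P.K) (g₀ := u.length + 1) fun p' hp' e _ => rk_mono (hl p' hp' e).le)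
    have hzY : z ∉ Y := fun hh => by have := a z hh; omega
    have h2 := rk_lt (Q := pQ u Y) hp b
    simp only [pθ, hzY, if_false, if_true, fMap] at h1
    split_ifs at h1 with h3
    omega
  by_cases nd : Node P.K u p
  · obtain ⟨b, hb, hJ⟩ := ja_proj l1 (l2 nd)
    have m : lt u p ∈ [lt u p, b] := by simp
    refine ⟨[lt u p, b], by simp [l1, hb], m, good_proj hP (by simp [l1, hb])
      (by have := hP.2.1; simp; omega) (rk_le_pW hp'.le)
      (fun h => by have := h.1; omega) fun _ => ?_⟩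
    rw [lt_pW hp' m]
    exact hJ _ _ m (by simp)
  · have m : lt u p ∈ [lt u p] := by simp
    exact ⟨[lt u p], by simp [l1], m, good_proj hP (by simp [l1])
      (by have := hP.2.1; simp; omega) (rk_le_pW hp'.le)
      (fun h => by have := h.1; omega) fun h => absurd ((node_pW hp' m).mp h) nd⟩

/-! ### invariants of valid identities -/

theorem proj_read {w A c Y z} : ∀ (v : List ℕ) {q r : ℕ}, run (pθ w A c Y z) v q = some r →
    w.drop q = (v.filter fun a => a ∈ Y).map Y.idxOf ++ w.drop r := by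
  intro v
  induction v with
  | nil => intro q r h; cases h; rfl
  | cons a v ih =>
    intro q r h
    obtain ⟨t, h1, h2⟩ := Option.bind_eq_some_iff.mp h
    by_cases ha : a ∈ Y
    · simp only [pθ, ha, if_true] at h1
      obtain ⟨b1, b2, rfl⟩ := mv_some h1
      rw [List.drop_eq_getElem_cons b1, ih h2, ← lt_eq b1, b2]
      simp [ha]
    · rw [(pid_pθ ha _ _ h1).1] at h2
      rw [ih h2]; simp [ha]

theorem map_idxOf_inj {Y : List ℕ} : ∀ {a b : List ℕ}, (∀ x ∈ a, x ∈ Y) →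
    a.map Y.idxOf = b.map Y.idxOf → a = b := by
  intro a
  induction a with
  | nil => intro b _ h; simpa using h.symm
  | cons x a ih =>
    intro b h1 h
    cases b with
    | nil => simp at h
    | cons y b =>
      simp only [List.map_cons, List.cons.injEq] at h
      rw [(List.idxOf_inj (h1 x (by simp))).mp h.1, ih (fun x hx => h1 x (by simp [hx])) h.2]

theorem Valid.filter_eq {P : Par} (hP : WF P) {u v : List ℕ} (h : Valid P u v) {x y : ℕ}
    (hx : u.count x ≤ P.K) (hy : u.count y ≤ P.K) :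
    (u.filter fun a => a ∈ [x, y]) = v.filter fun a => a ∈ [x, y] := by
  have hG : Good P (pW u [x, y]) (pA P.K u [x, y] (u.length + 1)) (pW u [x, y]).length :=
    good_proj hP (by simp [hx, hy]) (by have := hP.2.1; simp; omega) le_rfl
      (fun h => by have := h.1; omega) (fun h => absurd h.1 (lt_irrefl _))
  have h1 := (isRun_proj (u := u) (Y := [x, y]) (K := P.K) (g₀ := u.length + 1) (z := 0)
    fun p hp _ _ => rk_le_pW hp.le).run
  have h2 := h1
  rw [h _ _ _ hG _ (isElt_pθ _ _ _ _ _ _)] at h2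
  have h3 := (proj_read _ h1).symm.trans (proj_read _ h2)
  rw [List.append_cancel_right_eq] at h3
  exact map_idxOf_inj (fun a ha => by simpa using (List.mem_filter.mp ha).2) h3

theorem Valid.count_eq {P : Par} (hP : WF P) {u v : List ℕ} (h : Valid P u v) {x : ℕ}
    (hx : u.count x ≤ P.K) : v.count x = u.count x := by
  have := congrArg (List.count x) (h.filter_eq hP hx hx)
  simpa [List.count_filter] using this.symm

theorem Valid.inert {P : Par} (hP : WF P) {u v : List ℕ} (h : Valid P u v) {x : ℕ}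
    (hx : P.K < u.count x) : P.K < v.count x := by
  by_contra hh
  have := h.symm.count_eq hP (not_lt.mp hh)
  omega

/-- no occurrence of `b` follows an occurrence of `a` -/
def Before (b a : ℕ) (s : List ℕ) : Prop :=
  ∀ p < s.length, ∀ p' < s.length, lt s p = b → lt s p' = a → p < p'

theorem Valid.before {P : Par} (hP : WF P) {s t : List ℕ} (h : Valid P s t) {a b : ℕ}
    (ha : s.count a < P.K) (hab : b ≠ a) (hb : Before b a s) : Before b a t := by
  have hG : Good P (pW s [a]) (pA P.K s [a] (s.length + 1)) 0 := by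
    refine good_proj hP (by simp [ha.le]) (by have := hP.2.1; simp; omega) (Nat.zero_le _)
      (fun h => by have := h.1; omega) (fun h => ?_)
    obtain ⟨a', h1, h2⟩ := mem_pW (lt_mem h.1)
    have h3 := h.2.1
    rw [h2, (kept_pW h1).1, List.mem_singleton.mp h1] at h3
    omega
  have h1 := (isRun_proj (u := s) (Y := [a]) (K := P.K) (g₀ := s.length + 1) (z := b) (c := 0)
    fun p hp e _ => by
      by_contra hh
      obtain ⟨p', a1, a2, -⟩ := rk_surj (show 0 < rk (pQ s [a]) p by omega)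
      have := hb p hp p' (by omega) e (List.mem_singleton.mp a2)
      omega).run
  have hθ := isElt_pθ P.K (pW s [a]) (pA P.K s [a] (s.length + 1)) 0 [a] b
  rw [h _ _ _ hG _ hθ] at h1
  obtain ⟨σ, -, -, hr⟩ := exists_isRun h1
  intro p hp p' hp' e e'
  by_contra hh
  have hne : p' ≠ p := fun h => hab (by rw [← e, ← e', h])
  have h2 := hr p' hp'
  have h3 := hr p hp
  rw [e'] at h2
  rw [e] at h3
  simp only [pθ, List.mem_singleton, if_true, hab, if_false, fMap] at h2 h3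
  have h4 := (mv_some h2).2.2
  have h5 := run_mono hθ hr (show p' + 1 ≤ p by omega) hp.le
  split_ifs at h3 with h6
  omega

theorem Valid.lock {P : Par} (hP : WF P) {u v : List ℕ} (h : Valid P u v) {g : ℕ}
    (hO : OKs P.B P.R P.T (WPt P.K u fun _ => True) g) {p : ℕ} (hp : p < v.length)
    (h1 : lt v p = lt u g) (h2 : idx v p = 0) :
    p + 1 < v.length ∧ lt v (p + 1) = lt u (g + 1) ∧ idx v (p + 1) = 0 := by
  obtain ⟨Y, m0, m1, hc, n0, n1, hG⟩ := lock_proj hP hO
  have hθ := isElt_pθ P.K (pW u Y) (pA P.K u Y (g + 1)) (pW u Y).length Y 0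
  have h3 := (isRun_proj (u := u) (Y := Y) (K := P.K) (g₀ := g + 1) (z := 0)
    fun p hp _ _ => rk_le_pW hp.le).run
  rw [h _ _ _ hG _ hθ] at h3
  obtain ⟨σ, -, hend, hr⟩ := exists_isRun h3
  have key : ∀ p < v.length, lt v p ∈ Y → u.count (lt v p) = P.K →
      σ p < (pW u Y).length ∧ lt (pW u Y) (σ p) = Y.idxOf (lt v p) ∧ σ (p + 1) = σ p + 1 ∧
        idx (pW u Y) (σ p) = idx v p := by
    intro p hp a b
    have h4 := hr p hp
    simp only [pθ, a, if_true] at h4
    obtain ⟨c1, c2, c3⟩ := mv_some h4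
    refine ⟨c1, c2, c3, ?_⟩
    rcases run_step hθ hr hp with d | d
    · omega
    obtain ⟨k, hb⟩ := exists_blk hG hθ hr hp d.1 (by rw [h.count_eq hP b.le, b])
    exact (hb.role p hp rfl 0 hb.pos).2
  obtain ⟨a1, a2, a3, a4⟩ := key p hp (h1 ▸ m0) (h1 ▸ n0.2.1)
  have e : σ p = rk (pQ u Y) g := pos_unique a1 (rk_lt_pW n0.1 m0)
    (by rw [a2, lt_pW n0.1 m0, h1]) (by rw [a4, h2, (kept_pW m0).2 g n0.1 rfl, n0.2.2])
  have e1 : σ (p + 1) = rk (pQ u Y) (g + 1) := by rw [rk_yes (Q := pQ u Y) m0, a3, e]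
  have hA : σ (p + 1) ∈ pA P.K u Y (g + 1) :=
    mem_pA.mpr ⟨g + 1, ⟨n1.1.le, .inr m0, .inr m1⟩, .inl rfl, e1.symm⟩
  have hp1 : p + 1 < v.length := by
    by_contra hh
    have : p + 1 = v.length := by omega
    rw [this, hend] at e1
    have := rk_lt (Q := pQ u Y) n1.1 m1
    omega
  have hb : lt v (p + 1) ∈ Y := by
    by_contra hh
    exact (pid_pθ hh _ _ (hr _ hp1)).2.2 hA
  have h4 := hr _ hp1
  simp only [pθ, hb, if_true] at h4
  have h5 := (mv_some h4).2.1
  rw [e1, lt_pW n1.1 m1] at h5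
  have h6 : lt v (p + 1) = lt u (g + 1) := ((List.idxOf_inj m1).mp h5).symm
  refine ⟨hp1, h6, ?_⟩
  rw [← (key _ hp1 hb (h6 ▸ n1.2.1)).2.2.2, e1, (kept_pW m1).2 _ n1.1 rfl, n1.2.2]

end Pool.Agent.P.MP_e7c2f2_al
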