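import Pool.Agent.P.MP_e7c2f2_al.Comp
import Pool.Agent.P.MP_e7c2f2_al.Sub

/-! The table is the table of a semigroup whose identities are the valid identities. -/

namespace Pool.Agent.P.MP_e7c2f2_al

theorem lt_cmp (s s' : List ℕ) (q : ℕ) :
    lt (cmp s s') q = if lt s q = 0 then 0 else lt s' (lt s q - 1) := by
  by_cases h : q < s.length
  · rw [lt_eq (by simpa [cmp] using h), lt_eq h]; simp [cmp]
  · rw [lt_ge (by simpa [cmp] using h), lt_ge (not_lt.mp h)]; rfl

theorem length_cmp (s s' : List ℕ) : (cmp s s').length = s.length := by simp [cmp]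

theorem app_cmp (s s' : List ℕ) : app (cmp s s') = fun q => (app s q).bind (app s') := by
  funext q
  unfold app
  rw [lt_cmp]
  by_cases h : lt s q = 0 <;> simp [h]

theorem cmp_assoc (a b c : List ℕ) : cmp (cmp a b) c = cmp a (cmp b c) :=
  app_inj (by simp [length_cmp]) (by
    simp only [app_cmp]
    funext q
    rw [Option.bind_assoc])

theorem cmp_nil {a b : List ℕ} : cmp a b = [] ↔ a = [] := by simp [cmp]

theorem mul_assoc' (a b c : El) : mul (mul a b) c = mul a (mul b c) := by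
  unfold mul
  by_cases h1 : a.1 = b.1 ∧ ¬ a.2 = [] ∧ ¬ b.2 = [] <;>
    by_cases h2 : b.1 = c.1 ∧ ¬ b.2 = [] ∧ ¬ c.2 = []
  · simp [h1, h2, cmp_nil, cmp_assoc]
  · rw [if_pos h1, if_neg h2, if_neg, if_neg (by simp [zer])]
    simp only [cmp_nil]
    exact fun h => h2 ⟨h1.1 ▸ h.1, h1.2.2, h.2.2⟩
  · rw [if_neg h1, if_pos h2, if_neg (by simp [zer]), if_neg]
    simp only [cmp_nil]
    exact h1
  · rw [if_neg h1, if_neg h2, if_neg (by simp [zer]), if_neg (by simp [zer])]

theorem isElt_bound {K w A c s} (h : IsElt K w A c s) {q r : ℕ} (e : s q = some r) :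
    q ≤ w.length ∧ r ≤ w.length := by
  rcases h.cases with h | h
  · have := h q r e; omega
  · have := h.1 q r e; omega

section

variable {P : Par}

/-- the elements of the semigroup -/
noncomputable abbrev elP (P : Par) : List El := els P.K P.B P.R P.N P.T

noncomputable abbrev tbP (P : Par) : List (List ℕ) := table P.K P.B P.R P.N P.T

theorem WF.le (hP : WF P) : P.R ≤ P.N := by
  obtain ⟨a, b, c⟩ := hP
  have : P.R ≤ P.R * P.K := Nat.le_mul_of_pos_right _ (by omega)
  omega

theorem mem_els (hP : WF P) {a : El} : a ∈ elP P ↔ a = zer ∨ (Good P a.1.1 a.1.2.1 a.1.2.2 ∧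
    a.2.length = a.1.1.length + 1 ∧ IsElt P.K a.1.1 a.1.2.1 a.1.2.2 (app a.2)) := by
  obtain ⟨⟨w, A, c⟩, s⟩ := a
  simp only [elP, els, List.mem_cons, mem_flt, List.mem_flatMap, List.mem_map, List.mem_range,
    Prod.mk.injEq, eltC_iff, good_iff (show 2 ≤ P.R by have := hP.2.1; omega) hP.le]
  refine or_congr_right ⟨?_, ?_⟩
  · rintro ⟨⟨w', a, A', b, c', d, s', -, ⟨rfl, rfl, rfl⟩, rfl⟩, e, f⟩
    exact ⟨⟨a, b, d, e⟩, f⟩
  · rintro ⟨⟨a, b, d, e⟩, f⟩
    refine ⟨⟨w, a, A, b, c, d, s, mem_allL.mpr ⟨by have := e.1; omega, fun x hx => ?_⟩,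
      ⟨rfl, rfl, rfl⟩, rfl⟩, e, f⟩
    obtain ⟨q, hq, rfl⟩ := exists_lt_of_mem hx
    have := e.1
    by_cases h0 : lt s q = 0
    · omega
    · have := isElt_bound f.2 (app_some.mpr (show lt s q = lt s q - 1 + 1 by omega))
      omega

theorem mul_mem (hP : WF P) {a b : El} (ha : a ∈ elP P) (hb : b ∈ elP P) : mul a b ∈ elP P := by
  rw [mem_els hP] at ha hb ⊢
  unfold mul
  split_ifs with h
  · right
    obtain ⟨a1, a2, a3⟩ := ha.resolve_left (by rintro rfl; exact h.2.1 rfl)
    obtain ⟨-, -, b3⟩ := hb.resolve_left (by rintro rfl; exact h.2.2 rfl)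
    rw [← h.1] at b3
    exact ⟨a1, by rw [length_cmp]; exact a2, by rw [app_cmp]; exact a3.comp b3⟩
  · exact .inl rfl

theorem ix_lt {L : List El} {a : El} (h : a ∈ L) : ix L a < L.length :=
  @List.idxOf_lt_length_of_mem El a instBEqOfDecidableEq _ L h

theorem getD_ix {L : List El} {a : El} (h : a ∈ L) : L.getD (ix L a) zer = a := by
  rw [List.getD_eq_getElem _ _ (ix_lt h)]
  exact @List.getElem_idxOf El instBEqOfDecidableEq _ a L (ix_lt h)

theorem length_tb : (tbP P).length = (elP P).length := by simp [table]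

theorem ev_mem {x : ℕ} (h : x < (tbP P).length) : (elP P).getD x zer ∈ elP P := by
  rw [length_tb] at h
  rw [List.getD_eq_getElem _ _ h]; exact List.getElem_mem h

theorem op_eq {x y : ℕ} (hx : x < (tbP P).length) (hy : y < (tbP P).length) :
    ((tbP P).getD x []).getD y 0 = ix (elP P) (mul ((elP P).getD x zer) ((elP P).getD y zer)) := by
  rw [List.getD_eq_getElem _ _ hx]
  rw [length_tb] at hx hy
  rw [List.getD_eq_getElem _ _ hx, List.getD_eq_getElem _ _ hy]
  simp [table, List.getD_eq_getElem?_getD, hy]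

theorem op_lt (hP : WF P) {x y : ℕ} (hx : x < (tbP P).length) (hy : y < (tbP P).length) :
    ((tbP P).getD x []).getD y 0 < (tbP P).length := by
  rw [op_eq hx hy, length_tb]
  exact ix_lt (mul_mem hP (ev_mem hx) (ev_mem hy))

theorem ev_op (hP : WF P) {x y : ℕ} (hx : x < (tbP P).length) (hy : y < (tbP P).length) :
    (elP P).getD (((tbP P).getD x []).getD y 0) zer =
      mul ((elP P).getD x zer) ((elP P).getD y zer) := by
  rw [op_eq hx hy]
  exact getD_ix (mul_mem hP (ev_mem hx) (ev_mem hy))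

theorem table_shape (hP : WF P) :
    ∀ r ∈ tbP P, r.length = (tbP P).length ∧ ∀ x ∈ r, x < (tbP P).length := by
  intro r hr
  obtain ⟨a, ha, rfl⟩ := List.mem_map.mp hr
  refine ⟨by simp [table], fun x hx => ?_⟩
  obtain ⟨b, hb, rfl⟩ := List.mem_map.mp hx
  rw [length_tb]
  exact ix_lt (mul_mem hP ha hb)

theorem table_assoc (hP : WF P) (a b c : ℕ) (ha : a < (tbP P).length) (hb : b < (tbP P).length)
    (hc : c < (tbP P).length) : ((tbP P).getD (((tbP P).getD a []).getD b 0) []).getD c 0 =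
      ((tbP P).getD a []).getD (((tbP P).getD b []).getD c 0) 0 := by
  rw [op_eq (op_lt hP ha hb) hc, op_eq ha (op_lt hP hb hc), ev_op hP ha hb, ev_op hP hb hc,
    mul_assoc']

theorem fold_eq (hP : WF P) : ∀ (l : List ℕ) (h : ℕ), h < (tbP P).length →
    (∀ x ∈ l, x < (tbP P).length) →
    (elP P).getD (l.foldl (fun x y => ((tbP P).getD x []).getD y 0) h) zer =
      (l.map fun x => (elP P).getD x zer).foldl mul ((elP P).getD h zer) ∧
    (l ≠ [] → l.foldl (fun x y => ((tbP P).getD x []).getD y 0) h =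
      ix (elP P) ((l.map fun x => (elP P).getD x zer).foldl mul ((elP P).getD h zer))) := by
  intro l
  induction l with
  | nil => intro h _ _; simp
  | cons y l ih =>
    intro h hh hl
    have hy := hl y (by simp)
    have := ih _ (op_lt hP hh hy) fun x hx => hl x (by simp [hx])
    rw [ev_op hP hh hy] at this
    refine ⟨this.1, fun _ => ?_⟩
    by_cases h0 : l = []
    · subst h0; exact op_eq hh hy
    · exact this.2 h0

end

/-! ### products of elements and runs -/

theorem prod_same {θ : ℕ → El} {π} : ∀ (l : List ℕ) (s : List ℕ), s ≠ [] →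
    (∀ a ∈ l, (θ a).1 = π ∧ (θ a).2 ≠ []) → ∃ s', (l.map θ).foldl mul (π, s) = (π, s') ∧
      s'.length = s.length ∧ app s' = fun q => (app s q).bind (run (fun a => app (θ a).2) l) := by
  intro l
  induction l with
  | nil => intro s _ _; exact ⟨s, rfl, rfl, by funext q; simp [run]⟩
  | cons a l ih =>
    intro s hs h
    have ha := h a (by simp)
    obtain ⟨s', e1, e2, e3⟩ := ih (cmp s (θ a).2) (by simpa [cmp_nil] using hs)
      fun x hx => h x (by simp [hx])
    refine ⟨s', ?_, by rw [e2, length_cmp], ?_⟩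
    · rw [List.map_cons, List.foldl_cons, mul, if_pos ⟨ha.1.symm, hs, ha.2⟩]
      exact e1
    · rw [e3, app_cmp]
      funext q
      rw [Option.bind_assoc]; rfl

theorem prod_zer (l : List El) : l.foldl mul zer = zer := by
  induction l with
  | nil => rfl
  | cons a l ih => rw [List.foldl_cons, mul, if_neg (by simp [zer]), ih]

theorem prod_not {θ : ℕ → El} : ∀ (l : List ℕ) (x : El), x.2 ≠ [] →
    (¬ ∀ a ∈ l, (θ a).1 = x.1 ∧ (θ a).2 ≠ []) → (l.map θ).foldl mul x = zer := by
  intro l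
  induction l with
  | nil => intro x _ h; simp at h
  | cons a l ih =>
    intro x hx h
    rw [List.map_cons, List.foldl_cons, mul]
    split_ifs with h1
    · refine ih _ (by simpa [cmp_nil] using hx) fun h2 => h fun b hb => ?_
      rcases List.mem_cons.mp hb with rfl | hb
      · exact ⟨h1.1.symm, h1.2.2⟩
      · exact h2 b hb
    · exact prod_zer _

theorem run_congr {θ θ' : ℕ → ℕ → Option ℕ} : ∀ {u : List ℕ}, (∀ a ∈ u, θ a = θ' a) →
    run θ u = run θ' u := by
  intro u
  induction u with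
  | nil => intro _; rfl
  | cons a u ih =>
    intro h
    funext q
    simp only [run, h a (by simp), ih fun b hb => h b (by simp [hb])]

theorem Valid.mem {P : Par} (hP : WF P) {u v : List ℕ} (h : Valid P u v) {a : ℕ} (ha : a ∈ u) :
    a ∈ v := by
  rw [← List.count_pos_iff] at ha ⊢
  by_cases h1 : u.count a ≤ P.K
  · rwa [h.count_eq hP h1]
  · have := h.inert hP (not_le.mp h1); omega

theorem prod_eq_of_valid {P : Par} (hP : WF P) {x y : ℕ} {l l' : List ℕ}
    (h : Valid P (x :: l) (y :: l')) {θ : ℕ → El} (hθ : ∀ a, θ a ∈ elP P) :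
    (l.map θ).foldl mul (θ x) = (l'.map θ).foldl mul (θ y) := by
  classical
  have z : ∀ a, (θ a).2 = [] → θ a = zer := fun a e =>
    ((mem_els hP).mp (hθ a)).resolve_right fun h => by rw [e] at h; simp at h
  have bad : ∀ (x : ℕ) (l : List ℕ), (¬ ∃ π, ∀ a ∈ x :: l, (θ a).1 = π ∧ (θ a).2 ≠ []) →
      (l.map θ).foldl mul (θ x) = zer := by
    intro x l h
    by_cases h0 : (θ x).2 = []
    · rw [z x h0, prod_zer]
    · refine prod_not l _ h0 fun h1 => h ⟨(θ x).1, fun a ha => ?_⟩
      rcases List.mem_cons.mp ha with rfl | ha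
      · exact ⟨rfl, h0⟩
      · exact h1 a ha
  by_cases h1 : ∃ π, ∀ a ∈ x :: l, (θ a).1 = π ∧ (θ a).2 ≠ []
  swap
  · rw [bad x l h1, bad y l' fun ⟨π, h2⟩ => h1 ⟨π, fun a ha => h2 a (h.mem hP ha)⟩]
  obtain ⟨π, h1⟩ := h1
  have h2 : ∀ a ∈ y :: l', (θ a).1 = π ∧ (θ a).2 ≠ [] := fun a ha => h1 a (h.symm.mem hP ha)
  have h3 : ∀ a, (θ a).1 = π ∧ (θ a).2 ≠ [] → Good P π.1 π.2.1 π.2.2 ∧
      (θ a).2.length = π.1.length + 1 ∧ IsElt P.K π.1 π.2.1 π.2.2 (app (θ a).2) := by
    rintro a ⟨rfl, e⟩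
    exact ((mem_els hP).mp (hθ a)).resolve_left fun h => e (by rw [h]; rfl)
  have hx := h1 x (by simp)
  have hy := h2 y (by simp)
  obtain ⟨s, e1, e2, e3⟩ := prod_same l _ hx.2 fun a ha => h1 a (by simp [ha])
  obtain ⟨s', f1, f2, f3⟩ := prod_same l' _ hy.2 fun a ha => h2 a (by simp [ha])
  rw [show θ x = (π, (θ x).2) from Prod.ext hx.1 rfl, show θ y = (π, (θ y).2) from Prod.ext hy.1 rfl,
    e1, f1]
  congr 1
  refine app_inj (by rw [e2, f2, (h3 x hx).2.1, (h3 y hy).2.1]) ?_
  let θ' : ℕ → ℕ → Option ℕ := fun a =>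
    if (θ a).1 = π ∧ (θ a).2 ≠ [] then app (θ a).2 else eMap π.1 π.2.1
  have h4 := h _ _ _ (h3 x hx).1 θ' fun a => by
    simp only [θ']
    split_ifs with c
    · exact (h3 a c).2.2
    · exact .inl rfl
  rw [run_congr (θ' := fun a => app (θ a).2) fun a ha => if_pos (h1 a ha),
    run_congr (θ' := fun a => app (θ a).2) fun a ha => if_pos (h2 a ha)] at h4
  rw [e3, f3]
  exact funext h4

theorem valid_of_prod_eq {P : Par} (hP : WF P) {x y : ℕ} {l l' : List ℕ}
    (h : ∀ θ : ℕ → El, (∀ a, θ a ∈ elP P) →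
      (l.map θ).foldl mul (θ x) = (l'.map θ).foldl mul (θ y)) : Valid P (x :: l) (y :: l') := by
  intro w A c hG θ hθ q
  let code : ℕ → List ℕ := fun a =>
    (List.range (w.length + 1)).map fun q => ((θ a q).map (· + 1)).getD 0
  have h1 : ∀ a, app (code a) = θ a := by
    intro a
    funext q
    unfold app
    by_cases hq : q < w.length + 1
    · rw [lt_eq (by simpa [code] using hq)]
      cases e : θ a q <;> simp [code, e]
    · rw [lt_ge (by simpa [code] using hq), if_pos rfl]
      cases e : θ a q with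
      | none => rfl
      | some r => have := isElt_bound (hθ a) e; omega
  have h2 : ∀ a, code a ≠ [] := fun a => by simp [code]
  have h3 := h (fun a => ((w, A, c), code a)) fun a =>
    (mem_els hP).mpr (.inr ⟨hG, by simp [code], by rw [h1]; exact hθ a⟩)
  obtain ⟨s, e1, -, e3⟩ := prod_same (θ := fun a => ((w, A, c), code a)) (π := (w, A, c)) l _
    (h2 x) fun a _ => ⟨rfl, h2 a⟩
  obtain ⟨s', f1, -, f3⟩ := prod_same (θ := fun a => ((w, A, c), code a)) (π := (w, A, c)) l' _
    (h2 y) fun a _ => ⟨rfl, h2 a⟩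
  rw [e1, f1] at h3
  rw [(Prod.mk.inj h3).2, f3] at e3
  simp only [h1] at e3
  exact (congrFun e3 q).symm

/-- the identity holds in the table -/
def TV (T : List (List ℕ)) (u v : FreeSemigroup ℕ) : Prop :=
  ∀ f : ℕ → ℕ, (∀ k, f k < T.length) →
    (u.tail.map f).foldl (fun x y => (T.getD x []).getD y 0) (f u.head) =
      (v.tail.map f).foldl (fun x y => (T.getD x []).getD y 0) (f v.head)

theorem single_eq {P : Par} (hP : WF P) {x : ℕ} {v : List ℕ} (h : Valid P [x] v) : v = [x] := by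
  rw [← List.perm_singleton, List.perm_iff_count]
  intro a
  refine h.count_eq hP ?_
  have := List.count_le_length (a := a) (l := [x])
  have := hP.1
  simp only [List.length_singleton] at *
  omega

theorem tv_iff {P : Par} (hP : WF P) (u v : FreeSemigroup ℕ) :
    TV (tbP P) u v ↔ Valid P (u.head :: u.tail) (v.head :: v.tail) := by
  have hm : ∀ (f : ℕ → ℕ), (∀ k, f k < (tbP P).length) → ∀ l : List ℕ,
      ∀ x ∈ l.map f, x < (tbP P).length := by
    intro f hf l x hx
    obtain ⟨k, -, rfl⟩ := List.mem_map.mp hx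
    exact hf k
  constructor
  · intro h
    refine valid_of_prod_eq hP fun θ hθ => ?_
    have hf : ∀ k, ix (elP P) (θ k) < (tbP P).length := fun k => by
      rw [length_tb]; exact ix_lt (hθ k)
    have h1 := congrArg (fun x => (elP P).getD x zer) (h _ hf)
    simp only [(fold_eq hP _ _ (hf _) (hm _ hf _)).1, List.map_map, Function.comp_def,
      getD_ix (hθ _)] at h1
    exact h1
  · intro h f hf
    by_cases h1 : u.tail = []
    · rw [h1] at h ⊢
      obtain ⟨a, b⟩ := List.cons.inj (single_eq hP h)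
      rw [a, b]
    by_cases h2 : v.tail = []
    · rw [h2] at h ⊢
      obtain ⟨a, b⟩ := List.cons.inj (single_eq hP h.symm)
      rw [a, b]
    rw [(fold_eq hP _ _ (hf _) (hm _ hf _)).2 (by simpa using h1),
      (fold_eq hP _ _ (hf _) (hm _ hf _)).2 (by simpa using h2), List.map_map, List.map_map]
    congr 1
    exact prod_eq_of_valid hP h (θ := fun k => (elP P).getD (f k) zer) fun k => ev_mem (hf k)

end Pool.Agent.P.MP_e7c2f2_al
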