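import Pool.Agent.P.MP_e7c2f2_al.Star
import Pool.Agent.P.MP_e7c2f2_al.Mach

/-! The templates of a counter machine: a binary hierarchy whose left spines carry runs. -/

namespace Pool.Agent.P.MP_e7c2f2_al

open Function (update)

def common (C Q q : ℕ) : List (ℕ × ℕ × ℕ) :=
  [(1, 1, 0), (2, 3, 0)] ++ ((List.range Q).map fun r => (7 + 2 * C + r, 0, if r = q then 0 else 2))
    ++ if q = 0 then [(1, 3, 1), (7 + 2 * C, 3, 3)] ++ (List.range C).map fun i => (7 + 2 * i, 0, 0)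
      else [(7 + 2 * C, 1, 1)]

def ctrF (x : Tr) (i : ℕ) : List (ℕ × ℕ × ℕ) :=
  [(7 + 2 * i + x.1 % 2, 0, 6 + 2 * i), (7 + 2 * i + x.2.1 % 2, 4, 7 + 2 * i)] ++
    if i = x.2.2.1 ∧ x.2.2.2 = 1 then [(0, 7 + 2 * i, 6 + 2 * i)]
    else if i = x.2.2.1 ∧ x.2.2.2 = 2 then [] else [(3, 7 + 2 * i, 6 + 2 * i)]

def tplL (C Q : ℕ) (x : Tr) : Tpl :=
  (common C Q x.1 ++ [(5, 0, 0), (6, 0, 2), (6, 3, 3), (3, 4, 0), (4, 3, 4),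
      (7 + 2 * C + x.2.1, 4, 4), (0, 5, 0)] ++ (List.range C).flatMap (ctrF x) ++
      (if x.2.2.2 = 2 then [(3, 7 + 2 * x.2.2.1, 6 + 2 * C), (3, 6 + 2 * C, 6 + 2 * x.2.2.1)]
        else [(0, 6 + 2 * C, 0)]) ++ (if x.2.2.2 = 3 then [(0, 6 + 2 * x.2.2.1, 0)] else []),
    [(2, 0), (0, 4), (4, 3)] ++ if x.2.2.2 = 2 ∨ x.2.2.2 = 4 then [(6 + 2 * x.2.2.1, 0)] else [])

def tplR (C Q q : ℕ) : Tpl :=
  (common C Q q ++ [(6, 0, 0), (5, 0, 2), (5, 3, 3), (4, 0, 4), (3, 5, 3), (2, 5, 4)] ++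
    (List.range (2 * C + 1)).map fun j => (0, 6 + j, 0), [(2, 0)])

def tpls (C Q : ℕ) (tr : List Tr) : List Tpl := tr.map (tplL C Q) ++ (List.range Q).map (tplR C Q)

section

variable (Pt : ℕ → ℕ → ℕ → Prop) (C Q : ℕ)

def ComF (q : ℕ) (ρ : ℕ → ℕ) : Prop :=
  Pt 1 (ρ 1) (ρ 0) ∧ Pt 2 (ρ 3) (ρ 0) ∧
    (∀ r < Q, Pt (7 + 2 * C + r) (ρ 0) (ρ (if r = q then 0 else 2))) ∧
    (q = 0 → Pt 1 (ρ 3) (ρ 1) ∧ Pt (7 + 2 * C) (ρ 3) (ρ 3) ∧ ∀ i < C, Pt (7 + 2 * i) (ρ 0) (ρ 0)) ∧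
    (q ≠ 0 → Pt (7 + 2 * C) (ρ 1) (ρ 1))

def CtrF (q q' i₀ k i : ℕ) (ρ : ℕ → ℕ) : Prop :=
  Pt (7 + 2 * i + q % 2) (ρ 0) (ρ (6 + 2 * i)) ∧ Pt (7 + 2 * i + q' % 2) (ρ 4) (ρ (7 + 2 * i)) ∧
    (i = i₀ ∧ k = 1 → Pt 0 (ρ (7 + 2 * i)) (ρ (6 + 2 * i))) ∧
    (¬ (i = i₀ ∧ k = 1) → ¬ (i = i₀ ∧ k = 2) → Pt 3 (ρ (7 + 2 * i)) (ρ (6 + 2 * i)))

def LF (q q' i₀ k : ℕ) (ρ : ℕ → ℕ) : Prop :=
  (Pt 5 (ρ 0) (ρ 0) ∧ Pt 6 (ρ 0) (ρ 2) ∧ Pt 6 (ρ 3) (ρ 3) ∧ Pt 3 (ρ 4) (ρ 0) ∧ Pt 4 (ρ 3) (ρ 4) ∧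
      Pt (7 + 2 * C + q') (ρ 4) (ρ 4) ∧ Pt 0 (ρ 5) (ρ 0)) ∧
    (∀ i < C, CtrF Pt q q' i₀ k i ρ) ∧
    (k = 2 → Pt 3 (ρ (7 + 2 * i₀)) (ρ (6 + 2 * C)) ∧ Pt 3 (ρ (6 + 2 * C)) (ρ (6 + 2 * i₀))) ∧
    (k ≠ 2 → Pt 0 (ρ (6 + 2 * C)) (ρ 0)) ∧ (k = 3 → Pt 0 (ρ (6 + 2 * i₀)) (ρ 0)) ∧
    (ρ 2 < ρ 0 ∧ ρ 0 < ρ 4 ∧ ρ 4 < ρ 3) ∧ (k = 2 ∨ k = 4 → ρ (6 + 2 * i₀) < ρ 0)

def RF (ρ : ℕ → ℕ) : Prop :=
  (Pt 6 (ρ 0) (ρ 0) ∧ Pt 5 (ρ 0) (ρ 2) ∧ Pt 5 (ρ 3) (ρ 3) ∧ Pt 4 (ρ 0) (ρ 4) ∧ Pt 3 (ρ 5) (ρ 3) ∧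
    Pt 2 (ρ 5) (ρ 4)) ∧ (∀ j < 2 * C + 1, Pt 0 (ρ (6 + j)) (ρ 0)) ∧ ρ 2 < ρ 0

variable {Pt C Q}

theorem common_iff {q : ℕ} {ρ : ℕ → ℕ} :
    (∀ x ∈ common C Q q, Pt x.1 (ρ x.2.1) (ρ x.2.2)) ↔ ComF Pt C Q q ρ := by
  unfold common ComF
  by_cases h : q = 0 <;>
    simp only [h, if_true, if_false, List.forall_mem_append, List.forall_mem_map, List.mem_range,
      List.forall_mem_cons] <;> simp [h, and_assoc]

theorem ctrF_iff {q q' i₀ k i : ℕ} {ρ : ℕ → ℕ} :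
    (∀ x ∈ ctrF (q, q', i₀, k) i, Pt x.1 (ρ x.2.1) (ρ x.2.2)) ↔ CtrF Pt q q' i₀ k i ρ := by
  unfold ctrF CtrF
  dsimp only
  split_ifs with h1 h2 <;> simp_all

theorem tplL_iff {q q' i₀ k : ℕ} {ρ : ℕ → ℕ} :
    ((∀ x ∈ (tplL C Q (q, q', i₀, k)).1, Pt x.1 (ρ x.2.1) (ρ x.2.2)) ∧
      ∀ x ∈ (tplL C Q (q, q', i₀, k)).2, ρ x.1 < ρ x.2) ↔
      ComF Pt C Q q ρ ∧ LF Pt C q q' i₀ k ρ := by
  simp only [tplL, List.forall_mem_append, common_iff, List.forall_mem_flatMap, ctrF_iff,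
    List.mem_range, LF]
  by_cases h2 : k = 2
  · simp [h2, and_assoc]
  by_cases h3 : k = 3
  · simp [h3, and_assoc]
  by_cases h4 : k = 4
  · simp [h4, and_assoc]
  · simp [h2, h3, h4, and_assoc]

theorem tplR_iff {q : ℕ} {ρ : ℕ → ℕ} :
    ((∀ x ∈ (tplR C Q q).1, Pt x.1 (ρ x.2.1) (ρ x.2.2)) ∧ ∀ x ∈ (tplR C Q q).2, ρ x.1 < ρ x.2) ↔
      ComF Pt C Q q ρ ∧ RF Pt C ρ := by
  simp only [tplR, List.forall_mem_append, common_iff, RF]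
  simp [and_assoc]

end

/-- bounds on the pointers and roles of the templates -/
theorem tpls_bound {C Q : ℕ} {tr : List Tr} (h : MWF C Q tr) (hQ : 0 < Q) :
    ∀ t ∈ tpls C Q tr, (∀ x ∈ t.1, x.1 < 7 + 2 * C + Q ∧ x.2.1 < 7 + 2 * C ∧ x.2.2 < 7 + 2 * C) ∧
      ∀ x ∈ t.2, x.1 < 7 + 2 * C ∧ x.2 < 7 + 2 * C := by
  have hc : ∀ q, ComF (fun b x y => b < 7 + 2 * C + Q ∧ x < 7 + 2 * C ∧ y < 7 + 2 * C) C Q q id := by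
    intro q
    refine ⟨by simp; omega, by simp; omega, fun r hr => ?_, fun _ => ⟨by simp; omega,
      by simp; omega, fun i hi => by simp; omega⟩, fun _ => by simp; omega⟩
    simp only [id]
    split_ifs <;> omega
  intro t ht
  rcases List.mem_append.mp ht with ht | ht
  · obtain ⟨⟨q, q', i₀, k⟩, hx, rfl⟩ := List.mem_map.mp ht
    have := h _ hx
    dsimp only at this
    constructor
    · simp only [tplL, List.forall_mem_append, List.forall_mem_flatMap, List.mem_range]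
      refine ⟨⟨⟨⟨common_iff.mpr (hc q), by simp; omega⟩, fun i hi => ?_⟩, ?_⟩, ?_⟩
      · refine (ctrF_iff (Pt := fun b x y => b < 7 + 2 * C + Q ∧ x < 7 + 2 * C ∧ y < 7 + 2 * C)
          (ρ := id)).mpr ?_
        simp only [CtrF, id]
        omega
      · split_ifs <;> simp <;> omega
      · split_ifs <;> simp; omega
    · simp only [tplL, List.forall_mem_append]
      refine ⟨by simp; omega, ?_⟩
      split_ifs <;> simp; omega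
  · obtain ⟨q, -, rfl⟩ := List.mem_map.mp ht
    constructor
    · simp only [tplR, List.forall_mem_append]
      exact ⟨⟨common_iff.mpr (hc q), by simp; omega⟩, by simp; omega⟩
    · simp [tplR]; omega

theorem conn_tpls {C Q : ℕ} {tr : List Tr} (h : MWF C Q tr) (hQ : 0 < Q) :
    Conn (7 + 2 * C + Q) (7 + 2 * C) (tpls C Q tr) := by
  intro t ht
  refine ⟨fun x hx => ((tpls_bound h hQ t ht).1 x hx).1, fun r hr h2 => ?_⟩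
  rcases List.mem_append.mp ht with ht | ht
  · obtain ⟨⟨q, q', i₀, k⟩, hx, rfl⟩ := List.mem_map.mp ht
    have := h _ hx
    dsimp only at this
    have : r = 2 ∨ r = 3 ∨ r = 4 ∨ r = 5 ∨ r = 6 + 2 * C ∨
        ∃ i < C, r = 6 + 2 * i ∨ r = 7 + 2 * i := by
      by_cases h6 : r < 6 ∨ r = 6 + 2 * C
      · omega
      · exact .inr (.inr (.inr (.inr (.inr ⟨(r - 6) / 2, by omega, by omega⟩))))
    rcases this with rfl | rfl | rfl | rfl | rfl | ⟨i, hi, rfl | rfl⟩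
    · exact ⟨(6, 0, 2), by simp [tplL], by simp⟩
    · exact ⟨(2, 3, 0), by simp [tplL, common], by simp⟩
    · exact ⟨(3, 4, 0), by simp [tplL], by simp⟩
    · exact ⟨(0, 5, 0), by simp [tplL], by simp⟩
    · by_cases hk : k = 2
      · exact ⟨(3, 6 + 2 * C, 6 + 2 * i₀), by simp [tplL, hk], by simp; omega⟩
      · exact ⟨(0, 6 + 2 * C, 0), by simp [tplL, hk], by simp⟩
    · refine ⟨(7 + 2 * i + q % 2, 0, 6 + 2 * i), ?_, by simp⟩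
      simp only [tplL, List.mem_append, List.mem_flatMap, List.mem_range]
      exact .inl (.inl (.inr ⟨i, hi, by simp [ctrF]⟩))
    · refine ⟨(7 + 2 * i + q' % 2, 4, 7 + 2 * i), ?_, by simp; omega⟩
      simp only [tplL, List.mem_append, List.mem_flatMap, List.mem_range]
      exact .inl (.inl (.inr ⟨i, hi, by simp [ctrF]⟩))
  · obtain ⟨q, -, rfl⟩ := List.mem_map.mp ht
    have : r = 2 ∨ r = 3 ∨ r = 4 ∨ r = 5 ∨ ∃ j < 2 * C + 1, r = 6 + j := by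
      by_cases h6 : r < 6
      · omega
      · exact .inr (.inr (.inr (.inr ⟨r - 6, by omega, by omega⟩)))
    rcases this with rfl | rfl | rfl | rfl | ⟨j, hj, rfl⟩
    · exact ⟨(5, 0, 2), by simp [tplR], by simp⟩
    · exact ⟨(2, 3, 0), by simp [tplR, common], by simp⟩
    · exact ⟨(4, 0, 4), by simp [tplR], by simp⟩
    · exact ⟨(3, 5, 3), by simp [tplR], by simp⟩
    · refine ⟨(0, 6 + j, 0), ?_, by simp⟩
      simp only [tplR, List.mem_append, List.mem_map, List.mem_range]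
      exact .inr ⟨j, hj, rfl⟩

/-- what a verified position means -/
theorem ok_iff {C Q : ℕ} {tr : List Tr} (h : MWF C Q tr) (hQ : 0 < Q) {Pt : ℕ → ℕ → ℕ → Prop}
    {p : ℕ} : OK (7 + 2 * C) (tpls C Q tr) Pt p ↔ ∃ ρ : ℕ → ℕ, ρ 0 = p ∧ ρ 1 = p + 1 ∧
      (∀ r < 7 + 2 * C, Pt 0 (ρ r) (ρ r)) ∧ ∃ q < Q, ComF Pt C Q q ρ ∧
        ((∃ q' i₀ k, (q, q', i₀, k) ∈ tr ∧ LF Pt C q q' i₀ k ρ) ∨ RF Pt C ρ) := by
  constructor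
  · rintro ⟨t, ht, ρ, r0, r1, s1, s2, s3⟩
    obtain ⟨b1, b2⟩ := tpls_bound h hQ t ht
    have s : (∀ x ∈ t.1, Pt x.1 (ρ x.2.1) (ρ x.2.2)) ∧ ∀ x ∈ t.2, ρ x.1 < ρ x.2 :=
      ⟨fun x hx => s2 x hx (b1 x hx).2.1 (b1 x hx).2.2, fun x hx => s3 x hx (b2 x hx).1 (b2 x hx).2⟩
    refine ⟨ρ, r0, r1, s1, ?_⟩
    rcases List.mem_append.mp ht with ht | ht
    · obtain ⟨⟨q, q', i₀, k⟩, hx, rfl⟩ := List.mem_map.mp ht
      have := tplL_iff.mp s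
      exact ⟨q, (h _ hx).1, this.1, .inl ⟨q', i₀, k, hx, this.2⟩⟩
    · obtain ⟨q, hq, rfl⟩ := List.mem_map.mp ht
      have := tplR_iff.mp s
      exact ⟨q, List.mem_range.mp hq, this.1, .inr this.2⟩
  · rintro ⟨ρ, r0, r1, s1, q, hq, c, ⟨q', i₀, k, hx, d⟩ | d⟩
    · have := tplL_iff.mpr ⟨c, d⟩
      exact ⟨_, List.mem_append_left _ (List.mem_map.mpr ⟨_, hx, rfl⟩), ρ, r0, r1, s1,
        fun x hx _ _ => this.1 x hx, fun x hx _ _ => this.2 x hx⟩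
    · have := tplR_iff.mpr ⟨c, d⟩
      exact ⟨_, List.mem_append_right _ (List.mem_map.mpr ⟨q, List.mem_range.mpr hq, rfl⟩), ρ,
        r0, r1, s1, fun x hx _ _ => this.1 x hx, fun x hx _ _ => this.2 x hx⟩

end Pool.Agent.P.MP_e7c2f2_al
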